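import Pool.Agent.Helper85.ProC.Sec

/-!
The action of `G` on an abelian section as a model in the sense of the engine.
-/

set_option autoImplicit false
set_option linter.unusedSectionVars false

namespace Pool.Agent.Helper85.ProC

open Pool.Agent.Helper85.ProP Pool.Agent.Helper30.ProP Filter Topology

universe u

section algebra

variable {G : Type u} [Group G] [TopologicalSpace G] (D : Sec G)

/-- the action on the section -/
def sg : G →* AddMonoid.End (CC D) where
  toFun h := cj D h
  map_one' := by ext b; exact cj_one b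
  map_mul' g h := by ext b; exact cj_mul g h b

theorem sg_apply (h : G) (b : CC D) : sg D h b = cj D h b := rfl

open Classical in
/-- the projection to the section -/
noncomputable def pr (g : G) : CC D := if hg : g ∈ D.L then mkC hg else 0

theorem pr_eq {g : G} (hg : g ∈ D.L) : pr D g = mkC hg := by
  unfold pr
  rw [dif_pos hg]

theorem model : Model D.L D.K (pr D) (sg D) where
  le := D.KL
  conj1 h a ha := D.Ln.conj_mem a ha h
  mul a ha b hb := by
    rw [pr_eq D ha, pr_eq D hb, pr_eq D (D.L.mul_mem ha hb)]; rfl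
  surj m := by
    obtain ⟨a, ha, rfl⟩ := mkC_surj m
    exact ⟨a, ha, pr_eq D ha⟩
  zero a ha := by
    rw [pr_eq D ha]; exact mkC_eq_zero ha
  act h a ha := by
    rw [pr_eq D ha, pr_eq D (D.Ln.conj_mem a ha h)]; rfl

end algebra

section topology

variable {G : Type u} [Group G] [TopologicalSpace G] [IsTopologicalGroup G] [CompactSpace G]
  [T2Space G] [TotallyDisconnectedSpace G] (D : Sec G)

theorem cont_sg : Continuous fun x : G × CC D => sg D x.1 x.2 := by
  have h1 : Continuous fun x : G × D.L => (⟨x.1 * x.2 * x.1⁻¹, D.Ln.conj_mem x.2 x.2.2 x.1⟩ : D.L) :=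
    Continuous.subtype_mk (by fun_prop) _
  have h2 : Continuous fun x : G × D.L => sg D x.1 (qm x.2) := continuous_qm.comp h1
  have h3 : IsOpenQuotientMap (Prod.map (id : G → G) (qm : D.L → CC D)) := by
    refine IsOpenQuotientMap.prodMap IsOpenQuotientMap.id ⟨?_, continuous_qm, isOpenMap_qm⟩
    intro b
    obtain ⟨a, ha, rfl⟩ := mkC_surj b
    exact ⟨⟨a, ha⟩, rfl⟩
  exact h3.isQuotientMap.continuous_iff.2 h2

theorem cont_sg_right (h : G) : Continuous fun b : CC D => sg D h b := by
  have h1 : Continuous fun b : CC D => ((h, b) : G × CC D) := Continuous.prodMk_right h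
  show Continuous ((fun x : G × CC D => sg D x.1 x.2) ∘ fun b : CC D => ((h, b) : G × CC D))
  generalize hf : (fun x : G × CC D => sg D x.1 x.2) = f
  have h2 : Continuous f := by rw [← hf]; exact cont_sg D
  exact h2.comp h1

theorem cont_sg_left (b : CC D) : Continuous fun h : G => sg D h b := by
  have h1 : Continuous fun h : G => ((h, b) : G × CC D) := Continuous.prodMk_left b
  show Continuous ((fun x : G × CC D => sg D x.1 x.2) ∘ fun h : G => ((h, b) : G × CC D))
  generalize hf : (fun x : G × CC D => sg D x.1 x.2) = f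
  have h2 : Continuous f := by rw [← hf]; exact cont_sg D
  exact h2.comp h1

theorem basis_sg (p : ℕ) [Fact p.Prime] (hp : PP p G) (V : Set (CC D)) (hV : IsOpen V)
    (h0 : (0 : CC D) ∈ V) :
    ∃ U : AddSubgroup (CC D), IsOpen (U : Set (CC D)) ∧ (U : Set (CC D)) ⊆ V ∧
      (∀ h : G, ∀ b ∈ U, sg D h b ∈ U) ∧ ∃ n : ℕ, ∀ b, p ^ n • b ∈ U := by
  obtain ⟨O, hO⟩ := basis_inter V hV h0
  have hOn := O.isNormal'
  obtain ⟨n, hn⟩ := hp O.toSubgroup O.isNormal' O.isOpen'
  refine ⟨inter D O.toSubgroup, inter_open _ O.isOpen', hO, ?_, n, ?_⟩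
  · intro h b hb
    obtain ⟨a, ha, haO, rfl⟩ := mem_inter.1 hb
    rw [sg_apply, cj_mk, mem_inter]
    exact ⟨_, _, hOn.conj_mem _ haO _, rfl⟩
  · intro b
    obtain ⟨a, ha, rfl⟩ := mkC_surj b
    rw [← mkC_pow, mem_inter]
    refine ⟨_, _, ?_, rfl⟩
    have := O.toSubgroup.pow_index_mem a
    rwa [hn] at this

/-- the sum of two closed subgroups is closed -/
theorem closed_sup {V : Type*} [AddCommGroup V] [TopologicalSpace V] [IsTopologicalAddGroup V]
    [CompactSpace V] [T2Space V] {A B : AddSubgroup V} (hA : IsClosed (A : Set V))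
    (hB : IsClosed (B : Set V)) : IsClosed ((A ⊔ B : AddSubgroup V) : Set V) := by
  have h1 : ((A ⊔ B : AddSubgroup V) : Set V) =
      (fun x : V × V => x.1 + x.2) '' ((A : Set V) ×ˢ (B : Set V)) := by
    ext v
    simp only [SetLike.mem_coe, Set.mem_image, Set.mem_prod, Prod.exists]
    rw [AddSubgroup.mem_sup]
    constructor
    · rintro ⟨a, ha, b, hb, h⟩; exact ⟨a, b, ⟨ha, hb⟩, h⟩
    · rintro ⟨a, b, ⟨ha, hb⟩, h⟩; exact ⟨a, ha, b, hb, h⟩
  rw [h1]
  exact ((hA.isCompact.prod hB.isCompact).image (by fun_prop)).isClosed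

theorem closed_Nn (ls : List G) : IsClosed (Nn (sg D) ls : Set (CC D)) := by
  induction ls with
  | nil =>
    show IsClosed ((⊥ : AddSubgroup (CC D)) : Set (CC D))
    rw [AddSubgroup.coe_bot]
    exact isClosed_singleton
  | cons l ls ih =>
    refine closed_sup ?_ ih
    have h1 : (Rg (sg D l - 1) : Set (CC D)) = Set.range fun b : CC D => sg D l b - b := by
      ext v
      exact mem_Rg
    rw [h1]
    exact (isCompact_range ((cont_sg_right D l).sub continuous_id)).isClosed

theorem sep : Sep (sg D) := by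
  intro ls y hy
  have h1 : IsOpen ((fun z : CC D => y - z) ⁻¹' ((Nn (sg D) ls : Set (CC D))ᶜ)) :=
    (closed_Nn D ls).isOpen_compl.preimage (by fun_prop)
  obtain ⟨O, hO⟩ := basis_inter _ h1 (by
    show y - 0 ∉ (Nn (sg D) ls : Set (CC D))
    rw [sub_zero]; exact hy)
  have hOn := O.isNormal'
  refine ⟨Nn (sg D) ls ⊔ inter D O.toSubgroup, le_sup_left, ?_, O.toSubgroup, ?_, ?_⟩
  · intro h
    obtain ⟨a, ha, b, hb, hab⟩ := AddSubgroup.mem_sup.1 h
    refine hO hb ?_
    have : y - b = a := by rw [← hab]; abel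
    show y - b ∈ (Nn (sg D) ls : Set (CC D))
    rw [this]; exact ha
  · exact Subgroup.finiteIndex_of_finite_quotient' O
  · intro h hh v
    obtain ⟨a, ha, rfl⟩ := mkC_surj v
    refine AddSubgroup.mem_sup_right ?_
    have e : sg D h (mkC ha) - mkC ha = mkC (D.L.mul_mem (D.Ln.conj_mem a ha h)
      (D.L.inv_mem ha)) := by
      rw [sg_apply, cj_mk, sub_eq_add_neg]; rfl
    rw [e, mem_inter]
    refine ⟨_, _, ?_, rfl⟩
    have : h * a * h⁻¹ * a⁻¹ = h * (a * h⁻¹ * a⁻¹) := by group
    rw [this]
    exact O.toSubgroup.mul_mem hh (hOn.conj_mem _ (O.toSubgroup.inv_mem hh) a)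
  where
  Subgroup.finiteIndex_of_finite_quotient' (O : OpenNormalSubgroup G) :
      O.toSubgroup.FiniteIndex := by
    have := Subgroup.quotient_finite_of_isOpen O.toSubgroup O.isOpen'
    exact Subgroup.finiteIndex_of_finite_quotient

end topology

end Pool.Agent.Helper85.ProC
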