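import Pool.Agent.Helper30.ProP.Goals

/-!
Statements of building blocks (case: nilpotent-by-(soluble of finite rank)).
-/

set_option autoImplicit false

namespace Pool.Agent.Helper85.ProC

open Pool.Agent.Helper85.ProP Pool.Agent.Helper30.ProP

/-- PROD: modulo `Φ_n(γ) = Σ_{i<p} γ^(i p^n)` the polynomial `Y^(p^(n+1)) - 1` is the product of the
`Y - γ^j`. -/
def StmtProd.{u} : Prop :=
  ∀ (p : ℕ) [Fact p.Prime] (n : ℕ) (R : Type u) [CommRing R] (γ η : R),
    ∃ c : R, ∏ j ∈ Finset.range (p ^ (n + 1)), (η - γ ^ j) =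
      η ^ p ^ (n + 1) - 1 + c * ∑ i ∈ Finset.range p, γ ^ (i * p ^ n)

/-- RANK: submodules of `ℤ_p^d` of the same rank are commensurable. -/
def StmtRank : Prop :=
  ∀ (p : ℕ) [Fact p.Prime] (d : ℕ) (A B : Submodule ℤ_[p] (Fin d → ℤ_[p])), A ≤ B →
    Module.finrank ℤ_[p] B ≤ Module.finrank ℤ_[p] A →
    ∀ q ∈ B, ∃ t : ℕ, (p : ℤ_[p]) ^ t • q ∈ A

/-- TORS: a descending chain of submodules of `ℤ_p^d` with intersection in `L` has a member without
torsion modulo `L`. -/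
def StmtTors : Prop :=
  ∀ (p : ℕ) [Fact p.Prime] (d : ℕ) (L : Submodule ℤ_[p] (Fin d → ℤ_[p]))
    (S : ℕ → Submodule ℤ_[p] (Fin d → ℤ_[p])), Antitone S → (∀ m, L ≤ S m) →
    (∀ h, (∀ m, h ∈ S m) → h ∈ L) →
    ∃ m, ∀ h ∈ S m, ∀ t : ℕ, (p : ℤ_[p]) ^ t • h ∈ L → h ∈ L

/-- ACC: if all closed normal subgroups containing `K` are finitely generated as closed normal
subgroups, then ascending chains of closed normal subgroups containing `K` stabilise. -/
def StmtACC.{u} : Prop :=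
  ∀ (p : ℕ) [Fact p.Prime] (G : Type u) [Group G] [TopologicalSpace G] [IsTopologicalGroup G]
    [CompactSpace G] [T2Space G] [TotallyDisconnectedSpace G], PP p G → FGG G →
    ∀ K : Subgroup G, MaxN K → ∀ T : ℕ → Subgroup G, Monotone T → (∀ e, (T e).Normal) →
      (∀ e, IsClosed (T e : Set G)) → (∀ e, K ≤ T e) → ∃ e, ∀ e' ≥ e, T e' = T e

end Pool.Agent.Helper85.ProC
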