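import Pool.Agent.Helper85.ProC.Vis

/-!
Statements of group theoretic building blocks for the assembly.
-/

set_option autoImplicit false

namespace Pool.Agent.Helper85.ProC

open Pool.Agent.Helper85.ProP Pool.Agent.Helper30.ProP

/-- QUO: passing to the quotient by `N`. -/
def StmtQuo.{u} : Prop :=
  ∀ (p : ℕ) [Fact p.Prime] (G : Type u) [Group G] [TopologicalSpace G] [IsTopologicalGroup G]
    [CompactSpace G] [T2Space G] [TotallyDisconnectedSpace G] (N : Subgroup G) [N.Normal],
    IsClosed (N : Set G) → PP p G → Ser G N →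
    T2Space (G ⧸ N) ∧ TotallyDisconnectedSpace (G ⧸ N) ∧ PP p (G ⧸ N) ∧ Ser (G ⧸ N) ⊥

/-- SER: passing to an open subgroup `W` of `U`, where `N` is normal in `U` with `U / N` soluble of
finite rank. -/
def StmtSer.{u} : Prop :=
  ∀ (G : Type u) [Group G] [TopologicalSpace G] [IsTopologicalGroup G]
    [CompactSpace G] [T2Space G] [TotallyDisconnectedSpace G]
    (U : Subgroup G) (N : Subgroup U) [N.Normal], IsOpen (U : Set G) → IsClosed (N : Set U) →
    Group.IsNilpotent N → IsSolvable (U ⧸ N) → FinRank (U ⧸ N) →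
    ∀ W : Subgroup G, W ≤ U → IsOpen (W : Set G) →
    ∃ M : Subgroup W, M.Normal ∧ IsClosed (M : Set W) ∧ Group.IsNilpotent M ∧ Ser W M

end Pool.Agent.Helper85.ProC
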