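import Pool.Agent.Helper85.ProC.Series2
import Pool.Agent.Helper85.ProC.Goals3
import Pool.Agent.Helper30.ProP.Assembly

/-!
# Assembly of the case nilpotent-by-(soluble of finite rank)
-/

set_option autoImplicit false
set_option linter.unusedSectionVars false

namespace Pool.Agent.Helper85.ProC

open Pool.Agent.Helper85.ProP Pool.Agent.Helper30.ProP Function Filter Topology

universe u

section dich

variable {G : Type u} [Group G] [TopologicalSpace G] [IsTopologicalGroup G] [CompactSpace G]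
  [T2Space G] [TotallyDisconnectedSpace G]

/-- a finitely generated section, or an element of infinite type -/
theorem dich (hVis : StmtVis.{u}) (hQuo : StmtQuo.{u}) (p : ℕ) [Fact p.Prime] (hPP : PP p G)
    (D : Sec G) (N : Subgroup G) [N.Normal] (hNc : IsClosed (N : Set G)) (hSer : Ser G N)
    (hNact : ∀ n ∈ N, ∀ v, sg D n v = v) (hNFG : NFG D.L)
    (htf : ∀ a ∈ D.L, a ^ p ∈ D.K → a ∈ D.K) :
    FGmod D.K D.L ∨ ∃ g0 : G, ∀ n0 : ℕ, ∃ n, n0 ≤ n ∧ ∀ m : ℕ, ∃ v : CC D, p ^ m • v ∉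
      Rg (∑ i ∈ Finset.range p, sg D g0 ^ (i * p ^ n)) := by
  classical
  by_cases hfg : ∃ F : Finset (CC D), ∀ U : AddSubgroup (CC D), IsClosed (U : Set (CC D)) →
      (F : Set (CC D)) ⊆ (U : Set (CC D)) → U = ⊤
  · left
    obtain ⟨F, hF⟩ := hfg
    have hl : ∀ f : CC D, ∃ a : G, ∃ ha : a ∈ D.L, mkC ha = f := fun f => mkC_surj f
    choose a ha hmk using hl
    refine ⟨F.image a, ?_, ?_⟩
    · intro g hg
      rw [Finset.coe_image] at hg
      obtain ⟨f, _, rfl⟩ := hg
      exact ha f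
    · intro H hH hKH hFH g hg
      have h1 := hF (inter D H) (inter_closed H hH) (by
        intro f hf
        refine mem_inter.2 ⟨a f, ha f, hFH ?_, hmk f⟩
        rw [Finset.coe_image]
        exact ⟨f, hf, rfl⟩)
      have h2 : mkC hg ∈ inter D H := by rw [h1]; trivial
      obtain ⟨b, hb, hbH, hbe⟩ := mem_inter.1 h2
      have h3 := (mkC_eq hb hg).1 hbe
      have h4 := H.mul_mem hbH (hKH h3)
      rwa [mul_inv_cancel_left] at h4
  · right
    obtain ⟨i1, i2, hPPQ, hSerQ⟩ := hQuo p G N hNc hPP hSer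
    let σ : G ⧸ N →* AddMonoid.End (CC D) := QuotientGroup.lift N (sg D) (fun n hn => by
      ext v; exact hNact n hn v)
    have hσ : ∀ (g : G) (v : CC D), σ (g : G ⧸ N) v = sg D g v := fun g v => rfl
    have hcont : Continuous fun x : (G ⧸ N) × CC D => σ x.1 x.2 := by
      have h3 : IsOpenQuotientMap (Prod.map (QuotientGroup.mk : G → G ⧸ N) (id : CC D → CC D)) :=
        IsOpenQuotientMap.prodMap QuotientGroup.isOpenQuotientMap_mk IsOpenQuotientMap.id
      refine h3.isQuotientMap.continuous_iff.2 ?_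
      exact cont_sg D
    obtain ⟨F, hFL, hF⟩ := hNFG
    have hb : ∀ W : Set (CC D), IsOpen W → (0 : CC D) ∈ W → ∃ U : AddSubgroup (CC D),
        IsOpen (U : Set (CC D)) ∧ (U : Set (CC D)) ⊆ W ∧ (∀ h : G ⧸ N, ∀ b ∈ U, σ h b ∈ U) ∧
        ∃ n : ℕ, ∀ b : CC D, p ^ n • b ∈ U := by
      intro W hW h0
      obtain ⟨U, hU1, hU2, hU3, hU4⟩ := basis_sg D p hPP W hW h0
      refine ⟨U, hU1, hU2, fun h b hb => ?_, hU4⟩
      obtain ⟨g, rfl⟩ := QuotientGroup.mk_surjective h
      exact hU3 g b hb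
    have hf : ∃ F : Finset (CC D), ∀ U : AddSubgroup (CC D), IsClosed (U : Set (CC D)) →
        (∀ h : G ⧸ N, ∀ b ∈ U, σ h b ∈ U) → (F : Set (CC D)) ⊆ (U : Set (CC D)) → U = ⊤ := by
      refine ⟨(Finset.univ : Finset F).image (fun f => (mkC (hFL f.2) : CC D)), ?_⟩
      intro U hU hinv hFU
      have hn : (toG U).Normal := by
        constructor
        intro a ha h
        obtain ⟨ha1, ha2⟩ := mem_toG.1 ha
        rw [mem_toG]
        refine ⟨D.Ln.conj_mem a ha1 h, ?_⟩
        exact hinv (h : G ⧸ N) _ ha2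
      have h5 := hF (toG U) hn (toG_closed U hU) (by
        intro f hf
        refine mem_toG.2 ⟨hFL hf, hFU ?_⟩
        rw [Finset.coe_image]
        exact ⟨⟨f, hf⟩, Finset.mem_coe.2 (Finset.mem_univ _), rfl⟩)
      rw [eq_top_iff]
      intro b _
      obtain ⟨a, ha, rfl⟩ := mkC_surj b
      obtain ⟨_, h6⟩ := mem_toG.1 (h5 ha)
      exact h6
    have ht : ∀ v : CC D, p • v = 0 → v = 0 := by
      intro v hv
      obtain ⟨a, ha, rfl⟩ := mkC_surj v
      rw [← mkC_pow, mkC_eq_zero] at hv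
      rw [mkC_eq_zero]
      exact htf a ha hv
    obtain ⟨q, hq⟩ := hVis p (G ⧸ N) hPPQ hSerQ (CC D) σ hcont hb hf ht hfg
    obtain ⟨g0, rfl⟩ := QuotientGroup.mk_surjective q
    exact ⟨g0, hq⟩

end dich

/-- Finitely generated torsion-free pro-`p` groups which are nilpotent-by-(soluble of finite rank)
and have a decidable theory have finite rank. -/
theorem nilBySol (hVis : StmtVis.{u}) (hQuo : StmtQuo.{u}) (hMax : StmtMax.{u}) (hRk : StmtRk.{u})
    (hACC : StmtACC.{u}) (p : ℕ) [Fact p.Prime] (G : Type u) [Group G] [TopologicalSpace G]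
    [IsTopologicalGroup G] [CompactSpace G] [T2Space G] [TotallyDisconnectedSpace G]
    (hPP : PP p G) (hfg : FGG G) (htf : ∀ (g : G) (n : ℕ), 0 < n → g ^ n = 1 → g = 1)
    (N : Subgroup G) [hNn : N.Normal] (hNc : IsClosed (N : Set G)) (hnil : Group.IsNilpotent N)
    (hSer : Ser G N) (hdec : DecTh G) : FinRank G := by
  classical
  have hp : 0 < p := (Fact.out : p.Prime).pos
  obtain ⟨c, hc⟩ := (Subgroup.isNilpotent_iff_lowerCentralSeries _).1 hnil
  -- `MaxN N` and the rank of `G / N`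
  obtain ⟨k, Hs, hH0, hHk, hHn, hHs⟩ := hSer
  have hSer' : Ser G N := ⟨k, Hs, hH0, hHk, hHn, hHs⟩
  have hmaxT : MaxN (⊤ : Subgroup G) := by
    intro K' _ _ hK'
    have : K' = ⊤ := top_le_iff.1 hK'
    subst this
    obtain ⟨S, hS⟩ := hfg
    exact ⟨S, fun _ _ => trivial, fun H _ hH hSH => by
      rw [← hS]
      exact Subgroup.topologicalClosure_minimal _ ((Subgroup.closure_le _).2 hSH) hH⟩
  have hdown : ∀ i : ℕ, i ≤ k → MaxN (Hs (k - i)) ∧ ∃ r : ℕ, RkMod (Hs (k - i)) ⊤ r := by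
    intro i
    induction i with
    | zero =>
      intro _
      rw [Nat.sub_zero, hHk]
      refine ⟨hmaxT, 0, fun H _ => ⟨fun i => i.elim0, fun i => i.elim0, fun M _ h _ => h⟩⟩
    | succ i ih =>
      intro hi
      obtain ⟨h1, r, hr⟩ := ih (by omega)
      have e : k - i = (k - (i + 1)) + 1 := by omega
      rw [e] at h1 hr
      set j := k - (i + 1) with hj
      obtain ⟨a1, a2, a3⟩ := hHs j (by omega)
      refine ⟨hMax p G hPP hfg (Hs j) (Hs (j + 1)) (hHn j).1 (hHn j).2 (hHn (j + 1)).1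
        (hHn (j + 1)).2 a1 a2 a3 h1, ?_⟩
      obtain ⟨s, hs⟩ := hRk p G hPP (Hs j) (Hs (j + 1)) (hHn j).1 (hHn j).2 (hHn (j + 1)).1
        (hHn (j + 1)).2 a1 a2 a3
      exact ⟨r + s, hr.comp hs le_top⟩
  obtain ⟨hmaxN, r0, hr0⟩ := hdown k le_rfl
  rw [Nat.sub_self, hH0] at hmaxN hr0
  -- normal generators of `N`
  obtain ⟨S, hSN, hS⟩ := hmaxN N hNn hNc le_rfl
  set e := S.toList.length with he
  set v0 : ℕ → G := fun i => S.toList.getD i 1 with hv0
  set F : List G := pl e v0 with hF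
  have hFS : F = S.toList := by
    apply List.ext_getElem
    · simp [hF, pl, he]
    · intro i h1 h2
      simp only [hF, pl, List.getElem_map, List.getElem_range, hv0]
      rw [List.getD_eq_getElem _ _ h2]
  have hFN : ∀ f ∈ F, f ∈ N := by
    intro f hf
    rw [hFS, Finset.mem_toList] at hf
    exact hSN hf
  have hN : ∀ H : Subgroup G, H.Normal → IsClosed (H : Set G) → (∀ f ∈ F, f ∈ H) → N ≤ H := by
    intro H hHn hHc hFH
    refine hS H hHn hHc fun f hf => hFH f ?_
    rw [hFS, Finset.mem_toList]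
    exact hf
  have hNN : N ≤ DP F c := N_le_DP F hc hFN
  have hWc : WP F N c = N := inf_eq_left.2 hNN
  have htfW := WP_tf F hN hp htf hFN
  have htfW' : ∀ (s j : ℕ), ∀ w ∈ WP F N (j + 1), w ^ p ^ s ∈ DP F j → w ∈ DP F j := by
    intro s
    induction s with
    | zero => intro j w _ hw; simpa using hw
    | succ s ih =>
      intro j w hw hwp
      refine ih j w hw (htfW j _ (Subgroup.pow_mem _ hw _) ?_)
      rwa [← pow_mul, ← pow_succ]
  -- one step down the series
  have key : ∀ j : ℕ, MaxN (WP F N (j + 1)) → FGmod (WP F N j) (WP F N (j + 1)) := by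
    intro j hmax
    set W := WP F N (j + 1) with hW
    have hWn : W.Normal := WP_normal F N (j + 1)
    have hWcl : IsClosed (W : Set G) := isClosed_WP F hNc (j + 1)
    have hWL : W ≤ LP F j := WP_le_LP F hN j
    have hNFG : NFG (LP F j) := hmax (LP F j) inferInstance (isClosed_LP F j) hWL
    -- the torsion stabilises
    obtain ⟨s, hs⟩ := hACC p G hPP hfg W hmax (fun s => TP F j (p ^ s) ⊔ W)
      (fun a b hab => sup_le_sup_right (TP_mono F j (pow_dvd_pow p hab)) _)
      (fun s => Subgroup.sup_normal _ _)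
      (fun s => by
        have h1 : ((TP F j (p ^ s) ⊔ W : Subgroup G) : Set G) =
            (fun x : G × G => x.1 * x.2) '' ((TP F j (p ^ s) : Set G) ×ˢ (W : Set G)) := by
          ext g
          simp only [SetLike.mem_coe, Set.mem_image, Set.mem_prod, Prod.exists]
          rw [Subgroup.mem_sup_of_normal_right]
          constructor
          · rintro ⟨a, ha, b, hb, h⟩; exact ⟨a, b, ⟨ha, hb⟩, h⟩
          · rintro ⟨a, b, ⟨ha, hb⟩, h⟩; exact ⟨a, ha, b, hb, h⟩
        rw [h1]
        exact (((isClosed_TP F j (p ^ s)).isCompact.prod hWcl.isCompact).image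
          (by fun_prop)).isClosed)
      (fun s => le_sup_right)
    have hst : ∀ s' ≥ s, TP F j (p ^ s') ≤ TP F j (p ^ s) := by
      intro s' hs' a ha
      have h1 : a ∈ TP F j (p ^ s) ⊔ W := by
        rw [← hs s' hs']
        exact Subgroup.mem_sup_left ha
      rw [Subgroup.mem_sup_of_normal_right] at h1
      obtain ⟨b, hb, w, hw, rfl⟩ := h1
      have hwT : w ∈ TP F j (p ^ s') := by
        have h2 := Subgroup.mul_mem _ (Subgroup.inv_mem _ (TP_mono F j (pow_dvd_pow p hs') hb)) ha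
        rwa [inv_mul_cancel_left] at h2
      have hwD : w ∈ DP F j := htfW' s' j w hw hwT.2
      exact Subgroup.mul_mem _ hb (DP_le_TP F j _ hwD)
    -- the section
    set D : Sec G := SecP F j (p ^ s) with hD
    have hDK : D.K = TP F j (p ^ s) := rfl
    have hDL : D.L = LP F j := rfl
    have hNact : ∀ n ∈ N, ∀ v, sg D n v = v := by
      intro n hn v
      obtain ⟨a, ha, rfl⟩ := mkC_surj v
      rw [sg_apply, cj_mk, mkC_eq]
      have h1 : cm a n ∈ DP F j := cm_DP_N F hN j ha.1 hn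
      have e1 : (n * a * n⁻¹)⁻¹ * a = a⁻¹ * (cm a n) * a := by
        unfold cm; group
      rw [e1]
      refine DP_le_TP F j _ ?_
      have h2 := Subgroup.Normal.conj_mem (H := DP F j) inferInstance _ h1 a⁻¹
      rwa [inv_inv] at h2
    have htfD : ∀ a ∈ D.L, a ^ p ∈ D.K → a ∈ D.K := by
      intro a ha hap
      refine hst (s + 1) (Nat.le_succ s) ⟨ha, ?_⟩
      rw [pow_succ', pow_mul]
      exact hap.2
    rcases dich hVis hQuo p hPP D N hNc hSer' hNact hNFG htfD with h | ⟨g0, hg0⟩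
    · -- finitely generated
      obtain ⟨r, hr⟩ := hRk p G hPP D.K D.L D.Kn D.Kc D.Ln D.Lc D.KL D.ab h
      obtain ⟨t, ht, ht'⟩ := hr W hWcl
      refine ⟨Finset.univ.image t, ?_, ?_⟩
      · intro g hg
        rw [Finset.coe_image] at hg
        obtain ⟨i, _, rfl⟩ := hg
        exact (ht i).1
      · intro H hH hWH hFH g hg
        refine ht' H hH ?_ (fun i => hFH (by
          rw [Finset.coe_image]
          exact ⟨i, Finset.mem_coe.2 (Finset.mem_univ i), rfl⟩)) ⟨hg, hWL hg⟩
        rintro w ⟨hw1, hw2⟩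
        exact hWH ⟨hw1.1, htfW' s j w hw1 hw2.2⟩
    · exfalso
      refine undec2 p G hPP (m₀ := e) (fun v => SecP (pl e v) j (p ^ s)) (d_LP G e j)
        (d_TP G e j (p ^ s)) v0 g0 hg0 ?_ hdec
      intro C hC hker
      have hNC : ∀ n ∈ N, n ∈ C := fun n hn => hker n (hNact n hn)
      obtain ⟨t, ht, ht'⟩ := hr0 C hC
      refine ⟨r0, t, fun i => (ht i).1, fun H hH hkerH htH => ?_⟩
      have h1 := ht' H hH (fun x hx => hkerH x (hNact x hx.2)) htH
      exact fun x hx => h1 ⟨hx, trivial⟩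
  have main : ∀ i : ℕ, i ≤ c → MaxN (WP F N (c - i)) ∧ ∃ r : ℕ, RkMod (WP F N (c - i)) ⊤ r := by
    intro i
    induction i with
    | zero =>
      intro _
      rw [Nat.sub_zero, hWc]
      exact ⟨hmaxN, r0, hr0⟩
    | succ i ih =>
      intro hi
      obtain ⟨h1, r, hr⟩ := ih (by omega)
      have e : c - i = (c - (i + 1)) + 1 := by omega
      rw [e] at h1 hr
      set j := c - (i + 1) with hj
      have hF := key j h1
      refine ⟨hMax p G hPP hfg (WP F N j) (WP F N (j + 1)) inferInstance (isClosed_WP F hNc j)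
        inferInstance (isClosed_WP F hNc (j + 1)) (WP_le_succ F N j) (WP_comm F hN j) hF h1, ?_⟩
      obtain ⟨s, hs⟩ := hRk p G hPP (WP F N j) (WP F N (j + 1)) inferInstance
        (isClosed_WP F hNc j) inferInstance (isClosed_WP F hNc (j + 1)) (WP_le_succ F N j)
        (WP_comm F hN j) hF
      exact ⟨r + s, hr.comp hs le_top⟩
  obtain ⟨_, r, hr⟩ := main c le_rfl
  rw [Nat.sub_self, WP_zero] at hr
  exact hr.finRank

/-- The virtual version. -/
theorem virtNilBySol (hVis : StmtVis.{u}) (hQuo : StmtQuo.{u}) (hSerS : StmtSer.{u})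
    (hMax : StmtMax.{u}) (hRk : StmtRk.{u}) (hACC : StmtACC.{u}) (hFrat : StmtFrat.{u})
    (hRel : StmtRel.{u}) (hOpen : StmtOpen.{u})
    (p : ℕ) [Fact p.Prime] (G : Type u) [Group G] [TopologicalSpace G]
    [IsTopologicalGroup G] [CompactSpace G] [T2Space G] [TotallyDisconnectedSpace G]
    (hPP : PP p G) (hfg : FGG G) (htf : ∀ (g : G) (n : ℕ), 0 < n → g ^ n = 1 → g = 1)
    (U : Subgroup G) (hU : IsOpen (U : Set G)) (N : Subgroup U) [hNn : N.Normal]
    (hNc : IsClosed (N : Set U)) (hnil : Group.IsNilpotent N) (hsol : Group.IsSolvable (U ⧸ N))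
    (hrk : FinRank (U ⧸ N)) (hdec : DecTh G) : FinRank G := by
  obtain ⟨W, hWn, hWo, hWU, hWd⟩ := hFrat p G hPP hfg U hU
  obtain ⟨h1, h2, h3⟩ := hOpen p G hPP W hWo hWn
  have hWc : IsClosed (W : Set G) := Subgroup.isClosed_of_isOpen W hWo
  have : CompactSpace W := isCompact_iff_compactSpace.1 hWc.isCompact
  obtain ⟨M, hMn, hMc, hMnil, hMSer⟩ := hSerS G U N hU hNc hnil hsol hrk W hWU hWo
  refine h3 (nilBySol hVis hQuo hMax hRk hACC p W h1 (h2 hfg) ?_ M hMc hMnil hMSer
    (hRel G W hWd hdec))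
  intro g n hn hg
  have := htf (g : G) n hn (by rw [← Subgroup.coe_pow, hg]; rfl)
  exact Subtype.ext this

end Pool.Agent.Helper85.ProC
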