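import Pool.Agent.Helper85.ProC.GSys2
import Pool.Agent.Helper85.ProP.GCompl

/-!
Soundness and completeness for the systems with a subgroup `C` of possible times and parameters.
-/

set_option autoImplicit false
set_option linter.unusedSectionVars false

namespace Pool.Agent.Helper85.ProC

open Function Relation Polynomial Pool.Agent.Helper85.ProP

/-- good parameters `l_1, …, l_e, g` and `b`, with times in the subgroup `C` -/
structure GoodPar (p : ℕ) {G : Type*} [Group G] {V : Type*} [AddCommGroup V]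
    (σ : G →* AddMonoid.End V) (C : Subgroup G) (ls : List G) (g : G) (b : V) : Prop where
  gC : g ∈ C
  inv : ∀ v ∈ Nn σ ls, σ g v ∈ Nn σ ls
  pow : ∀ h ∈ C, Yy σ ls h ≤ Yy σ ls g → ¬ Yy σ ls h ≤ Nn σ ls →
    ∃ f, Yy σ ls h = Yy σ ls (g ^ p ^ f) ∧ ∀ n, ∃ a : ℕ, p ^ f ∣ a ∧ ¬ p ^ (f + 1) ∣ a ∧
      ∀ v, σ h v - (σ g ^ a) v ∈ Yy σ ls (g ^ p ^ n)
  strict : ∀ n, ¬ Yy σ ls (g ^ p ^ n) ≤ Yy σ ls (g ^ p ^ (n + 1))
  inf : ∀ n0, ∃ n, n0 ≤ n ∧ ∀ D : ℕ, D ≠ 0 →
    D • b ∉ Rg (∑ i ∈ Finset.range p, σ g ^ (i * p ^ n)) ⊔ Nn σ ls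

lemma I_iff {G : Type*} [Group G] {A1 A2 : Subgroup G} {V : Type*} [AddCommGroup V]
    {π : G → V} {σ : G →* AddMonoid.End V} (M : Model A1 A2 π σ) (C : Subgroup G) (ls : List G)
    (g h : G) : gI (· ∈ A1) (· ∈ A2) (· ∈ C) ls g h ↔
      (h ∈ C ∧ (Yy σ ls h ≤ Yy σ ls g ∧ ¬ Yy σ ls h ≤ Nn σ ls)) := by
  unfold gI
  rw [M.le_iff, M.triv_iff]

/-- finiteness of the set of classes above a given one -/
theorem finite_above {G : Type*} [Group G] {V : Type*} [AddCommGroup V]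
    (σ : G →* AddMonoid.End V) (hsep : Sep σ) (C : Subgroup G) (ls : List G) (g : G)
    (hchain : ∀ h, (h ∈ C ∧ (Yy σ ls h ≤ Yy σ ls g ∧ ¬ Yy σ ls h ≤ Nn σ ls)) →
      ∀ k, (k ∈ C ∧ (Yy σ ls k ≤ Yy σ ls g ∧ ¬ Yy σ ls k ≤ Nn σ ls)) →
      Yy σ ls h ≤ Yy σ ls k ∨ Yy σ ls k ≤ Yy σ ls h)
    (h0 : G) (hh0 : (h0 ∈ C ∧ (Yy σ ls h0 ≤ Yy σ ls g ∧ ¬ Yy σ ls h0 ≤ Nn σ ls))) :
    {z | ∃ k, (k ∈ C ∧ (Yy σ ls k ≤ Yy σ ls g ∧ ¬ Yy σ ls k ≤ Nn σ ls)) ∧
      Yy σ ls k = z ∧ Yy σ ls h0 < z}.Finite := by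
  classical
  set I : G → Prop := fun h => (h ∈ C ∧ (Yy σ ls h ≤ Yy σ ls g ∧
      ¬ Yy σ ls h ≤ Nn σ ls)) with hI
  obtain ⟨y, hy, hyN⟩ : ∃ y ∈ Yy σ ls h0, y ∉ Nn σ ls := by
    by_contra hcon
    push Not at hcon
    exact hh0.2.2 hcon
  obtain ⟨U, hU1, hU2, O, hO, hOU⟩ := hsep ls y hyN
  have hlow : ∀ l ∈ O, l ∈ C → Yy σ ls l ≤ Yy σ ls g →
      Yy σ ls l ≤ Yy σ ls h0 := by
    intro l hl hlc hlg
    have h1 : Yy σ ls l ≤ U := (yy_le_iff σ ls l U hU1).2 (hOU l hl)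
    by_cases hlt : Yy σ ls l ≤ Nn σ ls
    · exact hlt.trans (nn_le_yy σ ls h0)
    · rcases hchain l ⟨hlc, hlg, hlt⟩ h0 hh0 with h2 | h2
      · exact h2
      · exact absurd (h1 (h2 hy)) hU2
  have key : ∀ k l, I k → Yy σ ls h0 < Yy σ ls k → l ∈ O → I (k * l) →
      Yy σ ls k = Yy σ ls (k * l) := by
    intro k l hk hlt hl hkl
    have hlc : l ∈ C := by
      have : l = k⁻¹ * (k * l) := by group
      rw [this]
      exact C.mul_mem (C.inv_mem hk.1) hkl.1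
    have hlg : Yy σ ls l ≤ Yy σ ls g := by
      have : l = k⁻¹ * (k * l) := by group
      rw [this]
      exact (yy_mul σ ls _ _).trans (sup_le ((yy_inv σ ls k).trans hk.2.1) hkl.2.1)
    have hll := hlow l hl hlc hlg
    apply le_antisymm
    · rcases hchain h0 hh0 (k * l) hkl with h1 | h1
      · exact (yy_mul' σ ls k l).trans (sup_le le_rfl (hll.trans h1))
      · have := (yy_mul' σ ls k l).trans (sup_le h1 hll)
        exact absurd hlt (not_lt_of_ge this)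
    · exact (yy_mul σ ls k l).trans (sup_le le_rfl (hll.trans hlt.le))
  -- the classes factor through `G ⧸ O`
  let f : G ⧸ O → AddSubgroup V := fun q =>
    if h : ∃ k, I k ∧ Yy σ ls h0 < Yy σ ls k ∧ (k : G ⧸ O) = q then
      Yy σ ls (Classical.choose h) else ⊥
  refine Set.Finite.subset (Set.finite_range f) ?_
  rintro z ⟨k, hk, rfl, hlt⟩
  refine ⟨(k : G ⧸ O), ?_⟩
  have hex : ∃ k', I k' ∧ Yy σ ls h0 < Yy σ ls k' ∧ (k' : G ⧸ O) = (k : G ⧸ O) :=
    ⟨k, hk, hlt, rfl⟩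
  simp only [f, dif_pos hex]
  obtain ⟨c1, c2, c3⟩ := Classical.choose_spec hex
  set k' := Classical.choose hex
  have hkk : k' = k * (k⁻¹ * k') := by group
  have hO' : k⁻¹ * k' ∈ O := QuotientGroup.eq.1 c3.symm
  rw [hkk]
  exact (key k (k⁻¹ * k') hk hlt hO' (by rw [← hkk]; exact c1)).symm

/-! ### the main completeness theorem -/

theorem gcomplete {p : ℕ} [hp : Fact p.Prime] {G : Type*} [Group G] {A1 A2 C : Subgroup G}
    {V : Type*} [AddCommGroup V] {π : G → V} {σ : G →* AddMonoid.End V}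
    (M : Model A1 A2 π σ) {ls : List G} {g : G} {b : V} (H : GoodPar p σ C ls g b)
    {K : ℕ} {L : List Tr} {q0 qf : ℕ} (hL : ∀ t ∈ L, t.r < K) (hK : 1 ≤ K) (n : ℕ)
    (hrun : ∃ c, ReflTransGen (mstep L) (cinit q0 n) c ∧ c 0 = qf) :
    ∃ (y h0 h1 : G) (x : ℕ → G), ∀ x' : ℕ → G, (∀ j ≤ K, x' j = x j) →
      (sysG (· ∈ A1) (· ∈ A2) (· ∈ C) ls g y h0 h1 x').Good K L q0 qf (g ^ p ^ n) ∧
      (sysG (· ∈ A1) (· ∈ A2) (· ∈ C) ls g y h0 h1 x').Idx n (g ^ p ^ n) := by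
  classical
  obtain ⟨cf, hcf, hcf0⟩ := hrun
  obtain ⟨N, c, hc0, hcN, hstep⟩ := exists_seq hcf
  have hN := H.inv
  set Y : ℕ → AddSubgroup V := fun n => Yy σ ls (g ^ p ^ n) with hY
  have hYlt : ∀ n, Y (n + 1) < Y n := fun n =>
    lt_of_le_not_ge (yn_anti (Nat.le_succ n)) (H.strict n)
  have hYanti : StrictAnti Y := strictAnti_nat_of_succ_lt hYlt
  set I : G → Prop := gI (· ∈ A1) (· ∈ A2) (· ∈ C) ls g with hI
  have hIiff : ∀ h, I h ↔ (h ∈ C ∧ (Yy σ ls h ≤ Yy σ ls g ∧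
      ¬ Yy σ ls h ≤ Nn σ ls)) := fun h => I_iff M C ls g h
  have hex : ∀ h, ∃ f, I h → (Yy σ ls h = Y f ∧ ∀ n, ∃ a : ℕ, p ^ f ∣ a ∧ ¬ p ^ (f + 1) ∣ a ∧
      ∀ v, σ h v - (σ g ^ a) v ∈ Y n) := by
    intro h
    by_cases hh : I h
    · obtain ⟨a1, a2, a3⟩ := (hIiff h).1 hh
      obtain ⟨f, h1, h2⟩ := H.pow h a1 a2 a3
      exact ⟨f, fun _ => ⟨h1, h2⟩⟩
    · exact ⟨0, fun h' => absurd h' hh⟩
  choose ν hν using hex
  have hgI : ∀ n, I (g ^ p ^ n) := by
    intro n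
    rw [hIiff]
    refine ⟨?_, ?_, ?_⟩
    · exact C.pow_mem H.gC _
    · have : Y n ≤ Y 0 := yn_anti (Nat.zero_le n)
      simpa [hY] using this
    · intro h
      exact H.strict n (h.trans (nn_le_yy σ ls _))
  have hgν : ∀ n, ν (g ^ p ^ n) = n := fun n => by
    have := (hν _ (hgI n)).1
    exact (hYanti.injective this).symm
  have hle : ∀ h k, I h → I k → (gLe (· ∈ A1) (· ∈ A2) ls h k ↔ ν k ≤ ν h) := by
    intro h k hh hk
    rw [M.le_iff, (hν h hh).1, (hν k hk).1, hYanti.le_iff_ge]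
  have hsurj : ∀ n, ∃ h, I h ∧ ν h = n := fun n => ⟨_, hgI n, hgν n⟩
  -- (5)
  have hE : ∀ x ∈ A1, ∀ h, I h → (gE (· ∈ A1) (· ∈ A2) (· ∈ C) ls g x h ↔
      ev σ g (Om p (ν h)) (π x) ∈ Y (ν h + 1)) := by
    intro x hx h hh
    obtain ⟨a, ha1, ha2, ha3⟩ := (hν h hh).2 (ν h + 1)
    rw [← pow_iff hN (ν h) a ha1 ha2]
    have e : (σ h (π x) - π x ∈ Y (ν h + 1)) ↔ ((σ g ^ a) (π x) - π x ∈ Y (ν h + 1)) := by
      have h1 := ha3 (π x)
      constructor
      · intro h2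
        have : (σ g ^ a) (π x) - π x = (σ h (π x) - π x) - (σ h (π x) - (σ g ^ a) (π x)) := by
          abel
        rw [this]; exact AddSubgroup.sub_mem _ h2 h1
      · intro h2
        have : σ h (π x) - π x = (σ h (π x) - (σ g ^ a) (π x)) + ((σ g ^ a) (π x) - π x) := by
          abel
        rw [this]; exact AddSubgroup.add_mem _ h1 h2
    refine Iff.trans ?_ e
    unfold gE
    constructor
    · rintro ⟨k, hk1, hk2⟩
      have hkI : I k := hk1.2.1
      have := (Sys.succ_iff (sys0 (· ∈ A1) (· ∈ A2) (· ∈ C) ls g) ν hsurj hle h k hh hkI).1 hk1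
      rw [M.F_iff ls h k hx, (hν k hkI).1, this] at hk2
      exact hk2
    · intro h2
      refine ⟨g ^ p ^ (ν h + 1), ?_, ?_⟩
      · rw [Sys.succ_iff (sys0 (· ∈ A1) (· ∈ A2) (· ∈ C) ls g) ν hsurj hle h _ hh (hgI _)]
        exact hgν _
      · rw [M.F_iff ls h _ hx]
        exact h2
  -- good times
  set Gd : ℕ → Prop := fun n => ∀ D : ℕ, D ≠ 0 → D • b ∉ Rg (ev σ g (Ps p n)) ⊔ Nn σ ls with hGd
  have hGinf : ({n | Gd n} : Set ℕ).Infinite := by
    refine Set.infinite_of_not_bddAbove ?_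
    rintro ⟨B, hB⟩
    obtain ⟨n, hn, hn'⟩ := H.inf (B + 1)
    have : n ≤ B := hB (show n ∈ {n | Gd n} from by
      intro D hD
      rw [ev_ps]
      exact hn' D hD)
    omega
  set t0 : ℕ := ∑ t ∈ Finset.range (N + 1), ∑ j ∈ Finset.range (K + 1), c t j with ht0
  set τ : ℕ → ℕ := fun t => Nat.nth Gd (t0 + t) with hτ
  have hnth : StrictMono (Nat.nth Gd) := Nat.nth_strictMono hGinf
  have hτm : StrictMono τ := fun a b hab => hnth (by omega)
  have hτG : ∀ t, Gd (τ t) := fun t => Nat.nth_mem_of_infinite hGinf _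
  have hτle : ∀ t ≤ N, ∀ j ≤ K, c t j ≤ τ t := by
    intro t ht j hj
    have h1 : c t j ≤ ∑ j ∈ Finset.range (K + 1), c t j :=
      Finset.single_le_sum (f := fun j => c t j) (fun _ _ => Nat.zero_le _)
        (Finset.mem_range.2 (by omega))
    have h2 : ∑ j ∈ Finset.range (K + 1), c t j ≤ t0 :=
      Finset.single_le_sum (f := fun t => ∑ j ∈ Finset.range (K + 1), c t j)
        (fun _ _ => Nat.zero_le _) (Finset.mem_range.2 (by omega))
    have h3 : t0 + t ≤ Nat.nth Gd (t0 + t) := hnth.le_apply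
    show c t j ≤ Nat.nth Gd (t0 + t)
    omega
  have hτcount : ∀ t, Nat.count Gd (τ t) = t0 + t := fun t => Nat.count_nth_of_infinite hGinf _
  have hτsurj : ∀ n, Gd n → τ 0 ≤ n → n ≤ τ N → ∃ t ≤ N, n = τ t := by
    intro n hn h1 h2
    have h3 := Nat.nth_count hn
    have h4 : t0 ≤ Nat.count Gd n := by
      have := Nat.count_monotone Gd h1
      rw [hτcount 0] at this
      omega
    have h5 : Nat.count Gd n ≤ t0 + N := by
      have := Nat.count_monotone Gd h2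
      rwa [hτcount N] at this
    refine ⟨Nat.count Gd n - t0, by omega, ?_⟩
    show n = Nat.nth Gd (t0 + (Nat.count Gd n - t0))
    rw [show t0 + (Nat.count Gd n - t0) = Nat.count Gd n by omega, h3]
  -- the multiplier
  have hDex : ∀ n, ∃ D : ℕ, D ≠ 0 ∧ (¬ Gd n → D • b ∈ Rg (ev σ g (Ps p n)) ⊔ Nn σ ls) := by
    intro n
    by_cases hn : Gd n
    · exact ⟨1, one_ne_zero, fun h => absurd hn h⟩
    · simp only [hGd] at hn
      push Not at hn
      obtain ⟨D, hD, hD'⟩ := hn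
      exact ⟨D, hD, fun _ => hD'⟩
  choose Dn hDn0 hDn using hDex
  set D : ℕ := p ^ (N + 1) * ∏ n ∈ Finset.range (τ N + 1), Dn n with hD
  have hD0 : D ≠ 0 := Nat.mul_ne_zero (pow_ne_zero _ hp.out.ne_zero)
    (Finset.prod_ne_zero_iff.2 fun n _ => hDn0 n)
  have hDbad : ∀ n ≤ τ N, ¬ Gd n → D • b ∈ Rg (ev σ g (Ps p n)) ⊔ Nn σ ls := by
    intro n hn hbad
    have h1 : Dn n ∣ D := (Finset.dvd_prod_of_mem Dn (Finset.mem_range.2 (by omega))).mul_left _
    obtain ⟨q, hq⟩ := h1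
    rw [hq, mul_comm, mul_smul]
    exact AddSubgroup.nsmul_mem _ (hDn n hbad) q
  -- the polynomials
  set F : Finset ℕ := (Finset.range (N + 1)).image τ with hF
  have hFc : F.card = N + 1 := by
    rw [hF, Finset.card_image_of_injective _ hτm.injective, Finset.card_range]
  have hpD : p ^ F.card ∣ D := by rw [hFc]; exact Dvd.intro _ rfl
  have hlam : ∀ j, ∃ w : ℤ[X], ∀ t ≤ N, Ps p (τ t) ∣ w - (D : ℤ[X]) * X ^ p ^ c t j := by
    intro j
    obtain ⟨w, hw⟩ := ps_crt (p := p) F D hpD (fun n => X ^ p ^ c (Nat.count Gd n - t0) j)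
    refine ⟨w, fun t ht => ?_⟩
    have := hw (τ t) (Finset.mem_image_of_mem _ (Finset.mem_range.2 (by omega)))
    rwa [hτcount, Nat.add_sub_cancel_left] at this
  choose lam hlam using hlam
  obtain ⟨y, hyA, hy⟩ := M.surj (D • b)
  have hx : ∀ j, ∃ x ∈ A1, π x = ev σ g (lam j) b := fun j => M.surj _
  choose x hxA hxπ using hx
  refine ⟨y, g ^ p ^ τ 0, g ^ p ^ τ N, x, fun x' hx' => ?_⟩
  set S : Sys G := sysG (· ∈ A1) (· ∈ A2) (· ∈ C) ls g y (g ^ p ^ τ 0) (g ^ p ^ τ N) x' with hS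
  have hEy : ∀ h, I h → ν h ≤ τ N → (gE (· ∈ A1) (· ∈ A2) (· ∈ C) ls g y h ↔ ¬ Gd (ν h)) := by
    intro h hh hle'
    rw [hE y hyA h hh, hy]
    constructor
    · intro h1 h2
      have h3 : ev σ g (Om p (ν h) * (D : ℤ[X])) b ∈ Yy σ ls (g ^ p ^ (ν h + 1)) := by
        rw [ev_mul, ev_natCast]; exact h1
      have h4 := key_dvd hN (ν h) h2 _ h3
      refine ps_not_dvd_C (p := p) (ν h) (D := (D : ℤ)) (by exact_mod_cast hD0) ?_
      simpa using h4
    · intro h1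
      have h2 := hDbad (ν h) hle' h1
      obtain ⟨_, ⟨w, rfl⟩, z, hz, he⟩ := AddSubgroup.mem_sup.1 h2
      rw [← he, map_add]
      show _ ∈ Yy σ ls (g ^ p ^ (ν h + 1))
      refine AddSubgroup.add_mem _ ?_ (nn_le_yy σ ls _ (ev_mem _ hN _ hz))
      rw [yn_eq]
      refine AddSubgroup.mem_sup_left ⟨w, ?_⟩
      change ev σ g (Om p (ν h + 1)) w = ev σ g (Om p (ν h)) (ev σ g (Ps p (ν h)) w)
      rw [← ev_mul, om_mul_ps]
  have hT : ∀ h, S.T h ↔ S.I h ∧ ∃ t ≤ N, ν h = τ t := by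
    intro h
    show (I h ∧ (gLe _ _ ls h (g ^ p ^ τ 0) ∧ (gLe _ _ ls (g ^ p ^ τ N) h ∧
      ¬ gE _ _ _ ls g y h))) ↔ (I h ∧ ∃ t ≤ N, ν h = τ t)
    constructor
    · rintro ⟨hh, h1, h2, h3⟩
      rw [hle _ _ hh (hgI _), hgν] at h1
      rw [hle _ _ (hgI _) hh, hgν] at h2
      rw [hEy h hh h2, not_not] at h3
      exact ⟨hh, hτsurj _ h3 h1 h2⟩
    · rintro ⟨hh, t, ht, hht⟩
      have h2 : ν h ≤ τ N := by rw [hht]; exact hτm.monotone ht
      refine ⟨hh, ?_, ?_, ?_⟩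
      · rw [hle _ _ hh (hgI _), hgν, hht]; exact hτm.monotone (Nat.zero_le _)
      · rw [hle _ _ (hgI _) hh, hgν]; exact h2
      · rw [hEy h hh h2, not_not, hht]; exact hτG t
  have hRel : ∀ j ≤ K, ∀ t ≤ N, ∀ h k, S.I h → S.I k → ν h = τ t →
      (S.Rel j h k ↔ ν k = c t j) := by
    intro j hj t ht h k hh hk hht
    have hmemA : ∀ k' : G, x j * (k' * y * k'⁻¹)⁻¹ ∈ A1 := fun k' =>
      A1.mul_mem (hxA j) (A1.inv_mem (M.conj1 k' y hyA))
    have hπ : ∀ k' : G, π (x j * (k' * y * k'⁻¹)⁻¹) = ev σ g (lam j) b - σ k' (D • b) := by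
      intro k'
      rw [M.mul _ (hxA j) _ (A1.inv_mem (M.conj1 k' y hyA)), M.inv (M.conj1 k' y hyA),
        M.act k' y hyA, hy, hxπ, sub_eq_add_neg]
    show (∃ k', I k' ∧ ((gLe _ _ ls k k' ∧ gLe _ _ ls k' k) ∧
      gE _ _ _ ls g (x' j * (k' * y * k'⁻¹)⁻¹) h)) ↔ ν k = c t j
    rw [hx' j hj]
    constructor
    · rintro ⟨k', hk', ⟨hkk1, hkk2⟩, hEE⟩
      rw [hle _ _ hk hk'] at hkk1
      rw [hle _ _ hk' hk] at hkk2
      have hkk : ν k = ν k' := le_antisymm hkk2 hkk1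
      rw [hE _ (hmemA k') h hh, hπ, hht] at hEE
      obtain ⟨a, ha1, ha2, ha3⟩ := (hν k' hk').2 (τ t + 1)
      have h5 : ev σ g (Om p (τ t) * (lam j - (D : ℤ[X]) * X ^ a)) b
          ∈ Yy σ ls (g ^ p ^ (τ t + 1)) := by
        have e : ev σ g (Om p (τ t) * (lam j - (D : ℤ[X]) * X ^ a)) b
            = ev σ g (Om p (τ t)) (ev σ g (lam j) b - σ k' (D • b)) +
              ev σ g (Om p (τ t)) (σ k' (D • b) - (σ g ^ a) (D • b)) := by
          rw [ev_mul, ← map_add, ev_sub]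
          congr 1
          rw [mul_comm (D : ℤ[X]), ev_mul, ev_natCast, ev_X_pow]
          abel
        rw [e]
        exact AddSubgroup.add_mem _ hEE (ev_mem _ (yn_inv hN _) _ (ha3 _))
      have h6 := key_dvd hN (τ t) (hτG t) _ h5
      have h7 : Ps p (τ t) ∣ Polynomial.C (D : ℤ) * (X ^ p ^ c t j - X ^ a) := by
        have e : Polynomial.C (D : ℤ) * ((X : ℤ[X]) ^ p ^ c t j - X ^ a) =
            (lam j - (D : ℤ[X]) * X ^ a) - (lam j - (D : ℤ[X]) * X ^ p ^ c t j) := by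
          simp only [map_natCast]
          ring
        rw [e]
        exact dvd_sub h6 (hlam j t ht)
      have h8 := ps_dvd_pow_sub_pow (τ t) _ _
        (ps_dvd_of_dvd_C_mul (τ t) (by exact_mod_cast hD0) _ h7)
      have hcle := hτle t ht j hj
      have h9 : p ^ c t j ∣ a := by
        have h10 : p ^ c t j ∣ p ^ (τ t + 1) := pow_dvd_pow p (by omega)
        exact ((h8.dvd_iff h10).1 dvd_rfl)
      have h11 : ¬ p ^ (c t j + 1) ∣ a := by
        intro h12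
        have h10 : p ^ (c t j + 1) ∣ p ^ (τ t + 1) := pow_dvd_pow p (by omega)
        have h13 : p ^ (c t j + 1) ∣ p ^ c t j := (h8.dvd_iff h10).2 h12
        have := (Nat.pow_dvd_pow_iff_le_right hp.out.one_lt).1 h13
        omega
      rw [hkk]
      rcases Nat.lt_trichotomy (ν k') (c t j) with h12 | h12 | h12
      · exact absurd ((pow_dvd_pow p h12).trans h9) ha2
      · exact h12
      · exact absurd ((pow_dvd_pow p h12).trans ha1) h11
    · intro hk'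
      refine ⟨g ^ p ^ c t j, hgI _, ⟨?_, ?_⟩, ?_⟩
      · rw [hle _ _ hk (hgI _), hgν, hk']
      · rw [hle _ _ (hgI _) hk, hgν, hk']
      · rw [hE _ (hmemA _) h hh, hπ, hht]
        have e : ev σ g (lam j) b - σ (g ^ p ^ c t j) (D • b) =
            ev σ g (lam j - (D : ℤ[X]) * X ^ p ^ c t j) b := by
          rw [ev_sub, mul_comm (D : ℤ[X]), ev_mul, ev_natCast, ev_X_pow, map_pow]
        rw [e, ← ev_mul]
        show _ ∈ Yy σ ls (g ^ p ^ (τ t + 1))
        obtain ⟨q, hq⟩ := hlam j t ht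
        rw [hq, ← mul_assoc, om_mul_ps, ev_mul, yn_eq]
        exact AddSubgroup.mem_sup_left ⟨_, rfl⟩
  refine ⟨?_, ?_⟩
  · exact Sys.complete S ν hsurj hle τ hτm N hT c hRel hL hK hc0 hstep (by rw [hcN, hcf0])
      (hgI n) (hgν n)
  · exact (Sys.idx_iff S ν hsurj hle n _ (hgI n)).2 (hgν n)

/-! ### the engine -/

/-- The general undecidability theorem, with parameters. -/
theorem engine.{u, w} {p : ℕ} [hp : Fact p.Prime] {G : Type u} [Group G] {m₀ : ℕ}
    (A1 A2 C : (ℕ → G) → Subgroup G)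
    (hA1 : D1 m₀ (fun v => (· ∈ A1 v))) (hA2 : D1 m₀ (fun v => (· ∈ A2 v)))
    (hC : D1 m₀ (fun v => (· ∈ C v)))
    (hmod : ∀ v, ∃ (V : Type w) (_ : AddCommGroup V) (π : G → V) (σ : G →* AddMonoid.End V),
      Model (A1 v) (A2 v) π σ ∧ Sep σ)
    (v0 : ℕ → G) {V : Type*} [AddCommGroup V] {π : G → V} {σ : G →* AddMonoid.End V}
    (M : Model (A1 v0) (A2 v0) π σ) {ls : List G} {g : G} {b : V}
    (H : GoodPar p σ (C v0) ls g b) : ¬ DecTh G := by
  obtain ⟨St, hSt, K, L, q0, qf, hK, hL, hmach⟩ := Mach.exists_machine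
  -- parameters: `v0`, `g, y, h0, h1`, `x_0, …, x_K`, `l_1, …, l_e`
  set e := ls.length with he
  set m := m₀ + (5 + K + e) with hm
  set is : List ℕ := (List.range e).map (fun i => m₀ + (5 + K + i)) with his
  have hism : ∀ i ∈ is, i < m := by
    intro i hi
    simp only [his, List.mem_map, List.mem_range] at hi
    obtain ⟨j, hj, rfl⟩ := hi
    omega
  have HS := d_sysG hA1 hA2 (m := m) (by omega) hism hC (ig := m₀) (by omega)
    (iy := m₀ + 1) (i0 := m₀ + 2) (i1 := m₀ + 3)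
    (by omega) (by omega) (by omega) (fun j => m₀ + (4 + min j K)) (fun j => by omega)
  refine undec_of_sys HS St hSt K L q0 qf ?_ ?_
  · intro v Z n hG hZ
    rw [hmach]
    obtain ⟨V', i1, π', σ', M', hsep⟩ := hmod v
    refine Sys.sound (sysG (· ∈ A1 v) (· ∈ A2 v) (· ∈ C v) (is.map v) (v m₀) (v (m₀ + 1))
        (v (m₀ + 2)) (v (m₀ + 3))
        (fun j => v (m₀ + (4 + min j K)))) (Yy σ' (is.map v)) (fun h k => M'.le_iff _ h k)
      (fun h hh => hh.1) ?_ hL hK hZ hG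
    intro hchain h hh
    have hh' := (I_iff M' (C v) (is.map v) (v m₀) h).1 hh
    refine (finite_above σ' hsep (C v) (is.map v) (v m₀) ?_ h hh').subset ?_
    · intro a ha c hc
      have := hchain a ((I_iff M' _ _ _ _).2 ha) c ((I_iff M' _ _ _ _).2 hc)
      rwa [show (sysG (· ∈ A1 v) (· ∈ A2 v) (· ∈ C v) (is.map v) (v m₀) (v (m₀ + 1))
        (v (m₀ + 2)) (v (m₀ + 3)) (fun j => v (m₀ + (4 + min j K)))).le =
          gLe (· ∈ A1 v) (· ∈ A2 v) (is.map v) from rfl,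
        M'.le_iff, M'.le_iff] at this
    · rintro z ⟨k, hk, rfl, hlt⟩
      exact ⟨k, (I_iff M' _ _ _ _).1 hk, rfl, hlt⟩
  · intro n hn
    obtain ⟨y, h0, h1, x, hgood⟩ := gcomplete M H hL hK n ((hmach n).1 hn)
    -- the assignment
    set v : ℕ → G := fun i =>
      if i < m₀ then v0 i else
      if i = m₀ then g else if i = m₀ + 1 then y else if i = m₀ + 2 then h0 else
      if i = m₀ + 3 then h1 else
      if i ≤ m₀ + (4 + K) then x (i - (m₀ + 4)) else ls.getD (i - (m₀ + (5 + K))) 1 with hv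
    have hv' : ∀ i < m₀, v i = v0 i := by
      intro i hi
      simp only [hv, if_pos hi]
    have hisv : is.map v = ls := by
      apply List.ext_getElem
      · simp [his, he]
      · intro i h1 h2
        simp only [his, List.map_map, List.getElem_map, List.getElem_range, Function.comp]
        simp only [hv]
        rw [if_neg (by omega), if_neg (by omega), if_neg (by omega), if_neg (by omega),
          if_neg (by omega), if_neg (by omega), Nat.add_sub_add_left, Nat.add_sub_cancel_left,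
          List.getD_eq_getElem _ _ h2]
    have hvg : v m₀ = g := by simp [hv]
    have hv1 : v (m₀ + 1) = y := by simp [hv]
    have hv2 : v (m₀ + 2) = h0 := by simp [hv]
    have hv3 : v (m₀ + 3) = h1 := by simp [hv]
    have hvx : ∀ j ≤ K, v (m₀ + (4 + min j K)) = x j := by
      intro j hj
      simp only [hv]
      rw [if_neg (by omega), if_neg (by omega), if_neg (by omega), if_neg (by omega),
        if_neg (by omega), if_pos (by omega)]
      congr 1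
      omega
    have hfin := hgood (fun j => v (m₀ + (4 + min j K))) hvx
    have e1 := D1.congr hA1 hv'
    have e2 := D1.congr hA2 hv'
    have e3 := D1.congr hC hv'
    refine ⟨v, g ^ p ^ n, ?_⟩
    show (sysG (· ∈ A1 v) (· ∈ A2 v) (· ∈ C v) (is.map v) (v m₀) (v (m₀ + 1)) (v (m₀ + 2))
        (v (m₀ + 3)) (fun j => v (m₀ + (4 + min j K)))).Good K L q0 qf (g ^ p ^ n) ∧
      (sysG (· ∈ A1 v) (· ∈ A2 v) (· ∈ C v) (is.map v) (v m₀) (v (m₀ + 1)) (v (m₀ + 2))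
        (v (m₀ + 3)) (fun j => v (m₀ + (4 + min j K)))).Idx n (g ^ p ^ n)
    rw [e1, e2, e3, hisv, hvg, hv1, hv2, hv3]
    exact hfin

/-! ### the bicentralizer -/

section biC

variable {G : Type*} [Group G]

/-- the elements which commute modulo the kernel of the action on `A₁ / A₂` with all `x` such that
`x` and `g0` commute modulo this kernel -/
def biC (A1 A2 : G → Prop) (g0 h : G) : Prop :=
  ∀ x, (∀ a, A1 a → A2 (cm (cm x g0) a)) → ∀ a, A1 a → A2 (cm (cm h x) a)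

lemma d_biC {m₀ : ℕ} {A1 A2 : (ℕ → G) → G → Prop} (hA1 : D1 m₀ A1) (hA2 : D1 m₀ A2) {m : ℕ}
    (hm : m₀ ≤ m) {i0 : ℕ} (hi : i0 < m) : D1 m (fun v => biC (A1 v) (A2 v) (v i0)) := by
  refine ⟨fun v n z hn => ?_, fun n hn s hs => ?_⟩
  · simp only [hA1.dep v n z (hm.trans hn), hA2.dep v n z (hm.trans hn)]
    rw [update_of_ne (by omega)]
  · have hn1 : m ≤ n + 1 := by omega
    have hn2 : m ≤ n + 1 + 1 := by omega
    refine DF.all (R := fun v x => (∀ a, A1 v a → A2 v (cm (cm x (v i0)) a)) →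
      ∀ a, A1 v a → A2 v (cm (cm (s v) x) a)) ?_ ?_
    · intro v z w
      rw [hs.upd le_rfl, hA1.dep v n z (hm.trans hn), hA2.dep v n z (hm.trans hn),
        update_of_ne (show i0 ≠ n by omega)]
    · refine (DF.all (R := fun v a => A1 v a → A2 v (cm (cm (v n) (v i0)) a)) ?_ ?_).imp
        (DF.all (R := fun v a => A1 v a → A2 v (cm (cm (s v) (v n)) a)) ?_ ?_)
      · intro v z w
        rw [hA1.dep v _ z (hm.trans hn1), hA2.dep v _ z (hm.trans hn1),
          update_of_ne (show i0 ≠ n + 1 by omega), update_of_ne (show n ≠ n + 1 by omega)]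
      · exact (hA1.df _ (hm.trans hn2) _ (TF.last _)).imp (hA2.df _ (hm.trans hn2) _
          (((TF.last n).succ.cm (TF.var (by omega))).cm (TF.last _)))
      · intro v z w
        rw [hA1.dep v _ z (hm.trans hn1), hA2.dep v _ z (hm.trans hn1), hs.upd (Nat.le_succ n),
          update_of_ne (show n ≠ n + 1 by omega)]
      · exact (hA1.df _ (hm.trans hn2) _ (TF.last _)).imp (hA2.df _ (hm.trans hn2) _
          ((hs.succ.succ.cm (TF.last n).succ).cm (TF.last _)))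

end biC

end Pool.Agent.Helper85.ProC
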