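import Pool.Agent.Helper85.ProP.GSys

/-!
The definable system attached to a section `A₁ / A₂` and a set `C` of possible times, all of them
definable with parameters.
-/

set_option autoImplicit false
set_option linter.unusedSectionVars false

namespace Pool.Agent.Helper85.ProC

open Function Pool.Agent.Helper85.ProP

section Sem

variable {G : Type*} [Group G] (A1 A2 C : G → Prop)

/-- the set of times -/
def gI (ls : List G) (g h : G) : Prop := C h ∧ (gLe A1 A2 ls h g ∧ ¬ gTriv A1 A2 ls h)

/-- the preorder of times -/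
def sys0 (ls : List G) (g : G) : Sys G where
  I := gI A1 A2 C ls g
  le := gLe A1 A2 ls
  T := fun _ => False
  Rel := fun _ _ _ => False

/-- `[h, x] ∈ [k, A₁] N` for an immediate successor `k` of `h` -/
def gE (ls : List G) (g x h : G) : Prop :=
  ∃ k, (sys0 A1 A2 C ls g).Succ h k ∧ gF A1 A2 ls h x k

/-- the system given by the parameters -/
def sysG (ls : List G) (g y h0 h1 : G) (x : ℕ → G) : Sys G where
  I := gI A1 A2 C ls g
  le := gLe A1 A2 ls
  T := fun h => gI A1 A2 C ls g h ∧ (gLe A1 A2 ls h h0 ∧ (gLe A1 A2 ls h1 h ∧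
    ¬ gE A1 A2 C ls g y h))
  Rel := fun j h k => ∃ k', gI A1 A2 C ls g k' ∧ ((gLe A1 A2 ls k k' ∧ gLe A1 A2 ls k' k) ∧
    gE A1 A2 C ls g (x j * (k' * y * k'⁻¹)⁻¹) h)

end Sem

lemma D1.congr {G : Type*} [Group G] {m : ℕ} {P : (ℕ → G) → G → Prop} (H : D1 m P)
    {v w : ℕ → G} (h : ∀ i < m, v i = w i) : P v = P w := by
  funext z
  have h1 := H.df (m + 1) (Nat.le_succ m) _ (TF.last m)
  have h2 := h1.congr (v := update v m z) (w := update w m z) (fun i hi => by
    by_cases him : i = m
    · subst him; simp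
    · rw [update_of_ne him, update_of_ne him]
      exact h i (by omega))
  rw [update_self, update_self, H.dep v m z le_rfl, H.dep w m z le_rfl] at h2
  exact propext h2

section Def

variable {G : Type*} [Group G] {m₀ : ℕ} {A1 A2 C : (ℕ → G) → G → Prop}

variable (hA1 : D1 m₀ A1) (hA2 : D1 m₀ A2) {m : ℕ} (hm : m₀ ≤ m)

include hA1 hA2 hm

variable {is : List ℕ} (his : ∀ i ∈ is, i < m)

include his

omit hA1 hA2 hm in
lemma map_upd (v : ℕ → G) (n : ℕ) (z : G) (hn : m ≤ n) : is.map (update v n z) = is.map v := by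
  apply List.map_congr_left
  intro i hi
  exact update_of_ne (by have := his i hi; omega) _ _

lemma d_inN : D1 m (fun v => inN (A1 v) (A2 v) (is.map v)) := by
  induction is with
  | nil => exact ⟨fun v n z hn => by
      simp only [List.map_nil, inN]
      funext x
      rw [hA2.dep v n z (hm.trans hn)], fun n hn s hs => hA2.df n (hm.trans hn) s hs⟩
  | cons i is ih =>
    have ih' := ih (fun j hj => his j (List.mem_cons_of_mem _ hj))
    have hi : i < m := his i List.mem_cons_self
    refine ⟨fun v n z hn => ?_, fun n hn s hs => ?_⟩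
    · have h1 := ih'.dep v n z hn
      have h2 : update v n z i = v i := update_of_ne (by omega) _ _
      have h3 := hA1.dep v n z (hm.trans hn)
      try simp only at h1
      rw [h3] at h1
      funext x
      simp only [List.map_cons, inN, h2, h3]
      rw [h1]
    · have hn1 : m ≤ n + 1 := by omega
      simp only [List.map_cons, inN]
      refine DF.ex (R := fun v a => A1 v a ∧ inN (A1 v) (A2 v) (is.map v) ((cm (v i) a)⁻¹ * s v))
        ?_ ?_
      · intro v z w
        have h1 := ih'.dep v n z hn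
        have h2 : update v n z i = v i := update_of_ne (by omega) _ _
        try simp only at h1
        rw [h1, h2, hs.upd le_rfl, hA1.dep v n z (hm.trans hn)]
      · exact (hA1.df _ (hm.trans hn1) _ (TF.last n)).and (ih'.df _ hn1 _
          (((TF.var (by omega)).cm (TF.last n)).inv.mul hs.succ))

lemma d_le : D2 m (fun v => gLe (A1 v) (A2 v) (is.map v)) := by
  have hN := d_inN hA1 hA2 hm his
  refine ⟨fun v n z hn => ?_, fun n hn s t hs ht => ?_⟩
  · simp only [map_upd his v n z hn, hA1.dep v n z (hm.trans hn), hA2.dep v n z (hm.trans hn)]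
  · have hn1 : m ≤ n + 1 := by omega
    have hn2 : m ≤ n + 1 + 1 := by omega
    refine DF.all (R := fun v a => A1 v a → ∃ b, A1 v b ∧
      inN (A1 v) (A2 v) (is.map v) (cm (s v) a * (cm (t v) b)⁻¹)) ?_ ?_
    · intro v z w
      rw [map_upd his v n z hn, hs.upd le_rfl, ht.upd le_rfl, hA1.dep v n z (hm.trans hn),
        hA2.dep v n z (hm.trans hn)]
    · refine (hA1.df _ (hm.trans hn1) _ (TF.last n)).imp (DF.ex (R := fun v b => A1 v b ∧
        inN (A1 v) (A2 v) (is.map v) (cm (s v) (v n) * (cm (t v) b)⁻¹)) ?_ ?_)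
      · intro v z w
        rw [map_upd his v _ z hn1, hs.upd (Nat.le_succ n), ht.upd (Nat.le_succ n),
          update_of_ne (by omega), hA1.dep v _ z (hm.trans hn1), hA2.dep v _ z (hm.trans hn1)]
      · exact (hA1.df _ (hm.trans hn2) _ (TF.last _)).and (hN.df _ hn2 _
          ((hs.succ.succ.cm (TF.last n).succ).mul (ht.succ.succ.cm (TF.last _)).inv))

lemma d_triv : D1 m (fun v => gTriv (A1 v) (A2 v) (is.map v)) := by
  have hN := d_inN hA1 hA2 hm his
  refine ⟨fun v n z hn => ?_, fun n hn s hs => ?_⟩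
  · simp only [map_upd his v n z hn, hA1.dep v n z (hm.trans hn), hA2.dep v n z (hm.trans hn)]
  · have hn1 : m ≤ n + 1 := by omega
    refine DF.all (R := fun v a => A1 v a → inN (A1 v) (A2 v) (is.map v) (cm (s v) a)) ?_ ?_
    · intro v z w
      rw [map_upd his v n z hn, hs.upd le_rfl, hA1.dep v n z (hm.trans hn),
        hA2.dep v n z (hm.trans hn)]
    · exact (hA1.df _ (hm.trans hn1) _ (TF.last n)).imp (hN.df _ hn1 _
          (hs.succ.cm (TF.last n)))

lemma d_F : D3 m (fun v => gF (A1 v) (A2 v) (is.map v)) := by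
  have hN := d_inN hA1 hA2 hm his
  refine ⟨fun v n z hn => ?_, fun n hn s t r hs ht hr => ?_⟩
  · simp only [map_upd his v n z hn, hA1.dep v n z (hm.trans hn), hA2.dep v n z (hm.trans hn)]
  · have hn1 : m ≤ n + 1 := by omega
    refine DF.ex (R := fun v b => A1 v b ∧
      inN (A1 v) (A2 v) (is.map v) (cm (s v) (t v) * (cm (r v) b)⁻¹)) ?_ ?_
    · intro v z w
      rw [map_upd his v n z hn, hs.upd le_rfl, ht.upd le_rfl, hr.upd le_rfl,
        hA1.dep v n z (hm.trans hn), hA2.dep v n z (hm.trans hn)]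
    · exact (hA1.df _ (hm.trans hn1) _ (TF.last n)).and (hN.df _ hn1 _
        ((hs.succ.cm ht.succ).mul (hr.succ.cm (TF.last _)).inv))

variable (hC : D1 m₀ C) {ig : ℕ} (hig : ig < m)

include hC hig

lemma d_I : D1 m (fun v => gI (A1 v) (A2 v) (C v) (is.map v) (v ig)) := by
  have hL := d_le hA1 hA2 hm his
  have hT := d_triv hA1 hA2 hm his
  refine ⟨fun v n z hn => ?_, fun n hn s hs => ?_⟩
  · simp only [map_upd his v n z hn, hA1.dep v n z (hm.trans hn), hA2.dep v n z (hm.trans hn),
      hC.dep v n z (hm.trans hn)]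
    rw [update_of_ne (by omega)]
  · exact (hC.df _ (hm.trans hn) _ hs).and
      ((hL.df _ hn _ _ hs (TF.var (by omega))).and (hT.df _ hn _ hs).not)

lemma d_sys0 : DSys m (fun v => sys0 (A1 v) (A2 v) (C v) (is.map v) (v ig)) where
  I := d_I hA1 hA2 hm his hC hig
  le := d_le hA1 hA2 hm his
  T := ⟨fun _ _ _ _ => rfl, fun _ _ _ _ => DF.false⟩
  Rel _ := ⟨fun _ _ _ _ => rfl, fun _ _ _ _ _ _ => DF.false⟩

lemma d_E : D2 m (fun v => gE (A1 v) (A2 v) (C v) (is.map v) (v ig)) := by
  have hS := (d_sys0 hA1 hA2 hm his hC hig).succ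
  have hF := d_F hA1 hA2 hm his
  have hupd : ∀ (v : ℕ → G) (n : ℕ) (z : G), m ≤ n → gE (A1 (update v n z)) (A2 (update v n z))
      (C (update v n z)) (is.map (update v n z))
      (update v n z ig) = gE (A1 v) (A2 v) (C v) (is.map v) (v ig) := by
    intro v n z hn
    rw [map_upd his v n z hn, update_of_ne (by omega), hA1.dep v n z (hm.trans hn),
      hA2.dep v n z (hm.trans hn), hC.dep v n z (hm.trans hn)]
  refine ⟨fun v n z hn => hupd v n z hn, fun n hn s t hs ht => ?_⟩
  have hn1 : m ≤ n + 1 := by omega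
  refine DF.ex (R := fun v k => (sys0 (A1 v) (A2 v) (C v) (is.map v) (v ig)).Succ (t v) k ∧
    gF (A1 v) (A2 v) (is.map v) (t v) (s v) k) ?_ ?_
  · intro v z w
    rw [map_upd his v n z hn, hs.upd le_rfl, ht.upd le_rfl, update_of_ne (by omega),
      hA1.dep v n z (hm.trans hn), hA2.dep v n z (hm.trans hn), hC.dep v n z (hm.trans hn)]
  · exact (hS.df _ hn1 _ _ ht.succ (TF.last n)).and (hF.df _ hn1 _ _ _ ht.succ hs.succ
      (TF.last n))

/-- the family of systems is definable -/
theorem d_sysG {iy i0 i1 : ℕ} (hiy : iy < m) (hi0 : i0 < m) (hi1 : i1 < m) (ix : ℕ → ℕ)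
    (hix : ∀ j, ix j < m) :
    DSys m (fun v : ℕ → G => sysG (A1 v) (A2 v) (C v) (is.map v) (v ig) (v iy) (v i0) (v i1)
      (fun j => v (ix j))) where
  I := d_I hA1 hA2 hm his hC hig
  le := d_le hA1 hA2 hm his
  T := by
    have hI := d_I hA1 hA2 hm his hC hig
    have hL := d_le hA1 hA2 hm his
    have hE := d_E hA1 hA2 hm his hC hig
    refine ⟨fun v n z hn => ?_, fun n hn s hs => ?_⟩
    · simp only [sysG]
      rw [map_upd his v n z hn, update_of_ne (by omega), update_of_ne (by omega),
        update_of_ne (by omega), update_of_ne (by omega), hA1.dep v n z (hm.trans hn),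
        hA2.dep v n z (hm.trans hn), hC.dep v n z (hm.trans hn)]
    · exact (hI.df _ hn _ hs).and ((hL.df _ hn _ _ hs (TF.var (by omega))).and
        ((hL.df _ hn _ _ (TF.var (by omega)) hs).and
          (hE.df _ hn _ _ (TF.var (by omega)) hs).not))
  Rel j := by
    have hI := d_I hA1 hA2 hm his hC hig
    have hL := d_le hA1 hA2 hm his
    have hE := d_E hA1 hA2 hm his hC hig
    have hj := hix j
    refine ⟨fun v n z hn => ?_, fun n hn s t hs ht => ?_⟩
    · simp only [sysG]
      rw [map_upd his v n z hn, update_of_ne (show ig ≠ n by omega),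
        update_of_ne (show iy ≠ n by omega), update_of_ne (show ix j ≠ n by omega),
        hA1.dep v n z (hm.trans hn), hA2.dep v n z (hm.trans hn), hC.dep v n z (hm.trans hn)]
    · have hn1 : m ≤ n + 1 := by omega
      refine DF.ex (R := fun v k' => gI (A1 v) (A2 v) (C v) (is.map v) (v ig) k' ∧
        ((gLe (A1 v) (A2 v) (is.map v) (t v) k' ∧ gLe (A1 v) (A2 v) (is.map v) k' (t v)) ∧
        gE (A1 v) (A2 v) (C v) (is.map v) (v ig) (v (ix j) * (k' * v iy * k'⁻¹)⁻¹) (s v))) ?_ ?_
      · intro v z w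
        rw [map_upd his v n z hn, hs.upd le_rfl, ht.upd le_rfl,
          update_of_ne (show ig ≠ n by omega),
          update_of_ne (show iy ≠ n by omega), update_of_ne (show ix j ≠ n by omega),
          hA1.dep v n z (hm.trans hn), hA2.dep v n z (hm.trans hn), hC.dep v n z (hm.trans hn)]
      · exact (hI.df _ hn1 _ (TF.last n)).and (((hL.df _ hn1 _ _ ht.succ (TF.last n)).and
          (hL.df _ hn1 _ _ (TF.last n) ht.succ)).and (hE.df _ hn1 _ _
            ((TF.var (by omega)).mul (((TF.last n).mul (TF.var (by omega))).mul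
              (TF.last n).inv).inv) hs.succ))

end Def

end Pool.Agent.Helper85.ProC
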