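import Pool.Agent.Helper85.ProC.Act
import Pool.Agent.Helper85.ProC.Goals

/-!
Statements of building blocks which use the section API.
-/

set_option autoImplicit false

namespace Pool.Agent.Helper85.ProC

open Pool.Agent.Helper85.ProP Pool.Agent.Helper30.ProP IsLocalRing

/-- MOD2: a closed subgroup `C` which acts on the section through an abelian quotient generated by
the images of `t_1, …, t_d` makes the section a module over `ℤ_p[[X_1, …, X_d]]`. -/
def StmtMod2.{u} : Prop :=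
  ∀ (p : ℕ) [Fact p.Prime] (G : Type u) [Group G] [TopologicalSpace G] [IsTopologicalGroup G]
    [CompactSpace G] [T2Space G] [TotallyDisconnectedSpace G], PP p G →
    ∀ (D : Sec G) (C : Subgroup G), IsClosed (C : Set G) →
    (∀ g ∈ C, ∀ h ∈ C, ∀ v, sg D g (sg D h v) = sg D h (sg D g v)) →
    ∀ (d : ℕ) (t : Fin d → G), (∀ i, t i ∈ C) →
    (∀ H : Subgroup G, IsClosed (H : Set G) → (∀ h ∈ C, (∀ v, sg D h v = v) → h ∈ H) →
      (∀ i, t i ∈ H) → C ≤ H) →
    ∃ _ : Module (MvPowerSeries (Fin d) ℤ_[p]) (CC D),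
      (∀ h ∈ C, ∃ q : Fin d → ℤ_[p], ∀ v, sg D h v = rhoS p d q • v) ∧
      (∀ q : Fin d → ℤ_[p], ∃ h ∈ C, ∀ v, sg D h v = rhoS p d q • v) ∧
      (∀ r : MvPowerSeries (Fin d) ℤ_[p], Continuous fun v : CC D => r • v) ∧
      (∀ U : AddSubgroup (CC D), IsOpen (U : Set (CC D)) → ∃ n : ℕ,
        ∀ r ∈ maximalIdeal (MvPowerSeries (Fin d) ℤ_[p]) ^ n, ∀ v : CC D, r • v ∈ U)

end Pool.Agent.Helper85.ProC
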