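import Pool.Agent.Helper30.ProP.Goals
import Pool.Agent.Helper85.ProC.Engine

/-! An abelian closed section `L / K` of a profinite group as a topological group with an action
(adapted from Helper33.ProP2.Dat; no commutativity of the action is assumed). -/

set_option autoImplicit false
set_option linter.unusedSectionVars false

namespace Pool.Agent.Helper85.ProC

open Pool.Agent.Helper85.ProP Pool.Agent.Helper30.ProP
  IsLocalRing Filter Topology

universe u

/-- an abelian closed normal section -/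
structure Sec (G : Type u) [Group G] [TopologicalSpace G] where
  K : Subgroup G
  L : Subgroup G
  Kn : K.Normal
  Kc : IsClosed (K : Set G)
  Ln : L.Normal
  Lc : IsClosed (L : Set G)
  KL : K ≤ L
  ab : ∀ a ∈ L, ∀ b ∈ L, cm a b ∈ K

section algebra

variable {G : Type u} [Group G] [TopologicalSpace G] (D : Sec G)

instance : D.K.Normal := D.Kn
instance : D.L.Normal := D.Ln

/-- the section -/
abbrev SS : Type u := D.L ⧸ D.K.subgroupOf D.L

instance instCS : CommGroup (SS D) :=
  { (inferInstance : Group (SS D)) with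
    mul_comm := by
      intro a b
      induction a using QuotientGroup.induction_on with
      | H a =>
      induction b using QuotientGroup.induction_on with
      | H b =>
      have h2 : ((cm a b : D.L) : SS D) = 1 :=
        (QuotientGroup.eq_one_iff _).2 (D.ab a a.2 b b.2)
      have h3 : (a : SS D) * b * (a : SS D)⁻¹ * (b : SS D)⁻¹ = 1 := h2
      exact commutatorElement_eq_one_iff_mul_comm.1 h3 }

/-- the additive group -/
def CC : Type u := Additive (SS D)

instance : AddCommGroup (CC D) := inferInstanceAs (AddCommGroup (Additive (SS D)))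

variable {D}

/-- the class of an element -/
def mkC {a : G} (ha : a ∈ D.L) : CC D := Additive.ofMul (QuotientGroup.mk ⟨a, ha⟩)

theorem mkC_surj (b : CC D) : ∃ (a : G) (ha : a ∈ D.L), mkC ha = b := by
  obtain ⟨⟨a, ha⟩, h⟩ := QuotientGroup.mk_surjective (Additive.toMul b : SS D)
  exact ⟨a, ha, congrArg Additive.ofMul h⟩

theorem mkC_mul {a b : G} (ha : a ∈ D.L) (hb : b ∈ D.L) :
    mkC (D.L.mul_mem ha hb) = mkC ha + mkC hb := rfl

theorem mkC_inv {a : G} (ha : a ∈ D.L) : mkC (D.L.inv_mem ha) = -mkC ha := rfl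

theorem mkC_one : mkC D.L.one_mem = 0 := rfl

theorem mkC_pow {a : G} (ha : a ∈ D.L) (n : ℕ) : mkC (D.L.pow_mem ha n) = n • mkC ha := rfl

theorem mkC_eq_zero {a : G} (ha : a ∈ D.L) : mkC ha = 0 ↔ a ∈ D.K := by
  have h : (QuotientGroup.mk (⟨a, ha⟩ : D.L) : SS D) = 1 ↔ a ∈ D.K :=
    QuotientGroup.eq_one_iff _
  exact h

theorem mkC_eq {a b : G} (ha : a ∈ D.L) (hb : b ∈ D.L) : mkC ha = mkC hb ↔ a⁻¹ * b ∈ D.K := by
  have h : (QuotientGroup.mk (⟨a, ha⟩ : D.L) : SS D) = QuotientGroup.mk (⟨b, hb⟩ : D.L) ↔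
      a⁻¹ * b ∈ D.K := QuotientGroup.eq
  exact h

variable (D) in
/-- conjugation -/
def cj (h : G) : CC D →+ CC D := MonoidHom.toAdditive
  (QuotientGroup.map (D.K.subgroupOf D.L) (D.K.subgroupOf D.L)
    (MulAut.conjNormal h : D.L ≃* D.L).toMonoidHom (by
      intro a ha
      rw [Subgroup.mem_comap, Subgroup.mem_subgroupOf]
      rw [Subgroup.mem_subgroupOf] at ha
      exact D.Kn.conj_mem _ ha h))

theorem cj_mk (h : G) {a : G} (ha : a ∈ D.L) : cj D h (mkC ha) = mkC (D.Ln.conj_mem a ha h) := rfl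

theorem mkC_congr {a b : G} (ha : a ∈ D.L) (h : a = b) : mkC ha = mkC (h ▸ ha : b ∈ D.L) := by
  subst h; rfl

theorem cj_one (b : CC D) : cj D 1 b = b := by
  obtain ⟨a, ha, rfl⟩ := mkC_surj b
  rw [cj_mk, mkC_eq]
  have : (1 * a * 1⁻¹)⁻¹ * a = 1 := by group
  rw [this]
  exact D.K.one_mem

theorem cj_mul (g h : G) (b : CC D) : cj D (g * h) b = cj D g (cj D h b) := by
  obtain ⟨a, ha, rfl⟩ := mkC_surj b
  rw [cj_mk, cj_mk, cj_mk, mkC_eq]
  have : (g * h * a * (g * h)⁻¹)⁻¹ * (g * (h * a * h⁻¹) * g⁻¹) = 1 := by group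
  rw [this]
  exact D.K.one_mem

variable (D) in
/-- `T_h = conjugation - 1` -/
def TT (h : G) : CC D →+ CC D := cj D h - AddMonoidHom.id _

theorem TT_apply (h : G) (b : CC D) : TT D h b = cj D h b - b := rfl

theorem TT_mk (h : G) {a : G} (ha : a ∈ D.L) :
    TT D h (mkC ha) = mkC (D.L.mul_mem (D.Ln.conj_mem a ha h) (D.L.inv_mem ha)) := by
  rw [TT_apply, cj_mk, sub_eq_add_neg]
  rfl

theorem TT_iter_mem {O : Subgroup G} [O.Normal] (h : G) (n : ℕ) (b : CC D) :
    ∃ (a : G) (ha : a ∈ D.L), mkC ha = (TT D h)^[n] b ∧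
      ((a : G) : G ⧸ O) ∈ (⊤ : Subgroup (G ⧸ O)).lowerCentralSeries n := by
  induction n with
  | zero =>
    obtain ⟨a, ha, rfl⟩ := mkC_surj b
    exact ⟨a, ha, rfl, Subgroup.mem_top _⟩
  | succ n ih =>
    obtain ⟨a, ha, h1, h2⟩ := ih
    refine ⟨_, D.L.mul_mem (D.Ln.conj_mem a ha h) (D.L.inv_mem ha), ?_, ?_⟩
    · rw [Function.iterate_succ_apply', ← h1, TT_mk]
    · rw [Subgroup.lowerCentralSeries_succ]
      have h3 := Subgroup.commutator_mem_commutator h2 (Subgroup.mem_top ((h : G) : G ⧸ O))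
      have h4 := inv_mem h3
      rw [commutatorElement_inv] at h4
      exact h4

variable (D) in
/-- the image of a subgroup -/
def inter (H : Subgroup G) : AddSubgroup (CC D) :=
  Subgroup.toAddSubgroup ((H.subgroupOf D.L).map (QuotientGroup.mk' (D.K.subgroupOf D.L)))

theorem mem_inter {H : Subgroup G} {b : CC D} :
    b ∈ inter D H ↔ ∃ (a : G) (ha : a ∈ D.L), a ∈ H ∧ mkC ha = b := by
  constructor
  · rintro ⟨⟨a, ha⟩, h1, h2⟩
    exact ⟨a, ha, h1, congrArg Additive.ofMul h2⟩
  · rintro ⟨a, ha, h1, rfl⟩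
    exact ⟨⟨a, ha⟩, h1, rfl⟩

/-- the preimage of a subgroup -/
def toG (N : AddSubgroup (CC D)) : Subgroup G :=
  ((AddSubgroup.toSubgroup N).comap (QuotientGroup.mk' (D.K.subgroupOf D.L))).map D.L.subtype

theorem mem_toG {N : AddSubgroup (CC D)} {a : G} : a ∈ toG N ↔ ∃ ha : a ∈ D.L, mkC ha ∈ N := by
  constructor
  · rintro ⟨⟨a, ha⟩, h1, rfl⟩
    exact ⟨ha, h1⟩
  · rintro ⟨ha, h1⟩
    exact ⟨⟨a, ha⟩, h1, rfl⟩

end algebra

section topology

variable {G : Type u} [Group G] [TopologicalSpace G] [IsTopologicalGroup G] [CompactSpace G]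
  [T2Space G] [TotallyDisconnectedSpace G] (D : Sec G)

instance : TopologicalSpace (CC D) := inferInstanceAs (TopologicalSpace (SS D))

instance : CompactSpace D.L := isCompact_iff_compactSpace.1 D.Lc.isCompact

instance : CompactSpace (CC D) := inferInstanceAs (CompactSpace (SS D))

instance : T2Space (CC D) := by
  have : IsClosed ((D.K.subgroupOf D.L : Subgroup D.L) : Set D.L) :=
    D.Kc.preimage continuous_subtype_val
  exact inferInstanceAs (T2Space (SS D))

instance : IsTopologicalGroup (SS D) := QuotientGroup.instIsTopologicalGroup _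

instance : IsTopologicalAddGroup (CC D) :=
  inferInstanceAs (IsTopologicalAddGroup (Additive (SS D)))

variable {D}

/-- the quotient map -/
def qm (a : D.L) : CC D := mkC a.2

theorem continuous_qm : Continuous (qm : D.L → CC D) := QuotientGroup.continuous_mk

theorem isOpenMap_qm : IsOpenMap (qm : D.L → CC D) := QuotientGroup.isOpenMap_coe

theorem continuous_cj (b : CC D) : Continuous (fun h : G => cj D h b) := by
  obtain ⟨a, ha, rfl⟩ := mkC_surj b
  have h1 : Continuous (fun h : G => (⟨h * a * h⁻¹, D.Ln.conj_mem a ha h⟩ : D.L)) :=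
    Continuous.subtype_mk (by fun_prop) _
  exact continuous_qm.comp h1

theorem inter_open (O : Subgroup G) (hO : IsOpen (O : Set G)) :
    IsOpen (inter D O : Set (CC D)) := by
  have h1 : IsOpen ((O.subgroupOf D.L : Subgroup D.L) : Set D.L) :=
    hO.preimage continuous_subtype_val
  exact isOpenMap_qm _ h1

theorem inter_closed (H : Subgroup G) (hH : IsClosed (H : Set G)) :
    IsClosed (inter D H : Set (CC D)) := by
  have h1 : IsClosed ((H.subgroupOf D.L : Subgroup D.L) : Set D.L) :=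
    hH.preimage continuous_subtype_val
  exact (h1.isCompact.image continuous_qm).isClosed

theorem toG_closed (N : AddSubgroup (CC D)) (hN : IsClosed (N : Set (CC D))) :
    IsClosed (toG N : Set G) := by
  have h1 : IsClosed (qm ⁻¹' (N : Set (CC D)) : Set D.L) := hN.preimage continuous_qm
  have h2 := D.Lc.isClosedEmbedding_subtypeVal.isClosedMap _ h1
  exact h2

theorem basis_inter (V : Set (CC D)) (hV : IsOpen V) (h0 : (0 : CC D) ∈ V) :
    ∃ O : OpenNormalSubgroup G, (inter D O.toSubgroup : Set (CC D)) ⊆ V := by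
  have h1 : IsOpen (qm ⁻¹' V : Set D.L) := hV.preimage continuous_qm
  obtain ⟨W, hW, hWV⟩ := isOpen_induced_iff.1 h1
  have h2 : (1 : G) ∈ W := by
    have : (1 : D.L) ∈ (qm ⁻¹' V : Set D.L) := h0
    rw [← hWV] at this
    exact this
  obtain ⟨O, hO⟩ := ProfiniteGrp.exist_openNormalSubgroup_sub_open_nhds_of_one hW h2
  refine ⟨O, ?_⟩
  intro b hb
  obtain ⟨a, ha, haO, rfl⟩ := mem_inter.1 hb
  have h3 : (⟨a, ha⟩ : D.L) ∈ (Subtype.val ⁻¹' W : Set D.L) := hO haO
  rw [hWV] at h3
  exact h3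

theorem good_nhds (p : ℕ) [Fact p.Prime] (hp : PP p G)
    {d : ℕ} (x : Fin d → G) (V : Set (CC D)) (hV : IsOpen V) (h0 : (0 : CC D) ∈ V) :
    ∃ U : AddSubgroup (CC D), IsOpen (U : Set (CC D)) ∧
      (U : Set (CC D)) ⊆ V ∧ (∀ i, ∀ b ∈ U, TT D (x i) b ∈ U) ∧
      ∃ n : ℕ, ∀ b, p ^ n • b ∈ U ∧ ∀ i, (TT D (x i))^[n] b ∈ U := by
  obtain ⟨O, hO⟩ := basis_inter V hV h0
  have hOn := O.isNormal'
  obtain ⟨n, hn⟩ := hp O.toSubgroup O.isNormal' O.isOpen'
  refine ⟨inter D O.toSubgroup, inter_open _ O.isOpen', hO, ?_, ?_⟩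
  · intro i b hb
    obtain ⟨a, ha, haO, rfl⟩ := mem_inter.1 hb
    rw [TT_mk, mem_inter]
    exact ⟨_, _, mul_mem (hOn.conj_mem _ haO _) (inv_mem haO), rfl⟩
  · have hcard : Nat.card (G ⧸ O.toSubgroup) = p ^ n := by rw [← hn]; rfl
    have hfin : Finite (G ⧸ O.toSubgroup) := by
      apply Nat.finite_of_card_ne_zero
      rw [hcard]
      exact pow_ne_zero _ (Fact.out : p.Prime).ne_zero
    have hnil : Group.IsNilpotent (G ⧸ O.toSubgroup) := (IsPGroup.of_card hcard).isNilpotent
    obtain ⟨m, hm⟩ := Subgroup.nilpotent_iff_lowerCentralSeries.1 hnil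
    refine ⟨n + m, ?_⟩
    intro b
    constructor
    · obtain ⟨a, ha, rfl⟩ := mkC_surj b
      rw [← mkC_pow, mem_inter]
      refine ⟨_, _, ?_, rfl⟩
      rw [pow_add, pow_mul]
      refine pow_mem ?_ _
      have := O.toSubgroup.pow_index_mem a
      rwa [hn] at this
    · intro i
      rw [add_comm, Function.iterate_add_apply]
      obtain ⟨a, ha, h1, h2⟩ := TT_iter_mem (O := O.toSubgroup) (x i) m ((TT D (x i))^[n] b)
      rw [hm, Subgroup.mem_bot] at h2
      rw [← h1, mem_inter]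
      exact ⟨a, ha, (QuotientGroup.eq_one_iff _).1 h2, rfl⟩

end topology

end Pool.Agent.Helper85.ProC
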