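import Pool.Agent.Helper85.ProC.Und3
import Pool.Agent.Helper30.ProP.Series

/-!
# The definable series attached to normal generators of a nilpotent normal subgroup

`DP F j` is the `j`-th term of the upper central series of `G` relative to the normal closure of the
elements of the list `F`; `LP F j / DP F j` is the centre of `DP F (j+1) / DP F j`;
`TP F j s` consists of the elements of `LP F j` whose `s`-th power is in `DP F j`.
-/

set_option autoImplicit false
set_option linter.unusedSectionVars false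

namespace Pool.Agent.Helper85.ProC

open Pool.Agent.Helper85.ProP Pool.Agent.Helper30.ProP Function

section Alg

variable {G : Type*} [Group G] (F : List G)

/-- the upper central series relative to the normal closure of `F`, as a predicate -/
def inP : ℕ → G → Prop
  | 0, g => g = 1
  | j + 1, g => ∀ f ∈ F, ∀ x : G, inP j (cm g (x * f * x⁻¹))

/-- the predicate defines normal subgroups -/
lemma inP_aux (j : ℕ) : inP F j (1 : G) ∧ (∀ g h : G, inP F j g → inP F j h → inP F j (g * h)) ∧
    (∀ g : G, inP F j g → inP F j g⁻¹) ∧ ∀ x g : G, inP F j g → inP F j (x * g * x⁻¹) := by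
  induction j with
  | zero =>
    refine ⟨rfl, ?_, ?_, ?_⟩
    · rintro g h hg hh
      show g * h = 1
      rw [show g = 1 from hg, show h = 1 from hh, one_mul]
    · rintro g hg
      show g⁻¹ = 1
      rw [show g = 1 from hg, inv_one]
    · rintro x g hg
      show x * g * x⁻¹ = 1
      rw [show g = 1 from hg]; group
  | succ j ih =>
    obtain ⟨h1, h2, h3, h4⟩ := ih
    refine ⟨?_, ?_, ?_, ?_⟩
    · intro f hf x
      rw [cm_one_left]; exact h1
    · intro g h hg hh f hf x
      rw [cm_mul_left]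
      exact h2 _ _ (h4 _ _ (hh f hf x)) (hg f hf x)
    · intro g hg f hf x
      rw [cm_inv_left]
      have := h4 g⁻¹ _ (h3 _ (hg f hf x))
      rwa [inv_inv] at this
    · intro y g hg f hf x
      rw [cm_conj]
      have e : y⁻¹ * (x * f * x⁻¹) * y = (y⁻¹ * x) * f * (y⁻¹ * x)⁻¹ := by group
      rw [e]
      exact h4 _ _ (hg f hf _)

/-- the upper central series relative to the normal closure of `F` -/
def DP (j : ℕ) : Subgroup G where
  carrier := {g | inP F j g}
  one_mem' := (inP_aux F j).1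
  mul_mem' := fun {a b} ha hb => (inP_aux F j).2.1 a b ha hb
  inv_mem' := fun {a} ha => (inP_aux F j).2.2.1 a ha

lemma mem_DP_zero {g : G} : g ∈ DP F 0 ↔ g = 1 := Iff.rfl

lemma mem_DP_succ {j : ℕ} {g : G} :
    g ∈ DP F (j + 1) ↔ ∀ f ∈ F, ∀ x : G, cm g (x * f * x⁻¹) ∈ DP F j := Iff.rfl

instance DP_normal (j : ℕ) : (DP F j).Normal :=
  ⟨fun g hg x => (inP_aux F j).2.2.2 x g hg⟩

lemma DP_le_succ (j : ℕ) : DP F j ≤ DP F (j + 1) := fun _ hg _ _ _ => cm_mem_of_left hg _

/-- the preimage of the centre of `DP (j+1) / DP j` -/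
def LP (j : ℕ) : Subgroup G where
  carrier := {a | a ∈ DP F (j + 1) ∧ ∀ b ∈ DP F (j + 1), cm a b ∈ DP F j}
  one_mem' := ⟨Subgroup.one_mem _, fun b _ => by rw [cm_one_left]; exact Subgroup.one_mem _⟩
  mul_mem' := fun {a b} ha hb => ⟨Subgroup.mul_mem _ ha.1 hb.1, fun c hc => by
    rw [cm_mul_left]
    exact Subgroup.mul_mem _ (Subgroup.Normal.conj_mem inferInstance _ (hb.2 c hc) a) (ha.2 c hc)⟩
  inv_mem' := fun {a} ha => ⟨Subgroup.inv_mem _ ha.1, fun c hc => by
    rw [cm_inv_left]
    have := Subgroup.Normal.conj_mem (H := DP F j) inferInstance _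
      (Subgroup.inv_mem _ (ha.2 c hc)) a⁻¹
    rwa [inv_inv] at this⟩

lemma mem_LP {j : ℕ} {a : G} :
    a ∈ LP F j ↔ a ∈ DP F (j + 1) ∧ ∀ b ∈ DP F (j + 1), cm a b ∈ DP F j := Iff.rfl

instance LP_normal (j : ℕ) : (LP F j).Normal :=
  ⟨fun g hg x => ⟨Subgroup.Normal.conj_mem inferInstance _ hg.1 x, fun b hb => by
    rw [cm_conj]
    have h1 := Subgroup.Normal.conj_mem (H := DP F (j + 1)) inferInstance _ hb x⁻¹
    rw [inv_inv] at h1
    exact Subgroup.Normal.conj_mem inferInstance _ (hg.2 _ h1) x⟩⟩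

lemma DP_le_LP (j : ℕ) : DP F j ≤ LP F j := fun _ hg => ⟨DP_le_succ F j hg, fun _ _ =>
  cm_mem_of_left hg _⟩

lemma LP_comm (j : ℕ) : ∀ a ∈ LP F j, ∀ b ∈ LP F j, cm a b ∈ DP F j :=
  fun _ ha b hb => ha.2 b hb.1

/-- powers of products in an abelian section -/
lemma mul_pow_mod {D L : Subgroup G} [D.Normal] (hab : ∀ a ∈ L, ∀ b ∈ L, cm a b ∈ D) {a b : G}
    (ha : a ∈ L) (hb : b ∈ L) (n : ℕ) :
    QuotientGroup.mk' D ((a * b) ^ n) = QuotientGroup.mk' D (a ^ n) * QuotientGroup.mk' D (b ^ n) := by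
  have h1 : Commute (QuotientGroup.mk' D a) (QuotientGroup.mk' D b) := by
    have h2 : QuotientGroup.mk' D (cm a b) = 1 := (QuotientGroup.eq_one_iff _).2 (hab a ha b hb)
    have h3 : a * b = cm a b * (b * a) := by unfold cm; group
    show QuotientGroup.mk' D a * QuotientGroup.mk' D b = QuotientGroup.mk' D b * QuotientGroup.mk' D a
    rw [← map_mul, h3, map_mul, h2, one_mul, map_mul]
  rw [map_pow, map_mul, h1.mul_pow, map_pow, map_pow]

/-- elements of `LP` with `s`-th power in `DP` -/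
def TP (j s : ℕ) : Subgroup G where
  carrier := {a | a ∈ LP F j ∧ a ^ s ∈ DP F j}
  one_mem' := ⟨Subgroup.one_mem _, by rw [one_pow]; exact Subgroup.one_mem _⟩
  mul_mem' := fun {a b} ha hb => ⟨Subgroup.mul_mem _ ha.1 hb.1, by
    have h := mul_pow_mod (LP_comm F j) ha.1 hb.1 s
    rw [show QuotientGroup.mk' (DP F j) (a ^ s) = 1 from (QuotientGroup.eq_one_iff _).2 ha.2,
      show QuotientGroup.mk' (DP F j) (b ^ s) = 1 from (QuotientGroup.eq_one_iff _).2 hb.2,
      one_mul] at h
    exact (QuotientGroup.eq_one_iff _).1 h⟩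
  inv_mem' := fun {a} ha => ⟨Subgroup.inv_mem _ ha.1, by
    rw [inv_pow]; exact Subgroup.inv_mem _ ha.2⟩

lemma mem_TP {j s : ℕ} {a : G} : a ∈ TP F j s ↔ a ∈ LP F j ∧ a ^ s ∈ DP F j := Iff.rfl

instance TP_normal (j s : ℕ) : (TP F j s).Normal :=
  ⟨fun g hg x => ⟨Subgroup.Normal.conj_mem inferInstance _ hg.1 x, by
    rw [conj_pow]
    exact Subgroup.Normal.conj_mem inferInstance _ hg.2 x⟩⟩

lemma TP_le (j s : ℕ) : TP F j s ≤ LP F j := fun _ ha => ha.1

lemma DP_le_TP (j s : ℕ) : DP F j ≤ TP F j s := fun _ ha =>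
  ⟨DP_le_LP F j ha, Subgroup.pow_mem _ ha _⟩

lemma TP_mono (j : ℕ) {s s' : ℕ} (h : s ∣ s') : TP F j s ≤ TP F j s' := by
  obtain ⟨c, rfl⟩ := h
  intro a ha
  refine ⟨ha.1, ?_⟩
  rw [pow_mul]
  exact Subgroup.pow_mem _ ha.2 c

end Alg

/-! ### definability -/

section Def

variable {G : Type*} [Group G]

lemma tfm_pow {n : ℕ} {s : (ℕ → G) → G} (hs : TF n s) (k : ℕ) : TF n (fun v => s v ^ k) := by
  induction k with
  | zero =>
    have := TF.one (G := G) n
    simpa using this
  | succ k ih =>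
    have := ih.mul hs
    simpa [pow_succ] using this

lemma DF.ballL {n : ℕ} {ι : Type*} (s : List ι) {R : ι → (ℕ → G) → Prop}
    (h : ∀ i ∈ s, DF n (R i)) : DF n (fun v => ∀ i ∈ s, R i v) := by
  induction s with
  | nil => exact DF.true.of_iff fun v => by simp
  | cons i s ih =>
    refine ((h i (by simp)).and (ih fun j hj => h j (by simp [hj]))).of_iff fun v => ?_
    simp

/-- the list of the first `e` parameters -/
def pl (e : ℕ) (v : ℕ → G) : List G := (List.range e).map v

lemma pl_upd (e : ℕ) (v : ℕ → G) (n : ℕ) (z : G) (hn : e ≤ n) : pl e (update v n z) = pl e v := by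
  unfold pl
  apply List.map_congr_left
  intro i hi
  rw [List.mem_range] at hi
  exact update_of_ne (by omega) _ _

variable (G) in
lemma d_inP (e j : ℕ) : D1 e (fun v : ℕ → G => inP (pl e v) j) := by
  refine ⟨fun v n z hn => by
    show inP (pl e (update v n z)) j = inP (pl e v) j
    rw [pl_upd e v n z hn], ?_⟩
  induction j with
  | zero =>
    intro n _ s hs
    exact DF.eq hs (TF.one n)
  | succ j ih =>
    intro n hn s hs
    have h1 : DF n (fun v : ℕ → G => ∀ i ∈ List.range e, ∀ x : G,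
        inP (pl e v) j (cm (s v) (x * v i * x⁻¹))) := by
      refine DF.ballL _ fun i hi => ?_
      rw [List.mem_range] at hi
      refine DF.all (R := fun v x => inP (pl e v) j (cm (s v) (x * v i * x⁻¹))) ?_ ?_
      · intro v z w
        rw [pl_upd e v n z hn, hs.upd le_rfl, update_of_ne (by omega)]
      · exact ih _ (by omega) _ (hs.succ.cm (((TF.last n).mul (TF.var (by omega))).mul
          (TF.last n).inv))
    refine h1.of_iff fun v => ?_
    show _ ↔ ∀ f ∈ pl e v, ∀ x : G, inP (pl e v) j (cm (s v) (x * f * x⁻¹))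
    unfold pl
    constructor
    · intro h f hf x
      obtain ⟨i, hi, rfl⟩ := List.mem_map.1 hf
      exact h i hi x
    · intro h i hi x
      exact h (v i) (List.mem_map.2 ⟨i, hi, rfl⟩) x

variable (G) in
lemma d_DP (e j : ℕ) : D1 e (fun v : ℕ → G => (· ∈ DP (pl e v) j)) := d_inP G e j

variable (G) in
lemma d_LP (e j : ℕ) : D1 e (fun v : ℕ → G => (· ∈ LP (pl e v) j)) := by
  refine ⟨fun v n z hn => by
    show (· ∈ LP (pl e (update v n z)) j) = (· ∈ LP (pl e v) j)
    rw [pl_upd e v n z hn], fun n hn s hs => ?_⟩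
  refine DF.of_iff (P := fun v => s v ∈ DP (pl e v) (j + 1) ∧
    ∀ b, b ∈ DP (pl e v) (j + 1) → cm (s v) b ∈ DP (pl e v) j) ?_ (fun v => (mem_LP _).symm)
  refine ((d_DP G e (j + 1)).df n hn s hs).and
    (DF.all (R := fun v b => b ∈ DP (pl e v) (j + 1) → cm (s v) b ∈ DP (pl e v) j) ?_ ?_)
  · intro v z w
    rw [hs.upd le_rfl, pl_upd e v n z hn]
  · exact ((d_DP G e (j + 1)).df _ (by omega) _ (TF.last n)).imp
      ((d_DP G e j).df _ (by omega) _ (hs.succ.cm (TF.last n)))

variable (G) in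
lemma d_TP (e j k : ℕ) : D1 e (fun v : ℕ → G => (· ∈ TP (pl e v) j k)) := by
  refine ⟨fun v n z hn => by
    show (· ∈ TP (pl e (update v n z)) j k) = (· ∈ TP (pl e v) j k)
    rw [pl_upd e v n z hn], fun n hn s hs => ?_⟩
  exact ((d_LP G e j).df n hn s hs).and ((d_DP G e j).df n hn _ (tfm_pow hs k))

end Def

/-! ### topology -/

section Top

variable {G : Type*} [Group G] [TopologicalSpace G] [IsTopologicalGroup G] (F : List G)

lemma isClosed_DP [T1Space G] (j : ℕ) : IsClosed (DP F j : Set G) := by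
  induction j with
  | zero =>
    have : (DP F 0 : Set G) = {1} := by
      ext g; exact mem_DP_zero F
    rw [this]; exact isClosed_singleton
  | succ j ih =>
    have : (DP F (j + 1) : Set G) =
        ⋂ f ∈ F, ⋂ x : G, (fun g : G => cm g (x * f * x⁻¹)) ⁻¹' (DP F j : Set G) := by
      ext g
      simp only [Set.mem_iInter, Set.mem_preimage, SetLike.mem_coe]
      exact mem_DP_succ F
    rw [this]
    exact isClosed_iInter fun a => isClosed_iInter fun _ => isClosed_iInter fun x =>
      ih.preimage (continuous_cm_left _)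

lemma isClosed_LP [T1Space G] (j : ℕ) : IsClosed (LP F j : Set G) := by
  have : (LP F j : Set G) = (DP F (j + 1) : Set G) ∩
      ⋂ b : G, ⋂ _ : b ∈ DP F (j + 1), (fun g : G => cm g b) ⁻¹' (DP F j : Set G) := by
    ext g
    simp only [Set.mem_inter_iff, Set.mem_iInter, Set.mem_preimage, SetLike.mem_coe]
    exact mem_LP F
  rw [this]
  exact (isClosed_DP F _).inter (isClosed_iInter fun b => isClosed_iInter fun _ =>
    (isClosed_DP F j).preimage (continuous_cm_left _))

lemma isClosed_TP [T1Space G] (j s : ℕ) : IsClosed (TP F j s : Set G) := by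
  have : (TP F j s : Set G) = (LP F j : Set G) ∩ (fun g : G => g ^ s) ⁻¹' (DP F j : Set G) := by
    ext g
    exact mem_TP F
  rw [this]
  exact (isClosed_LP F _).inter ((isClosed_DP F j).preimage (continuous_pow s))

/-- the section `LP / TP` -/
def SecP [T1Space G] (j s : ℕ) : Sec G where
  K := TP F j s
  L := LP F j
  Kn := inferInstance
  Kc := isClosed_TP F j s
  Ln := inferInstance
  Lc := isClosed_LP F j
  KL := TP_le F j s
  ab a ha b hb := DP_le_TP F j s (LP_comm F j a ha b hb)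

/-- `N` centralises `DP (j+1)` modulo `DP j` if `N` lies in all closed normal subgroups which
contain `F` -/
lemma cm_DP_N [T1Space G] {N : Subgroup G}
    (hN : ∀ H : Subgroup G, H.Normal → IsClosed (H : Set G) → (∀ f ∈ F, f ∈ H) → N ≤ H)
    (j : ℕ) {g c : G} (hg : g ∈ DP F (j + 1)) (hc : c ∈ N) : cm g c ∈ DP F j := by
  let H : Subgroup G :=
    { carrier := {c | ∀ g ∈ DP F (j + 1), cm c g ∈ DP F j}
      one_mem' := fun b _ => by rw [cm_one_left]; exact Subgroup.one_mem _
      mul_mem' := fun {a b} ha hb c hc => by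
        rw [cm_mul_left]
        exact Subgroup.mul_mem _ (Subgroup.Normal.conj_mem inferInstance _ (hb c hc) a) (ha c hc)
      inv_mem' := fun {a} ha c hc => by
        rw [cm_inv_left]
        have := Subgroup.Normal.conj_mem (H := DP F j) inferInstance _
          (Subgroup.inv_mem _ (ha c hc)) a⁻¹
        rwa [inv_inv] at this }
  have hHn : H.Normal := ⟨fun c hc x g hg => by
    rw [cm_conj]
    have h1 := Subgroup.Normal.conj_mem (H := DP F (j + 1)) inferInstance _ hg x⁻¹
    rw [inv_inv] at h1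
    exact Subgroup.Normal.conj_mem inferInstance _ (hc _ h1) x⟩
  have hH : IsClosed (H : Set G) := by
    have : (H : Set G) =
        ⋂ b : G, ⋂ _ : b ∈ DP F (j + 1), (fun g : G => cm g b) ⁻¹' (DP F j : Set G) := by
      ext g
      simp only [Set.mem_iInter, Set.mem_preimage, SetLike.mem_coe]
      rfl
    rw [this]
    exact isClosed_iInter fun b => isClosed_iInter fun _ =>
      (isClosed_DP F j).preimage (continuous_cm_left _)
  have h1 : N ≤ H := hN H hHn hH fun f hf g hg => by
    rw [← cm_inv_eq]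
    refine Subgroup.inv_mem _ ?_
    have := (mem_DP_succ F).1 hg f hf 1
    rwa [one_mul, inv_one, mul_one] at this
  rw [← cm_inv_eq]
  exact Subgroup.inv_mem _ (h1 hc g hg)

/-- `N ∩ DP j` -/
def WP (N : Subgroup G) (j : ℕ) : Subgroup G := N ⊓ DP F j

lemma isClosed_WP [T1Space G] {N : Subgroup G} (hNc : IsClosed (N : Set G)) (j : ℕ) :
    IsClosed (WP F N j : Set G) := by
  unfold WP
  rw [Subgroup.coe_inf]
  exact hNc.inter (isClosed_DP F j)

instance WP_normal (N : Subgroup G) [N.Normal] (j : ℕ) : (WP F N j).Normal :=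
  Subgroup.normal_inf_normal _ _

lemma WP_zero (N : Subgroup G) : WP F N 0 = ⊥ := by
  rw [eq_bot_iff]
  intro g hg
  exact Subgroup.mem_bot.2 ((mem_DP_zero F).1 hg.2)

lemma WP_le_succ (N : Subgroup G) (j : ℕ) : WP F N j ≤ WP F N (j + 1) :=
  inf_le_inf_left _ (DP_le_succ F j)

variable [T1Space G] {N : Subgroup G} [N.Normal]
    (hN : ∀ H : Subgroup G, H.Normal → IsClosed (H : Set G) → (∀ f ∈ F, f ∈ H) → N ≤ H)

include hN

lemma WP_le_LP (j : ℕ) : WP F N (j + 1) ≤ LP F j := by
  intro w hw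
  refine ⟨hw.2, fun b hb => ?_⟩
  rw [← cm_inv_eq]
  exact Subgroup.inv_mem _ (cm_DP_N F hN j hb hw.1)

lemma WP_comm (j : ℕ) : ∀ a ∈ WP F N (j + 1), ∀ b ∈ WP F N (j + 1), cm a b ∈ WP F N j := by
  intro a ha b hb
  exact ⟨cm_mem_of_left ha.1 b, cm_DP_N F hN j ha.2 hb.1⟩

/-- the sections `WP (j+1) / WP j` are torsion-free -/
lemma WP_tf {p : ℕ} (hp : 0 < p) (htf : ∀ (g : G) (n : ℕ), 0 < n → g ^ n = 1 → g = 1)
    (hFN : ∀ f ∈ F, f ∈ N) (j : ℕ) : ∀ w ∈ WP F N (j + 1), w ^ p ∈ DP F j → w ∈ DP F j := by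
  induction j with
  | zero =>
    intro w _ hw
    exact htf w p hp hw
  | succ j ih =>
    intro w hw hwp f hf x
    set c := x * f * x⁻¹ with hc
    have hcN : c ∈ N := Subgroup.Normal.conj_mem inferInstance _ (hFN f hf) x
    have hu : cm w c ∈ WP F N (j + 1) := ⟨cm_mem_of_left hw.1 c, cm_DP_N F hN (j + 1) hw.2 hcN⟩
    refine ih _ hu ?_
    -- modulo `DP j`
    have h1 : cm w (cm w c) ∈ DP F j := by
      rw [← cm_inv_eq]
      exact Subgroup.inv_mem _ (cm_DP_N F hN j hu.2 hw.1)
    have h2 : ∀ n : ℕ, (cm w c ^ n)⁻¹ * cm (w ^ n) c ∈ DP F j := by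
      intro n
      induction n with
      | zero => simp [cm_one_left]
      | succ n ihn =>
        let q := QuotientGroup.mk' (DP F j)
        have hq : ∀ x y : G, x⁻¹ * y ∈ DP F j ↔ q x = q y := fun x y => by
          rw [← QuotientGroup.eq]; rfl
        rw [hq] at ihn ⊢
        have h1' : q w * q (cm w c) = q (cm w c) * q w := by
          have h3 : q (cm w (cm w c)) = 1 := (QuotientGroup.eq_one_iff _).2 h1
          have h4 : w * cm w c = cm w (cm w c) * (cm w c * w) := by
            unfold cm; group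
          rw [← map_mul, h4, map_mul, h3, one_mul, map_mul]
        rw [pow_succ' w, cm_mul_left, map_mul, map_mul, map_mul, ← ihn, map_pow, map_pow, map_inv]
        have h5 : Commute (q w) (q (cm w c) ^ n) := Commute.pow_right h1' n
        rw [h5.eq, mul_inv_cancel_right, ← pow_succ]
    have h3 := h2 p
    have h4 : cm (w ^ p) c ∈ DP F j := hwp f hf x
    have h5 := Subgroup.mul_mem _ h4 (Subgroup.inv_mem _ h3)
    have h6 : cm (w ^ p) c * ((cm w c ^ p)⁻¹ * cm (w ^ p) c)⁻¹ = cm w c ^ p := by group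
    rwa [h6] at h5

omit hN in
/-- a nilpotent `N` is contained in some `DP c` -/
lemma le_DP {c : ℕ} (h : N.lowerCentralSeries c = ⊥) (hFN : ∀ f ∈ F, f ∈ N) (j : ℕ) (hj : j ≤ c) :
    N.lowerCentralSeries (c - j) ≤ DP F j := by
  induction j with
  | zero =>
    rw [Nat.sub_zero, h]; exact bot_le
  | succ j ih =>
    intro g hg f hf x
    refine ih (by omega) ?_
    have h1 : c - j = (c - (j + 1)) + 1 := by omega
    rw [h1, Subgroup.lowerCentralSeries_succ]
    exact Subgroup.commutator_mem_commutator hg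
      (Subgroup.Normal.conj_mem inferInstance _ (hFN f hf) x)

omit hN in
lemma N_le_DP {c : ℕ} (h : N.lowerCentralSeries c = ⊥) (hFN : ∀ f ∈ F, f ∈ N) : N ≤ DP F c := by
  have := le_DP F h hFN c le_rfl
  rwa [Nat.sub_self, Subgroup.lowerCentralSeries_zero] at this

end Top

end Pool.Agent.Helper85.ProC
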