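import Pool.Agent.Helper85.ProP.ModUndec
import Pool.Agent.Helper85.ProC.Goals
import Pool.Agent.Helper85.ProC.Act
import Pool.Agent.Helper27.ProP.Zp

/-!
Good parameters from one element of infinite type: preliminaries.
-/

set_option autoImplicit false
set_option linter.unusedSectionVars false

namespace Pool.Agent.Helper85.ProC

open Pool.Agent.Helper85.ProP IsLocalRing

universe u

section ring

variable {R : Type*} [CommRing R] (p : ℕ)

/-- `Σ_{i<p} x^(i p^n)` -/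
def Ph (n : ℕ) (x : R) : R := ∑ i ∈ Finset.range p, x ^ (i * p ^ n)

lemma ph_mul (n : ℕ) (x : R) : Ph p n x * (x ^ p ^ n - 1) = x ^ p ^ (n + 1) - 1 := by
  unfold Ph
  rw [pow_succ, pow_mul]
  have h : ∀ i, x ^ (i * p ^ n) = (x ^ p ^ n) ^ i := fun i => by rw [← pow_mul, mul_comm]
  simp only [h]
  exact geom_sum_mul _ _

lemma ph_pow (n m : ℕ) (x : R) : Ph p n (x ^ p ^ m) = Ph p (n + m) x := by
  unfold Ph
  refine Finset.sum_congr rfl fun i _ => ?_
  rw [← pow_mul]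
  congr 1
  rw [pow_add]; ring

lemma ph_sub (n : ℕ) (x : R) : ∃ c : R, Ph p n x = p + c * (x ^ p ^ n - 1) := by
  have h : x ^ p ^ n - 1 ∣ Ph p n x - p := by
    have e : Ph p n x - p = ∑ i ∈ Finset.range p, (x ^ (i * p ^ n) - 1) := by
      unfold Ph
      rw [Finset.sum_sub_distrib]
      simp
    rw [e]
    refine Finset.dvd_sum fun i _ => ?_
    rw [mul_comm i, pow_mul]
    simpa using sub_dvd_pow_sub_pow (x ^ p ^ n) 1 i
  obtain ⟨c, hc⟩ := h
  exact ⟨c, by rw [mul_comm c, ← hc]; ring⟩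

lemma ph_prod (x : R) (k t : ℕ) (h : k ≤ t) :
    x ^ p ^ t - 1 = (x ^ p ^ k - 1) * ∏ i ∈ Finset.Ico k t, Ph p i x := by
  induction t, h using Nat.le_induction with
  | base => simp
  | succ t h ih =>
    rw [Finset.prod_Ico_succ_top h, ← mul_assoc, ← ih, mul_comm, ph_mul]

lemma om_dvd (x : R) {k t : ℕ} (h : k ≤ t) : ∃ c : R, x ^ p ^ t - 1 = c * (x ^ p ^ k - 1) := by
  obtain ⟨j, rfl⟩ := Nat.exists_eq_add_of_le h
  rw [pow_add, pow_mul]
  obtain ⟨c, hc⟩ : x ^ p ^ k - 1 ∣ (x ^ p ^ k) ^ p ^ j - 1 := by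
    simpa using sub_dvd_pow_sub_pow (x ^ p ^ k) 1 (p ^ j)
  exact ⟨c, by rw [hc, mul_comm]⟩

end ring

section mod

variable {R : Type} [CommRing R] {V : Type u} [AddCommGroup V] [Module R V]

lemma mem_mulM_sup {x : R} {U : Submodule R V} {v : V} :
    v ∈ mulM x V ⊔ U ↔ ∃ w : V, v - x • w ∈ U := by
  rw [Submodule.mem_sup]
  constructor
  · rintro ⟨a, ha, b, hb, rfl⟩
    obtain ⟨w, rfl⟩ := (mem_mulM x a).1 ha
    exact ⟨w, by rwa [add_sub_cancel_left]⟩
  · rintro ⟨w, hw⟩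
    exact ⟨x • w, (mem_mulM x _).2 ⟨w, rfl⟩, _, hw, by abel⟩

lemma smul_mem_mulM (x : R) (v : V) : x • v ∈ mulM x V := (mem_mulM x _).2 ⟨v, rfl⟩

lemma mulM_sup_le {x : R} {U W : Submodule R V} (h : ∀ v : V, x • v ∈ W) (hU : U ≤ W) :
    mulM x V ⊔ U ≤ W := sup_le ((mulM_le_iff x W).2 h) hU

variable (p : ℕ)

/-- `p^m V ⊆ x V + U` for some `m` -/
def Tf (x : R) (U : Submodule R V) : Prop := ∃ m : ℕ, ∀ v : V, (p : R) ^ m • v ∈ mulM x V ⊔ U

variable {p}

lemma tf_mono {x : R} {U W : Submodule R V} (h : U ≤ W) (hx : Tf p x U) : Tf p x W := by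
  obtain ⟨m, hm⟩ := hx
  exact ⟨m, fun v => sup_le_sup_left h _ (hm v)⟩

lemma tf_one (U : Submodule R V) : Tf p 1 U :=
  ⟨0, fun v => mem_mulM_sup.2 ⟨v, by simp⟩⟩

lemma tf_mul {x y : R} {U : Submodule R V} (hx : Tf p x U) (hy : Tf p y U) : Tf p (x * y) U := by
  obtain ⟨a, ha⟩ := hx
  obtain ⟨b, hb⟩ := hy
  refine ⟨a + b, fun v => ?_⟩
  obtain ⟨w, hw⟩ := mem_mulM_sup.1 (hb v)
  obtain ⟨w', hw'⟩ := mem_mulM_sup.1 (ha w)
  refine mem_mulM_sup.2 ⟨w', ?_⟩
  have e : (p : R) ^ (a + b) • v - (x * y) • w' =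
      (p : R) ^ a • ((p : R) ^ b • v - y • w) + y • ((p : R) ^ a • w - x • w') := by
    rw [smul_sub, smul_sub, smul_smul, smul_smul, smul_smul, smul_smul, ← pow_add,
      mul_comm y x, mul_comm y]
    abel
  rw [e]
  exact U.add_mem (U.smul_mem _ hw) (U.smul_mem _ hw')

lemma tf_prod {ι : Type*} (s : Finset ι) (f : ι → R) {U : Submodule R V}
    (h : ∀ i ∈ s, Tf p (f i) U) : Tf p (∏ i ∈ s, f i) U := by
  classical
  induction s using Finset.induction_on with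
  | empty => simpa using tf_one U
  | insert a s ha ih =>
    rw [Finset.prod_insert ha]
    exact tf_mul (h a (by simp)) (ih fun i hi => h i (by simp [hi]))

lemma tf_congr {x y : R} {U : Submodule R V} (h : ∀ v : V, (x - y) • v ∈ U) (hx : Tf p x U) :
    Tf p y U := by
  obtain ⟨m, hm⟩ := hx
  refine ⟨m, fun v => ?_⟩
  obtain ⟨w, hw⟩ := mem_mulM_sup.1 (hm v)
  refine mem_mulM_sup.2 ⟨w, ?_⟩
  have e : (p : R) ^ m • v - y • w = ((p : R) ^ m • v - x • w) + (x - y) • w := by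
    rw [sub_smul]; abel
  rw [e]
  exact U.add_mem hw (h w)

lemma tf_zero {x : R} {U : Submodule R V} (h : ∀ v : V, x • v ∈ U) (hx : Tf p x U) :
    ∃ m : ℕ, ∀ v : V, (p : R) ^ m • v ∈ U := by
  obtain ⟨m, hm⟩ := hx
  exact ⟨m, fun v => (sup_le ((mulM_le_iff x U).2 h) le_rfl : mulM x V ⊔ U ≤ U) (hm v)⟩

end mod

/-! ### topology -/

section top

variable (R : Type) [CommRing R] [IsLocalRing R] (V : Type u) [AddCommGroup V]
    [TopologicalSpace V] [Module R V]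

/-- the topological hypotheses on the module -/
structure TopMod : Prop where
  bas : ∀ W : Set V, IsOpen W → (0 : V) ∈ W → ∃ U : AddSubgroup V, IsOpen (U : Set V) ∧
    (U : Set V) ⊆ W
  cont : ∀ r : R, Continuous fun v : V => r • v
  nil : ∀ U : AddSubgroup V, IsOpen (U : Set V) → ∃ n : ℕ,
    ∀ r ∈ maximalIdeal R ^ n, ∀ v : V, r • v ∈ U

variable {R V} [IsTopologicalAddGroup V] [CompactSpace V] [T2Space V]

lemma closed_mulM (HT : TopMod R V) (x : R) : IsClosed (mulM x V : Set V) := by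
  have : (mulM x V : Set V) = Set.range fun v : V => x • v := by
    ext v
    simp only [SetLike.mem_coe, mem_mulM, Set.mem_range]
  rw [this]
  exact (isCompact_range (HT.cont x)).isClosed

lemma closed_sup' {A B : Submodule R V} (hA : IsClosed (A : Set V)) (hB : IsClosed (B : Set V)) :
    IsClosed ((A ⊔ B : Submodule R V) : Set V) := by
  have h := closed_sup (A := A.toAddSubgroup) (B := B.toAddSubgroup) hA hB
  rw [← Submodule.sup_toAddSubgroup] at h
  exact h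

lemma mem_of_closed (HT : TopMod R V) {N : Submodule R V} (hN : IsClosed (N : Set V)) {v : V}
    (h : ∀ U : AddSubgroup V, IsOpen (U : Set V) → ∃ n ∈ N, v - n ∈ U) : v ∈ N := by
  by_contra hv
  have h1 : IsOpen ((fun z : V => v - z) ⁻¹' ((N : Set V)ᶜ)) :=
    hN.isOpen_compl.preimage (by fun_prop)
  obtain ⟨U, hU, hUW⟩ := HT.bas _ h1 (by
    show v - 0 ∉ (N : Set V)
    rw [sub_zero]; exact hv)
  obtain ⟨n, hn, hnU⟩ := h U hU
  refine hUW hnU ?_
  show v - (v - n) ∈ (N : Set V)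
  rw [sub_sub_cancel]; exact hn

/-- topological Nakayama lemma -/
lemma nakayama (HT : TopMod R V) {X X' : Submodule R V} (hX' : IsClosed (X' : Set V))
    (h : X ≤ X' ⊔ maximalIdeal R • X) : X ≤ X' := by
  have h1 : ∀ n : ℕ, X ≤ X' ⊔ maximalIdeal R ^ n • X := by
    intro n
    induction n with
    | zero => simp
    | succ n ih =>
      calc X ≤ X' ⊔ maximalIdeal R • X := h
        _ ≤ X' ⊔ maximalIdeal R • (X' ⊔ maximalIdeal R ^ n • X) :=
          sup_le_sup_left (Submodule.smul_mono le_rfl ih) _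
        _ ≤ X' ⊔ maximalIdeal R ^ (n + 1) • X := by
          rw [Submodule.smul_sup, ← Submodule.smul_assoc, smul_eq_mul, ← pow_succ']
          exact sup_le le_sup_left (sup_le (Submodule.smul_le_right.trans le_sup_left) le_sup_right)
  intro x hx
  refine mem_of_closed HT hX' fun U hU => ?_
  obtain ⟨n, hn⟩ := HT.nil U hU
  obtain ⟨a, ha, b, hb, hab⟩ := Submodule.mem_sup.1 (h1 n hx)
  refine ⟨a, ha, ?_⟩
  have e : x - a = b := by rw [← hab]; abel
  rw [e]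
  have h2 : ∀ c ∈ maximalIdeal R ^ n • X, c ∈ U := by
    intro c hc
    refine Submodule.smul_induction_on hc (fun r hr m _ => hn r hr m) (fun a b ha hb => ?_)
    exact U.add_mem ha hb
  exact h2 b hb

end top

/-! ### submodules of the group of exponents -/

section exps

variable {p : ℕ} [hp : Fact p.Prime] {d : ℕ} {R : Type} [CommRing R] [IsLocalRing R]
    [IsNoetherianRing R] [Algebra ℤ_[p] R] {ρ : (Fin d → ℤ_[p]) → R}
    {V : Type u} [AddCommGroup V] [Module R V]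

/-- the exponents `q` with `(ρ q - 1) V ⊆ Y` -/
def Stab (H : Hyp p ρ) (Y : Submodule R V) : Submodule ℤ_[p] (Fin d → ℤ_[p]) where
  carrier := {q | ∀ v : V, (ρ q - 1) • v ∈ Y}
  zero_mem' := fun v => by rw [H.zero, sub_self, zero_smul]; exact Y.zero_mem
  add_mem' := fun {a b} ha hb v => by
    rw [H.add_sub_one, add_smul, mul_smul]
    exact Y.add_mem (ha _) (hb v)
  smul_mem' := fun α q hq v => by
    obtain ⟨c, hc⟩ := Ideal.mem_span_singleton'.1 (H.smul_sub_one_mem α q)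
    rw [← hc, mul_smul]
    exact Y.smul_mem c (hq v)

variable (H : Hyp p ρ)

lemma mem_Stab {Y : Submodule R V} {q : Fin d → ℤ_[p]} :
    q ∈ Stab H Y ↔ ∀ v : V, (ρ q - 1) • v ∈ Y := Iff.rfl

lemma Stab_mono {Y Y' : Submodule R V} (h : Y ≤ Y') : Stab H Y ≤ Stab H Y' :=
  fun _ hq v => h (hq v)

/-- the exponents `q` with `(ρ q - 1) V ⊆ (ρ g - 1) V + N` -/
def KK (N : Submodule R V) (g : Fin d → ℤ_[p]) : Submodule ℤ_[p] (Fin d → ℤ_[p]) :=
  Stab H (mulM (ρ g - 1) V ⊔ N)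

lemma self_mem_KK (N : Submodule R V) (g : Fin d → ℤ_[p]) : g ∈ KK H N g :=
  fun v => Submodule.mem_sup_left (smul_mem_mulM _ v)

lemma Stab_le_KK (N : Submodule R V) (g : Fin d → ℤ_[p]) : Stab H N ≤ KK H N g :=
  Stab_mono H le_sup_right

lemma KK_le {N : Submodule R V} {g w : Fin d → ℤ_[p]} (h : w ∈ KK H N g) :
    KK H N w ≤ KK H N g := by
  refine Stab_mono H (sup_le ?_ le_sup_right)
  exact (mulM_le_iff _ _).2 h

lemma pow_smul_mem_KK (N : Submodule R V) (g : Fin d → ℤ_[p]) (m : ℕ) :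
    (p : ℤ_[p]) ^ m • g ∈ KK H N g := (KK H N g).smul_mem _ (self_mem_KK H N g)

variable (p ρ)

/-- infinite type -/
def TI (N : Submodule R V) (g : Fin d → ℤ_[p]) : Prop :=
  ∀ n0 : ℕ, ∃ n, n0 ≤ n ∧ ¬ Tf p (Ph p n (ρ g)) N

variable {p ρ}

include H in
lemma TI_pow {N : Submodule R V} {g : Fin d → ℤ_[p]} (h : TI p ρ N g) (m : ℕ) :
    TI p ρ N ((p : ℤ_[p]) ^ m • g) := by
  intro n0
  obtain ⟨n, hn, hn'⟩ := h (n0 + m)
  refine ⟨n - m, by omega, ?_⟩
  rw [H.p_pow_smul, ph_pow, Nat.sub_add_cancel (by omega)]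
  exact hn'

lemma TI_notMem {N : Submodule R V} {g : Fin d → ℤ_[p]} (h : TI p ρ N g) (m : ℕ) :
    (p : ℤ_[p]) ^ m • g ∉ Stab H N := by
  intro hm
  obtain ⟨n, hn, hn'⟩ := h m
  apply hn'
  refine ⟨1, fun v => ?_⟩
  obtain ⟨c, hc⟩ := ph_sub p n (ρ g)
  obtain ⟨c', hc'⟩ := om_dvd p (ρ g) hn
  refine mem_mulM_sup.2 ⟨v, ?_⟩
  have e : (p : R) ^ 1 • v - Ph p n (ρ g) • v = (-(c * c')) • ((ρ g ^ p ^ m - 1) • v) := by
    rw [hc, hc', ← sub_smul, smul_smul]
    congr 1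
    ring
  rw [e]
  have h1 := hm v
  rw [H.p_pow_smul] at h1
  exact N.smul_mem _ h1

/-- a unit multiple of a power of `p` -/
lemma padic_unit {α : ℤ_[p]} (hα : α ≠ 0) : ∃ (u : ℤ_[p]ˣ) (s : ℕ), α = (u : ℤ_[p]) * (p : ℤ_[p]) ^ s :=
  ⟨PadicInt.unitCoeff hα, α.valuation, PadicInt.unitCoeff_spec hα⟩

lemma TI_smul_notMem {N : Submodule R V} {g : Fin d → ℤ_[p]} (h : TI p ρ N g) {α : ℤ_[p]}
    (hα : α • g ∈ Stab H N) : α = 0 := by
  by_contra h0
  obtain ⟨u, s, hu⟩ := padic_unit h0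
  apply TI_notMem H h s
  have h1 := (Stab H N).smul_mem ((u⁻¹ : ℤ_[p]ˣ) : ℤ_[p]) hα
  rwa [hu, smul_smul, ← mul_assoc, Units.inv_mul, one_mul] at h1

end exps

end Pool.Agent.Helper85.ProC
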