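import Pool.Agent.Helper85.ProC.ThmE1

/-!
Good parameters from one element of infinite type: the rank argument.
-/

set_option autoImplicit false
set_option linter.unusedSectionVars false

namespace Pool.Agent.Helper85.ProC

open Pool.Agent.Helper85.ProP IsLocalRing Filter Topology

universe u

section

variable {p : ℕ} [hp : Fact p.Prime] {d : ℕ} {R : Type} [CommRing R] [IsLocalRing R]
    [IsNoetherianRing R] [Algebra ℤ_[p] R] {ρ : (Fin d → ℤ_[p]) → R}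
    {V : Type u} [AddCommGroup V] [Module R V] (H : Hyp p ρ)

variable (ρ V) in
/-- the submodule attached to a list of exponents -/
def NL : List (Fin d → ℤ_[p]) → Submodule R V
  | [] => ⊥
  | l :: ls => mulM (ρ l - 1) V ⊔ NL ls

lemma pow_le_mem {S : Submodule ℤ_[p] (Fin d → ℤ_[p])} {q : Fin d → ℤ_[p]} {t t' : ℕ}
    (h : t ≤ t') (hq : (p : ℤ_[p]) ^ t • q ∈ S) : (p : ℤ_[p]) ^ t' • q ∈ S := by
  obtain ⟨j, rfl⟩ := Nat.exists_eq_add_of_le' h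
  rw [pow_add, mul_smul]
  exact S.smul_mem _ hq

/-- Lemma B: an element of `K(g)` which is not torsion modulo `L` is of infinite type -/
lemma lemB {Ls : List (Fin d → ℤ_[p])}
    (hmax : ∀ Ls' g', TI p ρ (NL ρ V Ls') g' → ¬ Stab H (NL ρ V Ls) < Stab H (NL ρ V Ls'))
    {g : Fin d → ℤ_[p]} (hg : TI p ρ (NL ρ V Ls) g)
    (hfin : ∀ n, ∀ q ∈ KK H (NL ρ V Ls) g, ∃ t : ℕ,
      (p : ℤ_[p]) ^ t • q ∈ KK H (NL ρ V Ls) ((p : ℤ_[p]) ^ n • g))
    {w : Fin d → ℤ_[p]} (hw : w ∈ KK H (NL ρ V Ls) g)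
    (hwL : ∀ n, (p : ℤ_[p]) ^ n • w ∉ Stab H (NL ρ V Ls)) : TI p ρ (NL ρ V Ls) w := by
  by_contra hcon
  unfold TI at hcon
  push Not at hcon
  obtain ⟨n0, hn0⟩ := hcon
  set N := NL ρ V Ls with hN
  have hN' : NL ρ V (((p : ℤ_[p]) ^ n0 • w) :: Ls) = mulM (ρ ((p : ℤ_[p]) ^ n0 • w) - 1) V ⊔ N := rfl
  refine hmax (((p : ℤ_[p]) ^ n0 • w) :: Ls) g ?_ ?_
  · intro n1
    obtain ⟨n, hn, hn'⟩ := hg n1
    refine ⟨n, hn, fun hT => hn' ?_⟩
    set U := mulM (Ph p n (ρ g)) V ⊔ N with hU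
    have hNU : N ≤ U := le_sup_right
    -- it is enough to see that `p^m V ⊆ U`
    suffices h : ∃ m : ℕ, ∀ v : V, (p : R) ^ m • v ∈ U by exact h
    have h1 : Tf p (ρ w ^ p ^ n0 - 1) U := by
      obtain ⟨m, hm⟩ := hT
      refine ⟨m, fun v => ?_⟩
      have h2 := hm v
      rw [hN', H.p_pow_smul] at h2
      refine (sup_le (le_sup_left.trans le_sup_right) (sup_le le_sup_left
        (le_sup_right.trans le_sup_right)) : mulM (Ph p n (ρ g)) V ⊔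
          (mulM (ρ w ^ p ^ n0 - 1) V ⊔ N) ≤ mulM (ρ w ^ p ^ n0 - 1) V ⊔ U) h2
    obtain ⟨t0, ht0⟩ := hfin (n + 1) w hw
    set t := max t0 n0 with ht
    have ht1 : (p : ℤ_[p]) ^ t • w ∈ KK H N ((p : ℤ_[p]) ^ (n + 1) • g) :=
      pow_le_mem (le_max_left _ _) ht0
    have h3 : Tf p (ρ w ^ p ^ t - 1) U := by
      rw [ph_prod p (ρ w) n0 t (le_max_right _ _)]
      refine tf_mul h1 (tf_prod _ _ fun i hi => ?_)
      rw [Finset.mem_Ico] at hi
      exact tf_mono hNU (hn0 i hi.1)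
    refine tf_zero (fun v => ?_) h3
    have h4 := ht1 v
    rw [H.p_pow_smul, H.p_pow_smul] at h4
    refine (sup_le ?_ hNU : mulM (ρ g ^ p ^ (n + 1) - 1) V ⊔ N ≤ U) h4
    rw [mulM_le_iff]
    intro v
    rw [← ph_mul, mul_smul]
    exact Submodule.mem_sup_left (smul_mem_mulM _ _)
  · refine lt_of_le_of_ne (Stab_mono H (by rw [hN']; exact le_sup_right)) ?_
    intro he
    apply hwL n0
    rw [he, mem_Stab, hN']
    intro v
    exact Submodule.mem_sup_left (smul_mem_mulM _ _)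

/-- compactness of `ℤ_p` -/
lemma padic_uniform (P : ℕ → ℤ_[p] → Prop) (hmono : ∀ s s' α, s ≤ s' → P s α → P s' α)
    (h : ∀ α, ∃ s, ∀ β, P s (α + (p : ℤ_[p]) ^ (s + 1) * β)) : ∃ s, ∀ α, P s α := by
  have key : ∃ s, ∀ α ∈ (Set.univ : Set ℤ_[p]), P s α := by
    refine isCompact_univ.induction_on (p := fun S => ∃ s, ∀ α ∈ S, P s α) ⟨0, fun _ h => h.elim⟩
      ?_ ?_ ?_
    · rintro S T hST ⟨s, hs⟩
      exact ⟨s, fun α hα => hs α (hST hα)⟩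
    · rintro S T ⟨s, hs⟩ ⟨s', hs'⟩
      refine ⟨max s s', ?_⟩
      rintro α (hα | hα)
      · exact hmono _ _ _ (le_max_left _ _) (hs α hα)
      · exact hmono _ _ _ (le_max_right _ _) (hs' α hα)
    · intro α _
      obtain ⟨s, hs⟩ := h α
      refine ⟨_, mem_nhdsWithin_of_mem_nhds (Helper27.ProP.eventually_padic α (s + 1)), s, ?_⟩
      rintro β ⟨w, hw⟩
      have : β = α + (p : ℤ_[p]) ^ (s + 1) * w := by rw [← hw]; ring
      rw [this]; exact hs w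
  obtain ⟨s, hs⟩ := key
  exact ⟨s, fun α => hs α trivial⟩

variable [TopologicalSpace V] [IsTopologicalAddGroup V] [CompactSpace V] [T2Space V]

/-- local constancy -/
lemma KK_near (HT : TopMod R V) {N : Submodule R V} (hN : IsClosed (N : Set V))
    {w q : Fin d → ℤ_[p]} {s : ℕ} (hq : (p : ℤ_[p]) ^ s • q ∈ KK H N w) (β : ℤ_[p])
    {x : Fin d → ℤ_[p]} (hx : x ∈ KK H N w) :
    x ∈ KK H N (w + ((p : ℤ_[p]) ^ (s + 1) * β) • q) := by
  set w' := w + ((p : ℤ_[p]) ^ (s + 1) * β) • q with hw'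
  set X := mulM (ρ w - 1) V ⊔ N with hX
  set X' := mulM (ρ w' - 1) V ⊔ N with hX'
  suffices h : X ≤ X' by exact fun v => h (hx v)
  refine nakayama HT (closed_sup' (closed_mulM HT _) hN) ?_
  refine sup_le ?_ (le_sup_right.trans le_sup_left)
  rw [mulM_le_iff]
  intro v
  -- `ρ w - 1 = ρ (w' - q') - 1`
  set q' := ((p : ℤ_[p]) ^ (s + 1) * β) • q with hq'
  have e1 : w = w' + -q' := by rw [hw']; abel
  have h1 : ∀ v : V, (ρ (-q') - 1) • v ∈ maximalIdeal R • X := by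
    intro v
    have h2 : -q' = ((p : ℤ_[p]) * -β) • ((p : ℤ_[p]) ^ s • q) := by
      rw [hq', smul_smul, ← neg_smul]; congr 1; ring
    obtain ⟨m, hm, he⟩ := H.pow_p_sub_one_mem (H.sub_mem ((p : ℤ_[p]) ^ s • q))
    obtain ⟨c, hc⟩ := Ideal.mem_span_singleton'.1
      (H.smul_sub_one_mem (-β) ((p : ℤ_[p]) • ((p : ℤ_[p]) ^ s • q)))
    have h3 : ρ (-q') - 1 = c * (m * (ρ ((p : ℤ_[p]) ^ s • q) - 1)) := by
      rw [h2, mul_comm, mul_smul, ← hc]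
      congr 1
      rw [← he]
      have := H.natCast_smul ((p : ℤ_[p]) ^ s • q) p
      rw [this]
    rw [h3, mul_smul, mul_smul]
    exact Submodule.smul_mem _ _ (Submodule.smul_mem_smul hm (hq v))
  rw [e1, H.add_sub_one, add_smul, mul_smul]
  refine Submodule.add_mem _ ?_ (Submodule.mem_sup_right (h1 v))
  exact Submodule.mem_sup_left (Submodule.mem_sup_left (smul_mem_mulM _ _))

/-- dependence modulo `L` -/
lemma dependent (hProd : StmtProd.{0}) (HT : TopMod R V) {Ls : List (Fin d → ℤ_[p])}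
    (hNc : IsClosed (NL ρ V Ls : Set V))
    {g : Fin d → ℤ_[p]} (hg : TI p ρ (NL ρ V Ls) g)
    (hfin : ∀ w ∈ KK H (NL ρ V Ls) g, TI p ρ (NL ρ V Ls) w → ∀ q ∈ KK H (NL ρ V Ls) g, ∃ t : ℕ,
      (p : ℤ_[p]) ^ t • q ∈ KK H (NL ρ V Ls) w)
    (hB : ∀ w ∈ KK H (NL ρ V Ls) g, (∀ n, (p : ℤ_[p]) ^ n • w ∉ Stab H (NL ρ V Ls)) →
      TI p ρ (NL ρ V Ls) w)
    {h : Fin d → ℤ_[p]} (hh : h ∈ KK H (NL ρ V Ls) g) :
    ∃ (t : ℕ) (α : ℤ_[p]), (p : ℤ_[p]) ^ t • h - α • g ∈ Stab H (NL ρ V Ls) := by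
  by_contra hcon
  push Not at hcon
  set N := NL ρ V Ls with hN
  -- the two families
  have hA1 : ∀ α : ℤ_[p], h + α • g ∈ KK H N g := fun α =>
    (KK H N g).add_mem hh ((KK H N g).smul_mem _ (self_mem_KK H N g))
  have hA2 : ∀ α : ℤ_[p], g + α • h ∈ KK H N g := fun α =>
    (KK H N g).add_mem (self_mem_KK H N g) ((KK H N g).smul_mem _ hh)
  have hT1 : ∀ α : ℤ_[p], TI p ρ N (h + α • g) := by
    intro α
    refine hB _ (hA1 α) fun n hn => hcon n (-((p : ℤ_[p]) ^ n * α)) ?_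
    rw [smul_add, smul_smul] at hn
    rwa [neg_smul, sub_neg_eq_add]
  have hT2 : ∀ α : ℤ_[p], TI p ρ N (g + α • h) := by
    intro α
    refine hB _ (hA2 α) fun n hn => ?_
    by_cases hα : α = 0
    · rw [hα, zero_smul, add_zero] at hn
      exact TI_notMem H hg n hn
    · obtain ⟨u, s, hu⟩ := padic_unit hα
      apply hcon (n + s) (-((p : ℤ_[p]) ^ n * ((u⁻¹ : ℤ_[p]ˣ) : ℤ_[p])))
      have h1 := (Stab H N).smul_mem ((u⁻¹ : ℤ_[p]ˣ) : ℤ_[p]) hn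
      have e : ((u⁻¹ : ℤ_[p]ˣ) : ℤ_[p]) • ((p : ℤ_[p]) ^ n • (g + α • h)) =
          (p : ℤ_[p]) ^ (n + s) • h - (-((p : ℤ_[p]) ^ n * ((u⁻¹ : ℤ_[p]ˣ) : ℤ_[p]))) • g := by
        have e2 : ((u⁻¹ : ℤ_[p]ˣ) : ℤ_[p]) * ((p : ℤ_[p]) ^ n * α) = (p : ℤ_[p]) ^ (n + s) := by
          rw [hu, pow_add]
          calc ((u⁻¹ : ℤ_[p]ˣ) : ℤ_[p]) * ((p : ℤ_[p]) ^ n * (u * (p : ℤ_[p]) ^ s))
              = (((u⁻¹ : ℤ_[p]ˣ) : ℤ_[p]) * u) * ((p : ℤ_[p]) ^ n * (p : ℤ_[p]) ^ s) := by ring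
            _ = _ := by rw [Units.inv_mul, one_mul]
        rw [smul_add, smul_add, smul_smul, smul_smul, smul_smul, mul_assoc, e2, neg_smul,
          sub_neg_eq_add, add_comm, mul_comm ((u⁻¹ : ℤ_[p]ˣ) : ℤ_[p])]
      rwa [e] at h1
  -- uniform exponents
  have hs1 : ∃ s, ∀ α : ℤ_[p], (p : ℤ_[p]) ^ s • g ∈ KK H N (h + α • g) := by
    refine padic_uniform (fun s α => (p : ℤ_[p]) ^ s • g ∈ KK H N (h + α • g))
      (fun s s' α hss hm => pow_le_mem hss hm) fun α => ?_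
    obtain ⟨s, hs⟩ := hfin _ (hA1 α) (hT1 α) g (self_mem_KK H N g)
    refine ⟨s, fun β => ?_⟩
    have := KK_near H HT hNc hs β hs
    rwa [add_assoc, ← add_smul] at this
  have hs2 : ∃ s, ∀ α : ℤ_[p], (p : ℤ_[p]) ^ s • g ∈ KK H N (g + α • h) := by
    refine padic_uniform (fun s α => (p : ℤ_[p]) ^ s • g ∈ KK H N (g + α • h))
      (fun s s' α hss hm => pow_le_mem hss hm) fun α => ?_
    obtain ⟨s1, hs1⟩ := hfin _ (hA2 α) (hT2 α) g (self_mem_KK H N g)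
    obtain ⟨s2, hs2⟩ := hfin _ (hA2 α) (hT2 α) h hh
    refine ⟨max s1 s2, fun β => ?_⟩
    have := KK_near H HT hNc (pow_le_mem (le_max_right s1 s2) hs2) β
      (pow_le_mem (le_max_left s1 s2) hs1)
    rwa [add_assoc, ← add_smul] at this
  obtain ⟨s1, hs1⟩ := hs1
  obtain ⟨s2, hs2⟩ := hs2
  set s := max s1 s2 with hs
  have hs1' : ∀ α : ℤ_[p], (p : ℤ_[p]) ^ s • g ∈ KK H N (h + α • g) :=
    fun α => pow_le_mem (le_max_left _ _) (hs1 α)
  have hs2' : ∀ α : ℤ_[p], (p : ℤ_[p]) ^ s • g ∈ KK H N (g + α • h) :=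
    fun α => pow_le_mem (le_max_right _ _) (hs2 α)
  obtain ⟨n, hn, hn'⟩ := hg s
  apply hn'
  set γ := ρ g with hγ
  set η := ρ h with hη
  set U := mulM (Ph p n γ) V ⊔ N with hU
  have hNU : N ≤ U := le_sup_right
  suffices hfinal : ∃ m : ℕ, ∀ v : V, (p : R) ^ m • v ∈ U by exact hfinal
  obtain ⟨c0, hc0⟩ := ph_sub p n γ
  obtain ⟨c1, hc1⟩ := om_dvd p γ hn
  -- if `(γ^(p^s) - 1) V ⊆ x V + N` then `p V ⊆ x V + U`
  have claim : ∀ x : R, (∀ v : V, (γ ^ p ^ s - 1) • v ∈ mulM x V ⊔ N) → Tf p x U := by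
    intro x hx
    refine ⟨1, fun v => ?_⟩
    have e : (p : R) ^ 1 • v = Ph p n γ • v - (c0 * c1) • ((γ ^ p ^ s - 1) • v) := by
      rw [hc0, hc1, smul_smul, ← sub_smul]
      congr 1
      ring
    rw [e]
    refine Submodule.sub_mem _ (Submodule.mem_sup_right (Submodule.mem_sup_left
      (smul_mem_mulM _ _))) (Submodule.smul_mem _ _ (sup_le_sup_left hNU _ (hx v)))
  have claim1 : ∀ j : ℕ, Tf p (η - γ ^ j) U := by
    intro j
    refine claim _ fun v => ?_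
    have h1 := hs1' (-(j : ℤ_[p])) v
    rw [H.p_pow_smul] at h1
    refine (sup_le_sup_right ?_ _ : mulM (ρ (h + (-(j : ℤ_[p])) • g) - 1) V ⊔ N ≤ _) h1
    rw [mulM_le_iff]
    intro v
    have e : ρ (h + (-(j : ℤ_[p])) • g) - 1 = (η - γ ^ j) * ρ ((-(j : ℤ_[p])) • g) := by
      have h2 : γ ^ j * ρ ((-(j : ℤ_[p])) • g) = 1 := by
        rw [hγ, ← H.natCast_smul, neg_smul]; exact H.mul_neg _
      rw [H.add, sub_mul, h2]
    rw [e, mul_smul]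
    exact smul_mem_mulM _ _
  have claim2 : ∀ j : ℕ, Tf p (γ - η ^ j) U := by
    intro j
    refine claim _ fun v => ?_
    have h1 := hs2' (-(j : ℤ_[p])) v
    rw [H.p_pow_smul] at h1
    refine (sup_le_sup_right ?_ _ : mulM (ρ (g + (-(j : ℤ_[p])) • h) - 1) V ⊔ N ≤ _) h1
    rw [mulM_le_iff]
    intro v
    have e : ρ (g + (-(j : ℤ_[p])) • h) - 1 = (γ - η ^ j) * ρ ((-(j : ℤ_[p])) • h) := by
      have h2 : η ^ j * ρ ((-(j : ℤ_[p])) • h) = 1 := by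
        rw [hη, ← H.natCast_smul, neg_smul]; exact H.mul_neg _
      rw [H.add, sub_mul, h2]
    rw [e, mul_smul]
    exact smul_mem_mulM _ _
  have hPhU : ∀ v : V, Ph p n γ • v ∈ U := fun v => Submodule.mem_sup_left (smul_mem_mulM _ _)
  have hγU : ∀ k, n < k → ∀ v : V, (γ ^ p ^ k - 1) • v ∈ U := by
    intro k hk v
    obtain ⟨c, hc⟩ := om_dvd p γ (Nat.succ_le_of_lt hk)
    rw [hc, Nat.succ_eq_add_one, ← ph_mul, mul_smul, mul_comm (Ph p n γ), mul_smul]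
    exact U.smul_mem _ (U.smul_mem _ (hPhU _))
  -- `η^(p^(n+1)) - 1`
  have h5 : Tf p (η ^ p ^ (n + 1) - 1) U := by
    obtain ⟨c, hc⟩ := hProd p n R γ η
    have h6 : Tf p (∏ j ∈ Finset.range (p ^ (n + 1)), (η - γ ^ j)) U :=
      tf_prod _ _ fun j _ => claim1 j
    rw [hc] at h6
    refine tf_congr (fun v => ?_) h6
    rw [add_sub_cancel_left, mul_smul]
    exact U.smul_mem _ (hPhU v)
  -- `Φ_i(η)`
  have h7 : ∀ i, n < i → Tf p (Ph p i η) U := by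
    intro i hi
    obtain ⟨c, hc⟩ := hProd p i R η γ
    have h6 : Tf p (∏ j ∈ Finset.range (p ^ (i + 1)), (γ - η ^ j)) (mulM (Ph p i η) V ⊔ U) :=
      tf_mono le_sup_right (tf_prod _ _ fun j _ => claim2 j)
    refine tf_zero (fun v => ?_) h6
    rw [hc, add_smul, mul_smul]
    refine Submodule.add_mem _ (Submodule.mem_sup_right (hγU _ (by omega) v))
      (Submodule.smul_mem _ _ (Submodule.mem_sup_left (smul_mem_mulM _ _)))
  obtain ⟨t0, ht0⟩ := hfin ((p : ℤ_[p]) ^ (n + 1) • g) (pow_smul_mem_KK H N g _)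
    (TI_pow H hg _) h hh
  set t := max t0 (n + 1) with ht
  have ht1 : (p : ℤ_[p]) ^ t • h ∈ KK H N ((p : ℤ_[p]) ^ (n + 1) • g) :=
    pow_le_mem (le_max_left _ _) ht0
  have h8 : Tf p (η ^ p ^ t - 1) U := by
    rw [ph_prod p η (n + 1) t (le_max_right _ _)]
    refine tf_mul h5 (tf_prod _ _ fun i hi => ?_)
    rw [Finset.mem_Ico] at hi
    exact h7 i (by omega)
  refine tf_zero (fun v => ?_) h8
  have h4 := ht1 v
  rw [H.p_pow_smul, H.p_pow_smul] at h4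
  refine (sup_le ?_ hNU : mulM (ρ g ^ p ^ (n + 1) - 1) V ⊔ N ≤ U) h4
  rw [mulM_le_iff]
  exact fun v => hγU (n + 1) (Nat.lt_succ_self n) v

end

end Pool.Agent.Helper85.ProC
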