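import Pool.Agent.Helper85.ProC.ThmE2

/-!
Good parameters from one element of infinite type: the theorem.
-/

set_option autoImplicit false
set_option linter.unusedSectionVars false

namespace Pool.Agent.Helper85.ProC

open Pool.Agent.Helper85.ProP IsLocalRing Filter Topology

universe u

section

variable {p : ℕ} [hp : Fact p.Prime] {d : ℕ} {R : Type} [CommRing R] [IsLocalRing R]
    [IsNoetherianRing R] [Algebra ℤ_[p] R] {ρ : (Fin d → ℤ_[p]) → R}
    {V : Type u} [AddCommGroup V] [Module R V] (H : Hyp p ρ)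
    [TopologicalSpace V] [IsTopologicalAddGroup V] [CompactSpace V] [T2Space V]

lemma closed_NL (HT : TopMod R V) (Ls : List (Fin d → ℤ_[p])) : IsClosed (NL ρ V Ls : Set V) := by
  induction Ls with
  | nil =>
    show IsClosed ((⊥ : Submodule R V) : Set V)
    rw [Submodule.bot_coe]
    exact isClosed_singleton
  | cons l ls ih => exact closed_sup' (closed_mulM HT _) ih

lemma inter_KK (HT : TopMod R V) {N : Submodule R V} (hN : IsClosed (N : Set V))
    {g h : Fin d → ℤ_[p]} (hh : ∀ m : ℕ, h ∈ KK H N ((p : ℤ_[p]) ^ m • g)) : h ∈ Stab H N := by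
  intro v
  refine mem_of_closed HT hN fun U hU => ?_
  obtain ⟨n, hn⟩ := HT.nil U hU
  obtain ⟨w, hw⟩ := mem_mulM_sup.1 (hh n v)
  refine ⟨_, hw, ?_⟩
  rw [sub_sub_cancel]
  exact hn _ (Ideal.pow_le_pow_right (Nat.le_succ n) (H.p_pow_smul_sub_one_mem g n)) w

include H in
/-- natural numbers prime to `p` are units -/
lemma isUnit_natCast (D : ℕ) (hD : ¬ p ∣ D) : IsUnit (D : R) := by
  by_contra hnu
  have h1 : (D : R) ∈ maximalIdeal R := (mem_maximalIdeal _).2 hnu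
  have h2 : Nat.Coprime p D := (Nat.Prime.coprime_iff_not_dvd hp.out).2 hD
  obtain ⟨a, b, hab⟩ := Nat.isCoprime_iff_coprime.2 h2
  have h4 : (1 : R) = (a : R) * (p : R) + (b : R) * (D : R) := by
    have := congrArg (Int.cast : ℤ → R) hab
    push_cast at this
    exact this.symm
  have h5 : (1 : R) ∈ maximalIdeal R := by
    rw [h4]
    exact Ideal.add_mem _ (Ideal.mul_mem_left _ _ H.p_mem) (Ideal.mul_mem_left _ _ h1)
  exact (maximalIdeal.isMaximal R).ne_top ((Ideal.eq_top_iff_one _).2 h5)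

include H in
/-- a common element -/
lemma exists_b (HT : TopMod R V) {N : Submodule R V} (hN : IsClosed (N : Set V))
    {g : Fin d → ℤ_[p]} (hg : TI p ρ N g) :
    ∃ b : V, ∀ n0, ∃ n, n0 ≤ n ∧ ∀ D : ℕ, D ≠ 0 → D • b ∉ mulM (Ph p n (ρ g)) V ⊔ N := by
  classical
  have key : ∃ b : V, ∀ n, ¬ Tf p (Ph p n (ρ g)) N → ∀ k : ℕ,
      (p : R) ^ k • b ∉ mulM (Ph p n (ρ g)) V ⊔ N := by
    by_contra hcon
    push Not at hcon
    let f : ℕ × ℕ → Set V := fun x =>
      if Tf p (Ph p x.1 (ρ g)) N then ∅ else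
        {b | (p : R) ^ x.2 • b ∈ mulM (Ph p x.1 (ρ g)) V ⊔ N}
    have hf : ∀ x, IsClosed (f x) := by
      intro x
      by_cases hx : Tf p (Ph p x.1 (ρ g)) N
      · simp only [f, if_pos hx]; exact isClosed_empty
      · simp only [f, if_neg hx]
        exact (closed_sup' (closed_mulM HT _) hN).preimage (HT.cont _)
    have hU : ⋃ x, f x = Set.univ := by
      rw [Set.eq_univ_iff_forall]
      intro b
      obtain ⟨n, hn, k, hk⟩ := hcon b
      rw [Set.mem_iUnion]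
      refine ⟨(n, k), ?_⟩
      simp only [f, if_neg hn]
      exact hk
    obtain ⟨⟨n, k⟩, x, hx⟩ := nonempty_interior_of_iUnion_of_closed hf hU
    by_cases hn : Tf p (Ph p n (ρ g)) N
    · simp only [f, if_pos hn, interior_empty] at hx
      exact hx
    · let C : AddSubgroup V :=
        { carrier := {b | (p : R) ^ k • b ∈ mulM (Ph p n (ρ g)) V ⊔ N}
          zero_mem' := by
            show (p : R) ^ k • (0 : V) ∈ mulM (Ph p n (ρ g)) V ⊔ N
            rw [smul_zero]; exact Submodule.zero_mem _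
          add_mem' := fun {a b} ha hb => by
            show (p : R) ^ k • (a + b) ∈ mulM (Ph p n (ρ g)) V ⊔ N
            rw [smul_add]; exact Submodule.add_mem _ ha hb
          neg_mem' := fun {a} ha => by
            show (p : R) ^ k • (-a) ∈ mulM (Ph p n (ρ g)) V ⊔ N
            rw [smul_neg]; exact Submodule.neg_mem _ ha }
      have hCf : (C : Set V) = f (n, k) := by
        simp only [f, if_neg hn]; rfl
      have hCo : IsOpen (C : Set V) := by
        refine AddSubgroup.isOpen_of_mem_nhds C (g := x) ?_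
        rw [hCf]
        exact mem_interior_iff_mem_nhds.1 hx
      obtain ⟨m, hm⟩ := HT.nil C hCo
      apply hn
      refine ⟨k + m, fun v => ?_⟩
      have h1 : (p : R) ^ k • ((p : R) ^ m • v) ∈ mulM (Ph p n (ρ g)) V ⊔ N :=
        hm _ (Ideal.pow_mem_pow H.p_mem m) v
      rwa [smul_smul, ← pow_add] at h1
  obtain ⟨b, hb⟩ := key
  refine ⟨b, fun n0 => ?_⟩
  obtain ⟨n, hn, hn'⟩ := hg n0
  refine ⟨n, hn, fun D hD hmem => ?_⟩
  obtain ⟨k, D', hD', rfl⟩ := Nat.exists_eq_pow_mul_and_not_dvd hD p hp.out.ne_one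
  obtain ⟨u, hu⟩ := isUnit_natCast H D' hD'
  apply hb n hn' k
  have h2 : ((p ^ k * D') • b : V) = (u : R) • (((p : R) ^ k) • b) := by
    rw [hu, smul_smul, ← Nat.cast_smul_eq_nsmul R]
    congr 1
    push_cast; ring
  rw [h2] at hmem
  have h3 := (mulM (Ph p n (ρ g)) V ⊔ N).smul_mem ((u⁻¹ : Rˣ) : R) hmem
  rwa [smul_smul, Units.inv_mul, one_smul] at h3

include H in
/-- Theorem E. -/
theorem thmE (hProd : StmtProd.{0}) (hRank : StmtRank) (hTors : StmtTors) (HT : TopMod R V)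
    {g0 : Fin d → ℤ_[p]} (h0 : TI p ρ (⊥ : Submodule R V) g0) :
    ∃ (Ls : List (Fin d → ℤ_[p])) (g : Fin d → ℤ_[p]) (b : V),
      (∀ h, (∀ v : V, (ρ h - 1) • v ∈ mulM (ρ g - 1) V ⊔ NL ρ V Ls) →
        ∃ α : ℤ_[p], ∀ v : V, (ρ h - ρ (α • g)) • v ∈ NL ρ V Ls) ∧
      (∀ n0, ∃ n, n0 ≤ n ∧ ∀ D : ℕ, D ≠ 0 → D • b ∉ mulM (Ph p n (ρ g)) V ⊔ NL ρ V Ls) := by
  -- maximal `L`
  obtain ⟨_, ⟨Ls, g1, hg1, rfl⟩, hmax⟩ := (wellFounded_gt (α := Submodule ℤ_[p]
    (Fin d → ℤ_[p]))).has_min {L | ∃ Ls g, TI p ρ (NL ρ V Ls) g ∧ L = Stab H (NL ρ V Ls)}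
    ⟨_, [], g0, h0, rfl⟩
  have hmax' : ∀ Ls' g', TI p ρ (NL ρ V Ls') g' →
      ¬ Stab H (NL ρ V Ls) < Stab H (NL ρ V Ls') := fun Ls' g' h' =>
    hmax _ ⟨Ls', g', h', rfl⟩
  have hNc := closed_NL (ρ := ρ) HT Ls
  -- minimal rank
  obtain ⟨r, ⟨g, hg, hr⟩, hmin⟩ := Nat.lt_wfRel.wf.has_min
    {r | ∃ g, TI p ρ (NL ρ V Ls) g ∧ Module.finrank ℤ_[p] (KK H (NL ρ V Ls) g) = r}
    ⟨_, g1, hg1, rfl⟩
  set N := NL ρ V Ls with hN
  have hfin : ∀ w ∈ KK H N g, TI p ρ N w → ∀ q ∈ KK H N g, ∃ t : ℕ,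
      (p : ℤ_[p]) ^ t • q ∈ KK H N w := by
    intro w hw hwT
    refine hRank p d _ _ (KK_le H hw) ?_
    rw [hr]
    exact not_lt.1 (hmin _ ⟨w, hwT, rfl⟩)
  have hB : ∀ w ∈ KK H N g, (∀ n, (p : ℤ_[p]) ^ n • w ∉ Stab H N) → TI p ρ N w :=
    fun w hw hwL => lemB H hmax' hg
      (fun n q hq => hfin _ (pow_smul_mem_KK H N g n) (TI_pow H hg n) q hq) hw hwL
  have hdep : ∀ h ∈ KK H N g, ∃ (t : ℕ) (α : ℤ_[p]),
      (p : ℤ_[p]) ^ t • h - α • g ∈ Stab H N := fun h hh =>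
    dependent H hProd HT hNc hg hfin hB hh
  -- torsion
  obtain ⟨m, hm⟩ := hTors p d (Stab H N) (fun m => KK H N ((p : ℤ_[p]) ^ m • g))
    (fun a b hab => KK_le H (by
      obtain ⟨j, rfl⟩ := Nat.exists_eq_add_of_le' hab
      rw [pow_add, mul_smul]
      exact pow_smul_mem_KK H N _ j))
    (fun m => Stab_le_KK H N _) (fun h hh => inter_KK H HT hNc hh)
  set g' := (p : ℤ_[p]) ^ m • g with hg'
  have hTg' : TI p ρ N g' := TI_pow H hg m
  have hE1 : ∀ h ∈ KK H N g', ∃ α : ℤ_[p], h - α • g' ∈ Stab H N := by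
    intro h hh
    obtain ⟨t, α, htα⟩ := hdep h (KK_le H (pow_smul_mem_KK H N g m) hh)
    have h1 : (p : ℤ_[p]) ^ (t + m) • h - α • g' ∈ Stab H N := by
      have := (Stab H N).smul_mem ((p : ℤ_[p]) ^ m) htα
      rw [smul_sub, smul_smul, smul_comm _ α, ← pow_add, add_comm m] at this
      exact this
    set t' := t + m with ht'
    by_cases hdv : (p : ℤ_[p]) ^ t' ∣ α
    · obtain ⟨β, rfl⟩ := hdv
      refine ⟨β, hm _ ?_ t' ?_⟩
      · exact (KK H N g').sub_mem hh ((KK H N g').smul_mem _ (self_mem_KK H N g'))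
      · rwa [smul_sub, smul_smul]
    · exfalso
      have hα : α ≠ 0 := by rintro rfl; exact hdv (dvd_zero _)
      obtain ⟨u, s, hu⟩ := padic_unit hα
      have hst : s < t' := by
        by_contra hst
        apply hdv
        rw [hu]
        exact (pow_dvd_pow _ (not_lt.1 hst)).mul_left _
      obtain ⟨j, hj⟩ : ∃ j, t' = s + (j + 1) := ⟨t' - s - 1, by omega⟩
      -- `p^(j+1) h - u g' ∈ L`
      have h2 : (p : ℤ_[p]) ^ (j + 1) • h - (u : ℤ_[p]) • g' ∈ Stab H N := by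
        refine hm _ ?_ s ?_
        · exact (KK H N g').sub_mem ((KK H N g').smul_mem _ hh)
            ((KK H N g').smul_mem _ (self_mem_KK H N g'))
        · rw [smul_sub, smul_smul, smul_smul, ← pow_add, ← hj, mul_comm _ (u : ℤ_[p]), ← hu]
          exact h1
      set w := (((u⁻¹ : ℤ_[p]ˣ) : ℤ_[p]) * (p : ℤ_[p]) ^ j) • h with hw
      have hwK : w ∈ KK H N g' := (KK H N g').smul_mem _ hh
      have h3 : g' - (p : ℤ_[p]) • w ∈ Stab H N := by
        have h4 := (Stab H N).smul_mem (-((u⁻¹ : ℤ_[p]ˣ) : ℤ_[p])) h2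
        rw [smul_sub, smul_smul, smul_smul, neg_mul, neg_mul, Units.inv_mul] at h4
        have e : g' - (p : ℤ_[p]) • w = (-(((u⁻¹ : ℤ_[p]ˣ) : ℤ_[p]) * (p : ℤ_[p]) ^ (j + 1))) • h -
            (-1 : ℤ_[p]) • g' := by
          rw [hw, smul_smul, neg_smul, neg_smul, one_smul, sub_neg_eq_add, pow_succ]
          rw [show (p : ℤ_[p]) * (((u⁻¹ : ℤ_[p]ˣ) : ℤ_[p]) * (p : ℤ_[p]) ^ j) =
            ((u⁻¹ : ℤ_[p]ˣ) : ℤ_[p]) * ((p : ℤ_[p]) ^ j * (p : ℤ_[p])) by ring]
          abel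
        rw [e]; exact h4
      have hwL : w ∈ Stab H N := by
        have h5 : mulM (ρ w - 1) V ≤ N := by
          refine nakayama HT hNc ?_
          rw [mulM_le_iff]
          intro v
          refine (sup_le ?_ le_sup_left : mulM (ρ g' - 1) V ⊔ N ≤
            N ⊔ maximalIdeal R • mulM (ρ w - 1) V) (hwK v)
          rw [mulM_le_iff]
          intro v
          have e : g' = (p : ℤ_[p]) • w + (g' - (p : ℤ_[p]) • w) := by abel
          rw [e, H.add_sub_one, add_smul, mul_smul]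
          refine Submodule.add_mem _ (Submodule.mem_sup_right ?_) (Submodule.mem_sup_left (h3 v))
          obtain ⟨c, hc, he⟩ := H.pow_p_sub_one_mem (H.sub_mem w)
          have h6 : ρ ((p : ℤ_[p]) • w) - 1 = c * (ρ w - 1) := by
            rw [← he]
            have := H.natCast_smul w p
            rw [this]
          rw [h6, mul_smul]
          exact Submodule.smul_mem_smul hc (smul_mem_mulM _ _)
        exact fun v => h5 (smul_mem_mulM _ _)
      apply TI_notMem H hTg' 0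
      rw [pow_zero, one_smul]
      have e : g' = (p : ℤ_[p]) • w + (g' - (p : ℤ_[p]) • w) := by abel
      rw [e]
      exact (Stab H N).add_mem ((Stab H N).smul_mem _ hwL) h3
  obtain ⟨b, hb⟩ := exists_b H HT hNc hTg'
  refine ⟨Ls, g', b, fun h hh => ?_, hb⟩
  obtain ⟨α, hα⟩ := hE1 h hh
  refine ⟨α, fun v => ?_⟩
  have e : ρ h - ρ (α • g') = (ρ (h - α • g') - 1) * ρ (α • g') := by
    rw [sub_mul, ← H.add, one_mul, sub_add_cancel]
  rw [e, mul_smul]
  exact hα _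

end

end Pool.Agent.Helper85.ProC
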