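import Pool.Agent.Helper85.ProC.ThmE3
import Pool.Agent.Helper85.ProC.Goals2

/-!
Undecidability from one element of infinite type acting on a definable section on which the group
acts through a group of finite rank.
-/

set_option autoImplicit false
set_option linter.unusedSectionVars false

namespace Pool.Agent.Helper85.ProC

open Pool.Agent.Helper85.ProP Pool.Agent.Helper30.ProP IsLocalRing Filter Topology

universe u

/-! ### good parameters for the group -/

section good

variable {p : ℕ} [hp : Fact p.Prime] {d : ℕ} {R : Type} [CommRing R] [IsLocalRing R]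
    [IsNoetherianRing R] [Algebra ℤ_[p] R] {ρ : (Fin d → ℤ_[p]) → R}
    {G : Type*} [Group G] {V : Type u} [AddCommGroup V] [Module R V]
    {σ : G →* AddMonoid.End V} {elt : (Fin d → ℤ_[p]) → G}

lemma Nn_eq_NL (helt : ∀ q v, σ (elt q) v = ρ q • v) (Ls : List (Fin d → ℤ_[p])) :
    Nn σ (Ls.map elt) = (NL ρ V Ls).toAddSubgroup := by
  induction Ls with
  | nil => simp [Nn, NL]
  | cons q Ls ih =>
    simp only [List.map_cons, Nn, NL]
    rw [ih, rg_eq_mulM (helt q), Submodule.sup_toAddSubgroup]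

variable [TopologicalSpace V] [IsTopologicalAddGroup V] [CompactSpace V] [T2Space V]

theorem goodPar (H : Hyp p ρ) (HT : TopMod R V) (C : Subgroup G)
    (hact : ∀ h ∈ C, ∃ q, ∀ v, σ h v = ρ q • v)
    (helt : ∀ q v, σ (elt q) v = ρ q • v) (heltC : ∀ q, elt q ∈ C)
    {Ls : List (Fin d → ℤ_[p])} {g : Fin d → ℤ_[p]} {b : V}
    (hi : ∀ h, (∀ v : V, (ρ h - 1) • v ∈ mulM (ρ g - 1) V ⊔ NL ρ V Ls) →
        ∃ α : ℤ_[p], ∀ v : V, (ρ h - ρ (α • g)) • v ∈ NL ρ V Ls)
    (hb : ∀ n0, ∃ n, n0 ≤ n ∧ ∀ D : ℕ, D ≠ 0 → D • b ∉ mulM (Ph p n (ρ g)) V ⊔ NL ρ V Ls) :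
    GoodPar p σ C (Ls.map elt) (elt g) b := by
  classical
  choose! q hq using hact
  set ls : List G := Ls.map elt with hls
  set N : Submodule R V := NL ρ V Ls with hN
  have hNc : IsClosed (N : Set V) := closed_NL HT Ls
  have hNn : Nn σ ls = N.toAddSubgroup := Nn_eq_NL helt Ls
  have hYy : ∀ (h : G) (x : R), (∀ v, σ h v = x • v) →
      Yy σ ls h = (mulM (x - 1) V ⊔ N).toAddSubgroup := by
    intro h x hx
    unfold Yy
    rw [hNn, rg_eq_mulM hx, Submodule.sup_toAddSubgroup]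
  have hpow : ∀ n : ℕ, ∀ v, σ (elt g ^ n) v = (ρ g ^ n) • v := by
    intro n
    induction n with
    | zero => intro v; simp
    | succ n ih =>
      intro v
      rw [pow_succ, map_mul, pow_succ, mul_smul, ← ih, ← helt g v]
      rfl
  have hpown : ∀ n : ℕ, ∀ v, (σ (elt g) ^ n) v = (ρ g ^ n) • v := by
    intro n v
    rw [← map_pow]; exact hpow n v
  have hY : ∀ n : ℕ, Yy σ ls (elt g ^ p ^ n) = (mulM (ρ g ^ p ^ n - 1) V ⊔ N).toAddSubgroup :=
    fun n => hYy _ _ (hpow _)
  have hY0 : Yy σ ls (elt g) = (mulM (ρ g - 1) V ⊔ N).toAddSubgroup := hYy _ _ (helt g)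
  have hPs : ∀ n, Rg (ev σ (elt g) (Ps p n)) = (mulM (Ph p n (ρ g)) V).toAddSubgroup := by
    intro n
    ext v
    rw [mem_Rg]
    show (∃ w, ev σ (elt g) (Ps p n) w = v) ↔ v ∈ mulM _ V
    rw [mem_mulM]
    refine exists_congr fun w => ?_
    rw [ev_ps]
    have : (∑ i ∈ Finset.range p, σ (elt g) ^ (i * p ^ n)) w =
        ∑ i ∈ Finset.range p, (σ (elt g) ^ (i * p ^ n)) w :=
      AddMonoidHom.finsetSum_apply _ _ _
    rw [this]
    unfold Ph
    rw [Finset.sum_smul]
    simp only [hpown]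
  have hinv : ∀ v ∈ Nn σ ls, σ (elt g) v ∈ Nn σ ls := by
    intro v hv
    rw [hNn] at hv ⊢
    rw [helt]; exact N.smul_mem _ hv
  have hinf : ∀ n0, ∃ n, n0 ≤ n ∧ ∀ D : ℕ, D ≠ 0 →
      D • b ∉ Rg (ev σ (elt g) (Ps p n)) ⊔ Nn σ ls := by
    intro n0
    obtain ⟨n, hn, hn'⟩ := hb n0
    refine ⟨n, hn, fun D hD => ?_⟩
    rw [hPs, hNn, ← Submodule.sup_toAddSubgroup]
    exact hn' D hD
  refine ⟨heltC g, hinv, ?_, ?_, ?_⟩
  · -- powers
    intro h hh h1 h2
    have hqh := hq h hh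
    rw [hYy h _ hqh, hY0] at h1
    rw [hYy h _ hqh, hNn] at h2
    have h1' : ∀ v : V, (ρ (q h) - 1) • v ∈ mulM (ρ g - 1) V ⊔ N := fun v =>
      h1 (show (ρ (q h) - 1) • v ∈ mulM (ρ (q h) - 1) V ⊔ N from
        Submodule.mem_sup_left (smul_mem_mulM _ _))
    obtain ⟨α, hα⟩ := hi (q h) h1'
    have hα0 : α ≠ 0 := by
      rintro rfl
      apply h2
      intro v hv
      have hv' : v ∈ mulM (ρ (q h) - 1) V ⊔ N := hv
      refine (sup_le ?_ le_rfl : mulM (ρ (q h) - 1) V ⊔ N ≤ N) hv'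
      rw [mulM_le_iff]
      intro w
      have := hα w
      rwa [zero_smul, H.zero] at this
    set f := α.valuation with hf
    set u := PadicInt.unitCoeff hα0 with hu
    have hαu : α = (u : ℤ_[p]) * (p : ℤ_[p]) ^ f := PadicInt.unitCoeff_spec hα0
    have e1 : ρ (α • g) - 1 ∈ Ideal.span {ρ g ^ p ^ f - 1} := by
      rw [hαu, mul_smul, ← H.p_pow_smul]
      exact H.smul_sub_one_mem _ _
    have e2 : ρ g ^ p ^ f - 1 ∈ Ideal.span {ρ (α • g) - 1} := by
      rw [← H.p_pow_smul]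
      have : (p : ℤ_[p]) ^ f • g = ((u⁻¹ : ℤ_[p]ˣ) : ℤ_[p]) • (α • g) := by
        rw [hαu, smul_smul, ← mul_assoc, Units.inv_mul, one_mul]
      rw [this]
      exact H.smul_sub_one_mem _ _
    refine ⟨f, ?_, ?_⟩
    · rw [hYy h _ hqh, hY f]
      congr 1
      apply le_antisymm
      · refine sup_le ?_ le_sup_right
        rw [mulM_le_iff]
        intro v
        have e : (ρ (q h) - 1) • v = (ρ (q h) - ρ (α • g)) • v + (ρ (α • g) - 1) • v := by
          rw [← add_smul]; congr 1; ring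
        rw [e]
        refine Submodule.add_mem _ (Submodule.mem_sup_right (hα v)) (Submodule.mem_sup_left ?_)
        exact mulM_mono e1 ((mem_mulM _ _).2 ⟨v, rfl⟩)
      · refine sup_le ((mulM_mono e2).trans ?_) le_sup_right
        rw [mulM_le_iff]
        intro v
        have e : (ρ (α • g) - 1) • v = (ρ (q h) - 1) • v - (ρ (q h) - ρ (α • g)) • v := by
          rw [← sub_smul]; congr 1; ring
        rw [e]
        exact Submodule.sub_mem _ (Submodule.mem_sup_left ((mem_mulM _ _).2 ⟨v, rfl⟩))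
          (Submodule.mem_sup_right (hα v))
    · intro n
      set m := max n (f + 1) with hm
      set a := α.appr m with ha
      obtain ⟨β, hβ⟩ : ∃ β : ℤ_[p], α - a = (p : ℤ_[p]) ^ m * β := by
        have h := PadicInt.appr_spec m α
        rw [Ideal.mem_span_singleton] at h
        obtain ⟨β, hβ⟩ := h
        exact ⟨β, hβ⟩
      have hpd : ∀ j ≤ m, ((p : ℤ_[p]) ^ j ∣ α ↔ p ^ j ∣ a) := by
        intro j hj
        have h3 : (p : ℤ_[p]) ^ j ∣ α - a := by
          rw [hβ]; exact (pow_dvd_pow _ hj).mul_right _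
        have h4 : (p : ℤ_[p]) ^ j ∣ α ↔ (p : ℤ_[p]) ^ j ∣ (a : ℤ_[p]) := by
          constructor
          · intro h5
            have := dvd_sub h5 h3
            rwa [sub_sub_cancel] at this
          · intro h5
            have := dvd_add h3 h5
            rwa [sub_add_cancel] at this
        rw [h4]
        have h5 := PadicInt.pow_p_dvd_int_iff (p := p) j (a : ℤ)
        rw [Int.cast_natCast] at h5
        rw [h5]
        norm_cast
      refine ⟨a, ?_, ?_, ?_⟩
      · rw [← hpd f (by omega)]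
        exact ⟨u, by rw [mul_comm]; exact hαu⟩
      · rw [← hpd (f + 1) (by omega)]
        rintro ⟨γ, hγ⟩
        rw [hαu, pow_succ, mul_comm (u : ℤ_[p]), mul_assoc] at hγ
        have hp0 : (p : ℤ_[p]) ^ f ≠ 0 := pow_ne_zero _ (by exact_mod_cast hp.out.ne_zero)
        have h3 := mul_left_cancel₀ hp0 hγ
        exact PadicInt.prime_p.not_isUnit (isUnit_of_dvd_unit ⟨γ, h3⟩ u.isUnit)
      · intro v
        rw [hqh, hpown, hY n, ← sub_smul]
        show _ ∈ mulM (ρ g ^ p ^ n - 1) V ⊔ N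
        have e : (ρ (q h) - ρ g ^ a) • v =
            (ρ (q h) - ρ (α • g)) • v + (ρ (α • g) - ρ g ^ a) • v := by
          rw [← add_smul]; congr 1; ring
        rw [e]
        refine Submodule.add_mem _ (Submodule.mem_sup_right (hα v)) (Submodule.mem_sup_left ?_)
        have e3 : ρ (α • g) - ρ g ^ a = ρ ((a : ℤ_[p]) • g) * (ρ ((α - a) • g) - 1) := by
          rw [mul_sub, ← H.add, mul_one, H.natCast_smul, ← add_smul]
          congr 2
          ring_nf
        have e4 : ρ (α • g) - ρ g ^ a ∈ Ideal.span {ρ g ^ p ^ n - 1} := by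
          rw [e3]
          refine Ideal.mul_mem_left _ _ ?_
          rw [hβ, mul_comm, mul_smul]
          have h5 := H.smul_sub_one_mem β ((p : ℤ_[p]) ^ m • g)
          have h6 : ρ ((p : ℤ_[p]) ^ m • g) - 1 ∈ Ideal.span {ρ g ^ p ^ n - 1} := by
            have : (p : ℤ_[p]) ^ m • g = (p : ℤ_[p]) ^ (m - n) • ((p : ℤ_[p]) ^ n • g) := by
              rw [smul_smul, ← pow_add]
              congr 2
              omega
            rw [this, ← H.p_pow_smul g n]
            exact H.smul_sub_one_mem _ _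
          exact (Ideal.span_singleton_le_iff_mem _).2 h6 h5
        exact mulM_mono e4 ((mem_mulM _ _).2 ⟨v, rfl⟩)
  · -- strictness
    intro n hcon
    rw [hY n, hY (n + 1)] at hcon
    have hcon' : mulM (ρ g ^ p ^ n - 1) V ⊔ N ≤ mulM (ρ g ^ p ^ (n + 1) - 1) V ⊔ N := hcon
    have h1 : mulM (ρ g ^ p ^ n - 1) V ≤ N ⊔ maximalIdeal R • mulM (ρ g ^ p ^ n - 1) V := by
      refine (le_sup_left.trans hcon').trans (sup_le ?_ le_sup_left)
      rw [mulM_le_iff]
      intro v
      have hx : ρ g ^ p ^ n - 1 ∈ maximalIdeal R := by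
        rw [← H.p_pow_smul]; exact H.sub_mem _
      obtain ⟨m, hm, he⟩ := H.pow_p_sub_one_mem hx
      rw [← pow_mul, ← pow_succ] at he
      rw [he, mul_smul]
      exact Submodule.mem_sup_right (Submodule.smul_mem_smul hm ((mem_mulM _ _).2 ⟨v, rfl⟩))
    have h2 : mulM (ρ g ^ p ^ n - 1) V ≤ N := nakayama HT hNc h1
    obtain ⟨m, hm, hm'⟩ := hinf n
    have h3 : Yy σ ls (elt g ^ p ^ m) ≤ Nn σ ls := by
      refine (yn_anti hm).trans ?_
      rw [hY n, hNn]
      exact fun v hv => (sup_le h2 le_rfl : mulM (ρ g ^ p ^ n - 1) V ⊔ N ≤ N) hv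
    have h4 : Ps p m ∣ 1 := by
      refine key_dvd hinv m hm' 1 ?_
      rw [mul_one]
      refine nn_le_yy σ ls _ (h3 ?_)
      rw [yn_eq]
      exact AddSubgroup.mem_sup_left ⟨b, rfl⟩
    exact (ps_prime (p := p) m).not_isUnit (isUnit_of_dvd_one h4)
  · intro n0
    obtain ⟨n, hn, hn'⟩ := hinf n0
    refine ⟨n, hn, fun D hD => ?_⟩
    rw [← ev_ps]
    exact hn' D hD

end good

/-! ### the bicentralizer of a section -/

section bic

variable {G : Type u} [Group G] [TopologicalSpace G] (D : Sec G)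

lemma comm_iff (x y : G) : (∀ a, a ∈ D.L → cm (cm x y) a ∈ D.K) ↔
    sg D x * sg D y = sg D y * sg D x := (model D).comm_iff x y

/-- the bicentralizer -/
def BC (g0 : G) : Subgroup G where
  carrier := {h | biC (· ∈ D.L) (· ∈ D.K) g0 h}
  one_mem' := fun x _ => (comm_iff D 1 x).2 (by rw [map_one, one_mul, mul_one])
  mul_mem' := fun {h k} hh hk x hx => (comm_iff D (h * k) x).2 (by
    have h1 := (comm_iff D h x).1 (hh x hx)
    have h2 := (comm_iff D k x).1 (hk x hx)
    rw [map_mul, mul_assoc, h2, ← mul_assoc, h1, mul_assoc])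
  inv_mem' := fun {k} hk x hx => (comm_iff D k⁻¹ x).2 (by
    have h1 := (comm_iff D k x).1 (hk x hx)
    have h2 : sg D k⁻¹ * sg D k = 1 := by rw [← map_mul, inv_mul_cancel, map_one]
    have h3 : sg D k * sg D k⁻¹ = 1 := by rw [← map_mul, mul_inv_cancel, map_one]
    calc sg D k⁻¹ * sg D x = sg D k⁻¹ * (sg D x * sg D k) * sg D k⁻¹ := by
          rw [mul_assoc, mul_assoc, h3, mul_one]
      _ = sg D k⁻¹ * (sg D k * sg D x) * sg D k⁻¹ := by rw [h1]
      _ = sg D x * sg D k⁻¹ := by rw [← mul_assoc, h2, one_mul])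

lemma mem_BC {g0 h : G} : h ∈ BC D g0 ↔ ∀ x, sg D x * sg D g0 = sg D g0 * sg D x →
    sg D h * sg D x = sg D x * sg D h := by
  show (∀ x, (∀ a, a ∈ D.L → cm (cm x g0) a ∈ D.K) → ∀ a, a ∈ D.L → cm (cm h x) a ∈ D.K) ↔ _
  refine forall_congr' fun x => ?_
  rw [comm_iff, comm_iff]

lemma self_mem_BC (g0 : G) : g0 ∈ BC D g0 := (mem_BC D).2 fun _ hx => hx.symm

lemma BC_comm {g0 g h : G} (hg : g ∈ BC D g0) (hh : h ∈ BC D g0) :
    sg D g * sg D h = sg D h * sg D g := by
  rw [mem_BC] at hg hh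
  exact hg h (hh g0 rfl)

variable [IsTopologicalGroup G] [CompactSpace G] [T2Space G] [TotallyDisconnectedSpace G]

lemma closed_BC (g0 : G) : IsClosed (BC D g0 : Set G) := by
  have : (BC D g0 : Set G) = ⋂ x : G, ⋂ _ : sg D x * sg D g0 = sg D g0 * sg D x, ⋂ v : CC D,
      {h : G | sg D h (sg D x v) = sg D x (sg D h v)} := by
    ext h
    simp only [Set.mem_iInter, SetLike.mem_coe, Set.mem_ofPred_eq]
    rw [mem_BC]
    refine forall_congr' fun x => forall_congr' fun _ => ?_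
    constructor
    · intro h1 v
      exact congrArg (fun f : AddMonoid.End (CC D) => f v) h1
    · intro h1
      ext v
      exact h1 v
  rw [this]
  refine isClosed_iInter fun x => isClosed_iInter fun _ => isClosed_iInter fun v => ?_
  exact isClosed_eq (cont_sg_left D _) ((cont_sg_right D x).comp (cont_sg_left D v))

end bic

end Pool.Agent.Helper85.ProC
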