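import Pool.Agent.Helper85.ProC.Und2
import Pool.Agent.Helper75.ProC.Prod
import Pool.Agent.Helper32.ProC.Mod2
import Pool.Agent.Helper10.ProC.Mod
import Pool.Agent.Helper49.ProP.Hyp

/-!
Undecidability from one element of infinite type acting on a definable section on which the group
acts through a group of finite rank.
-/

set_option autoImplicit false
set_option linter.unusedSectionVars false

namespace Pool.Agent.Helper85.ProC

open Pool.Agent.Helper85.ProP Pool.Agent.Helper30.ProP IsLocalRing Filter Topology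

universe u

/-- Engine 2. Let `D v` be a family of closed abelian sections of `G`, definable with the
parameters `v 0, …, v (m₀ - 1)`. If for some `v0` there is `g0` such that
`V / Φ_n(g0) V` has infinite exponent for infinitely many `n`, where `V` is the section `D v0`, and
every closed subgroup which contains the kernel of the action on `V` is finitely generated modulo
this kernel, then the theory of `G` is undecidable. -/
theorem undec2 (p : ℕ) [Fact p.Prime] (G : Type u) [Group G] [TopologicalSpace G]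
    [IsTopologicalGroup G] [CompactSpace G] [T2Space G] [TotallyDisconnectedSpace G]
    (hPP : PP p G) {m₀ : ℕ} (D : (ℕ → G) → Sec G)
    (hL : D1 m₀ (fun v => (· ∈ (D v).L))) (hK : D1 m₀ (fun v => (· ∈ (D v).K)))
    (v0 : ℕ → G) (g0 : G)
    (hg0 : ∀ n0, ∃ n, n0 ≤ n ∧ ∀ m : ℕ, ∃ v : CC (D v0), p ^ m • v ∉
      Rg (∑ i ∈ Finset.range p, sg (D v0) g0 ^ (i * p ^ n)))
    (hfr : ∀ C : Subgroup G, IsClosed (C : Set G) → (∀ h : G, (∀ v, sg (D v0) h v = v) → h ∈ C) →
      ∃ (d : ℕ) (t : Fin d → G), (∀ i, t i ∈ C) ∧ ∀ H : Subgroup G, IsClosed (H : Set G) →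
        (∀ h : G, (∀ v, sg (D v0) h v = v) → h ∈ H) → (∀ i, t i ∈ H) → C ≤ H) :
    ¬ DecTh G := by
  -- the family with the additional parameter `v m₀`
  set C : (ℕ → G) → Subgroup G := fun v => BC (D v) (v m₀) with hC
  have hLdep := hL.dep
  have hCd : D1 (m₀ + 1) (fun v => (· ∈ C v)) := by
    have h := d_biC hL hK (m := m₀ + 1) (Nat.le_succ m₀) (i0 := m₀) (Nat.lt_succ_self m₀)
    exact h
  have hL' : D1 (m₀ + 1) (fun v => (· ∈ (D v).L)) :=
    ⟨fun v n z hn => hL.dep v n z (by omega), fun n hn s hs => hL.df n (by omega) s hs⟩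
  have hK' : D1 (m₀ + 1) (fun v => (· ∈ (D v).K)) :=
    ⟨fun v n z hn => hK.dep v n z (by omega), fun n hn s hs => hK.df n (by omega) s hs⟩
  set v1 : ℕ → G := Function.update v0 m₀ g0 with hv1
  have hv1L : (D v1).L = (D v0).L := SetLike.ext fun x => iff_of_eq (congrFun
    (hL.dep v0 m₀ g0 le_rfl) x)
  have hv1K : (D v1).K = (D v0).K := SetLike.ext fun x => iff_of_eq (congrFun
    (hK.dep v0 m₀ g0 le_rfl) x)
  have hv1D : D v1 = D v0 := by
    cases h1 : D v1
    cases h0 : D v0
    rw [h1, h0] at hv1L hv1K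
    simp only at hv1L hv1K
    subst hv1L hv1K
    rfl
  have hv1m : v1 m₀ = g0 := Function.update_self _ _ _
  -- the module structure
  set V := CC (D v0) with hV
  set B := BC (D v0) g0 with hB
  have hBk : ∀ h : G, (∀ v, sg (D v0) h v = v) → h ∈ B := by
    intro h hh
    have e : sg (D v0) h = 1 := by ext v; exact hh v
    rw [hB, mem_BC]
    intro x _
    rw [e, one_mul, mul_one]
  obtain ⟨d, t, htB, ht⟩ := hfr B (closed_BC (D v0) g0) hBk
  obtain ⟨M, hact, hact', hcont, hnil⟩ := Helper32.ProC.stmtMod2 p G hPP (D v0) B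
    (closed_BC (D v0) g0)
    (fun g hg h hh v => congrArg (fun f : AddMonoid.End (CC (D v0)) => f v)
      (BC_comm (D v0) hg hh)) d t htB
    (fun H hH h1 h2 => ht H hH (fun h hh => h1 h (hBk h hh) hh) h2)
  have hHyp := (Helper49.ProP.stmtHyp p d).1
  have HT : TopMod (MvPowerSeries (Fin d) ℤ_[p]) (CC (D v0)) := by
    refine ⟨fun W hW h0 => ?_, hcont, hnil⟩
    obtain ⟨O, hO⟩ := basis_inter W hW h0
    exact ⟨_, inter_open _ O.isOpen', hO⟩
  obtain ⟨q0, hq0⟩ := hact g0 (self_mem_BC (D v0) g0)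
  have hpown : ∀ n : ℕ, ∀ v, (sg (D v0) g0 ^ n) v = (rhoS p d q0 ^ n) • v := by
    intro n
    induction n with
    | zero => intro v; simp
    | succ n ih =>
      intro v
      rw [pow_succ, pow_succ, mul_smul, ← ih, ← hq0 v]
      rfl
  have hTI : TI p (rhoS p d) (⊥ : Submodule (MvPowerSeries (Fin d) ℤ_[p]) (CC (D v0))) q0 := by
    intro n0
    obtain ⟨n, hn, hn'⟩ := hg0 n0
    refine ⟨n, hn, ?_⟩
    rintro ⟨m, hm⟩
    obtain ⟨v, hv⟩ := hn' m
    apply hv
    obtain ⟨w, hw⟩ := mem_mulM_sup.1 (hm v)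
    rw [Submodule.mem_bot, sub_eq_zero] at hw
    rw [mem_Rg]
    refine ⟨w, ?_⟩
    have : (∑ i ∈ Finset.range p, sg (D v0) g0 ^ (i * p ^ n)) w =
        ∑ i ∈ Finset.range p, (sg (D v0) g0 ^ (i * p ^ n)) w :=
      AddMonoidHom.finsetSum_apply _ _ _
    rw [this, ← Nat.cast_smul_eq_nsmul (MvPowerSeries (Fin d) ℤ_[p]), Nat.cast_pow, hw]
    unfold Ph
    rw [Finset.sum_smul]
    simp only [hpown]
  obtain ⟨Ls, g, b, hi, hb⟩ := thmE hHyp Helper75.ProC.stmtProd Helper10.ProC.stmtRank
    Helper10.ProC.stmtTors HT hTI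
  choose elt heltC helt using hact'
  have hgood := goodPar (σ := sg (D v0)) (elt := elt) hHyp HT B hact helt heltC hi hb
  have hC1 : C v1 = B := by
    show BC (D v1) (v1 m₀) = BC (D v0) g0
    rw [hv1D, hv1m]
  have M1 : Model (D v1).L (D v1).K (pr (D v0)) (sg (D v0)) := by
    rw [hv1D]; exact model (D v0)
  refine engine (p := p) (fun v => (D v).L) (fun v => (D v).K) C hL' hK' hCd
    (fun v => ⟨CC (D v), inferInstance, pr (D v), sg (D v), model (D v), sep (D v)⟩) v1 M1
    (ls := Ls.map elt) (g := elt g) (b := b) ?_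
  rw [hC1]
  exact hgood

end Pool.Agent.Helper85.ProC
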