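import Pool.Agent.Helper30.ProP.Goals
import Pool.Agent.Helper85.ProP.GSound

/-!
Statement of the visible element theorem.
-/

set_option autoImplicit false

namespace Pool.Agent.Helper85.ProC

open Pool.Agent.Helper85.ProP Pool.Agent.Helper30.ProP

/-- a finite series of closed normal subgroups from `N` to the whole group whose factors are abelian
and topologically finitely generated -/
def Ser (G : Type*) [Group G] [TopologicalSpace G] (N : Subgroup G) : Prop :=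
  ∃ (k : ℕ) (Hs : ℕ → Subgroup G), Hs 0 = N ∧ Hs k = ⊤ ∧
    (∀ i, (Hs i).Normal ∧ IsClosed (Hs i : Set G)) ∧
    ∀ i < k, Hs i ≤ Hs (i + 1) ∧ (∀ a ∈ Hs (i + 1), ∀ b ∈ Hs (i + 1), cm a b ∈ Hs i) ∧
      FGmod (Hs i) (Hs (i + 1))

/-- VIS: Let `Q` be a soluble pro-`p` group of finite rank acting on the compact torsion-free
`ℤ_p`-module `V`, `V` topologically finitely generated as a `Q`-module but not as a `ℤ_p`-module.
Then for some `g` in `Q` the quotients `V / Φ_n(g) V`, `Φ_n(g) = Σ_{i<p} g^(i p^n)`, have infinite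
exponent for infinitely many `n`. -/
def StmtVis.{u} : Prop :=
  ∀ (p : ℕ) [Fact p.Prime] (Q : Type u) [Group Q] [TopologicalSpace Q] [IsTopologicalGroup Q]
    [CompactSpace Q] [T2Space Q] [TotallyDisconnectedSpace Q], PP p Q → Ser Q ⊥ →
    ∀ (V : Type u) [AddCommGroup V] [TopologicalSpace V] [IsTopologicalAddGroup V]
      [CompactSpace V] [T2Space V] (σ : Q →* AddMonoid.End V),
      (Continuous fun x : Q × V => σ x.1 x.2) →
      (∀ W : Set V, IsOpen W → (0 : V) ∈ W → ∃ U : AddSubgroup V, IsOpen (U : Set V) ∧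
        (U : Set V) ⊆ W ∧ (∀ h : Q, ∀ b ∈ U, σ h b ∈ U) ∧ ∃ n : ℕ, ∀ b : V, p ^ n • b ∈ U) →
      (∃ F : Finset V, ∀ U : AddSubgroup V, IsClosed (U : Set V) →
        (∀ h : Q, ∀ b ∈ U, σ h b ∈ U) → (F : Set V) ⊆ (U : Set V) → U = ⊤) →
      (∀ v : V, p • v = 0 → v = 0) →
      (¬ ∃ F : Finset V, ∀ U : AddSubgroup V, IsClosed (U : Set V) →
        (F : Set V) ⊆ (U : Set V) → U = ⊤) →
      ∃ g : Q, ∀ n0 : ℕ, ∃ n, n0 ≤ n ∧ ∀ m : ℕ, ∃ v : V,
        p ^ m • v ∉ Rg (∑ i ∈ Finset.range p, σ g ^ (i * p ^ n))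

end Pool.Agent.Helper85.ProC
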